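import Pool.Agent.PNE.Cont

/-!
# The L-functions as a partial sum plus a remainder

`L_eq_cut`: for `Re s > 0`, `s ≠ 1`, `T ≥ 1`: from `L_eq`, `Tail χ 1 s = ∫_1^T + Tail χ T s`, and
`s ∫_1^T Ech t^{-s-1} = ∑_{n ≤ T} χ(n) n^{-s} - S(T) T^{-s} - δ s (T^{1-s} - 1)/(1-s)` with
`S(T) = ∑_{n ≤ T} χ(n) = Ech χ T + δ T` (Abel summation: `sum_mul_eq_sub_integral_mul₁` or
`sum_mul_eq_sub_sub_integral_mul₁`; `d/dt t^{-s} = -s t^{-s-1}`; `∫_1^T t^{-s} = (T^{1-s} - 1)/(1-s)`).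
-/

namespace Pool.Agent.PNE

open Complex

variable {N : ℕ} [NeZero N]

omit [NeZero N] in
private theorem Cut_sum (χ : DirichletCharacter ℂ N) (f : ℕ → ℂ) (m : ℕ) :
    ∑ k ∈ Finset.Icc 0 m, f k * (if k = 0 then (0 : ℂ) else χ (k : ZMod N)) =
      ∑ n ∈ Finset.Icc 1 m, χ (n : ZMod N) * f n := by
  have h : Finset.Icc 1 m ⊆ Finset.Icc 0 m := Finset.Icc_subset_Icc (by norm_num) le_rfl
  rw [← Finset.sum_subset h]
  · refine Finset.sum_congr rfl fun k hk => ?_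
    have hk1 : 1 ≤ k := (Finset.mem_Icc.mp hk).1
    rw [if_neg (by omega), mul_comm]
  · intro k hk hk2
    have hk0 : k = 0 := by
      by_contra h0
      exact hk2 (Finset.mem_Icc.mpr ⟨by omega, (Finset.mem_Icc.mp hk).2⟩)
    rw [if_pos hk0, mul_zero]

private theorem Cut_deriv {s : ℂ} (hs0 : s ≠ 0) {t : ℝ} (ht : 0 < t) :
    HasDerivAt (fun y : ℝ => (y : ℂ) ^ (-s)) (-s * (t : ℂ) ^ (-s - 1)) t :=
  hasDerivAt_ofReal_cpow_const (x := t) (r := -s) ht.ne' (neg_ne_zero.mpr hs0)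

theorem L_eq_cut (χ : DirichletCharacter ℂ N) {T : ℝ} (hT : 1 ≤ T) {s : ℂ} (hs : 0 < s.re)
    (h1 : s ≠ 1) :
    χ.LFunction s = ∑ n ∈ Finset.Icc 1 ⌊T⌋₊, χ n * (n : ℂ) ^ (-s) +
      dlt χ * (T : ℂ) ^ (1 - s) / (s - 1) - Ech χ T * (T : ℂ) ^ (-s) + s * Tail χ T s := by
  have hs0 : s ≠ 0 := by
    rintro rfl
    simp at hs
  have hT0 : 0 < T := by linarith
  have hTc : (T : ℂ) ≠ 0 := by
    rw [Ne, Complex.ofReal_eq_zero]
    exact hT0.ne'
  have hne : s - 1 ≠ 0 := sub_ne_zero.mpr h1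
  have hne2 : 1 - s ≠ 0 := sub_ne_zero.mpr (Ne.symm h1)
  -- splitting of the tail
  have hint : MeasureTheory.IntegrableOn (fun t : ℝ => Ech χ t * (t : ℂ) ^ (-s - 1)) (Set.Ioi 1) :=
    tail_integrable χ one_pos hs
  have hsplit : Tail χ 1 s =
      (∫ t in Set.Ioc 1 T, Ech χ t * (t : ℂ) ^ (-s - 1)) + Tail χ T s := by
    unfold Tail
    rw [← Set.Ioc_union_Ioi_eq_Ioi hT, MeasureTheory.setIntegral_union
      (Set.Ioc_disjoint_Ioi le_rfl) measurableSet_Ioi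
      (hint.mono_set Set.Ioc_subset_Ioi_self) (hint.mono_set (Set.Ioi_subset_Ioi hT))]
  -- Abel summation
  have hd : ∀ t ∈ Set.Icc (1 : ℝ) T, HasDerivAt (fun y : ℝ => (y : ℂ) ^ (-s))
      (-s * (t : ℂ) ^ (-s - 1)) t := fun t ht => Cut_deriv hs0 (by linarith [ht.1])
  have hcont : ContinuousOn (fun t : ℝ => -s * (t : ℂ) ^ (-s - 1)) (Set.Icc 1 T) := by
    refine continuousOn_const.mul ?_
    intro t ht
    have ht0 : 0 < t := by linarith [ht.1]
    exact (Complex.continuousAt_ofReal_cpow_const t (-s - 1) (Or.inr ht0.ne')).continuousWithinAt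
  have hderiv : Set.EqOn (deriv (fun y : ℝ => (y : ℂ) ^ (-s)))
      (fun t : ℝ => -s * (t : ℂ) ^ (-s - 1)) (Set.Icc 1 T) := fun t ht => (hd t ht).deriv
  have habel := sum_mul_eq_sub_integral_mul₀ (f := fun y : ℝ => (y : ℂ) ^ (-s))
    (fun k : ℕ => if k = 0 then (0 : ℂ) else χ (k : ZMod N)) (by simp) T
    (fun t ht => (hd t ht).differentiableAt)
    ((hcont.integrableOn_compact isCompact_Icc).congr_fun
      (fun t ht => (hderiv ht).symm) measurableSet_Icc)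
  have hsum1 : ∀ m : ℕ, ∑ k ∈ Finset.Icc 0 m, (if k = 0 then (0 : ℂ) else χ (k : ZMod N)) =
      ∑ n ∈ Finset.Icc 1 m, χ (n : ZMod N) := by
    intro m
    have h := Cut_sum χ (fun _ => 1) m
    simpa using h
  have hL : ∑ k ∈ Finset.Icc 0 ⌊T⌋₊, (((k : ℕ) : ℝ) : ℂ) ^ (-s) *
      (if k = 0 then (0 : ℂ) else χ (k : ZMod N)) =
      ∑ n ∈ Finset.Icc 1 ⌊T⌋₊, χ n * (n : ℂ) ^ (-s) := by
    rw [Cut_sum χ (fun k => (((k : ℕ) : ℝ) : ℂ) ^ (-s))]
    simp
  have hS : ∀ t : ℝ, ∑ n ∈ Finset.Icc 1 ⌊t⌋₊, χ (n : ZMod N) = Ech χ t + dlt χ * t := by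
    intro t
    unfold Ech
    ring
  have hI : (∫ t in Set.Ioc 1 T, deriv (fun y : ℝ => (y : ℂ) ^ (-s)) t *
      ∑ k ∈ Finset.Icc 0 ⌊t⌋₊, (if k = 0 then (0 : ℂ) else χ (k : ZMod N))) =
      -s * (∫ t in Set.Ioc 1 T, Ech χ t * (t : ℂ) ^ (-s - 1)) -
      s * dlt χ * (((T : ℂ) ^ (1 - s) - 1) / (1 - s)) := by
    have e1 : Set.EqOn (fun t : ℝ => deriv (fun y : ℝ => (y : ℂ) ^ (-s)) t *
        ∑ k ∈ Finset.Icc 0 ⌊t⌋₊, (if k = 0 then (0 : ℂ) else χ (k : ZMod N)))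
        (fun t : ℝ => -s * (Ech χ t * (t : ℂ) ^ (-s - 1)) + (-s * dlt χ) * (t : ℂ) ^ (-s))
        (Set.Ioc 1 T) := by
      intro t ht
      have ht0 : (t : ℂ) ≠ 0 := by
        rw [Ne, Complex.ofReal_eq_zero]
        linarith [ht.1]
      have e3 : (t : ℂ) ^ (-s) = t * (t : ℂ) ^ (-s - 1) := by
        rw [Complex.cpow_sub _ _ ht0, Complex.cpow_one]
        field_simp
      have h3 := hderiv (Set.Ioc_subset_Icc_self ht)
      show deriv (fun y : ℝ => (y : ℂ) ^ (-s)) t * _ = _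
      rw [h3, hsum1, hS]
      simp only [e3]
      ring
    rw [MeasureTheory.setIntegral_congr_fun measurableSet_Ioc e1]
    have hi1 : MeasureTheory.IntegrableOn (fun t : ℝ => -s * (Ech χ t * (t : ℂ) ^ (-s - 1)))
        (Set.Ioc 1 T) := (hint.mono_set Set.Ioc_subset_Ioi_self).const_mul _
    have hi2 : MeasureTheory.IntegrableOn (fun t : ℝ => (-s * dlt χ) * (t : ℂ) ^ (-s))
        (Set.Ioc 1 T) := by
      have hc : ContinuousOn (fun t : ℝ => (-s * dlt χ) * (t : ℂ) ^ (-s)) (Set.Icc 1 T) := by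
        refine continuousOn_const.mul ?_
        intro t ht
        have ht0 : 0 < t := by linarith [ht.1]
        exact (Complex.continuousAt_ofReal_cpow_const t (-s)
          (Or.inr ht0.ne')).continuousWithinAt
      exact (hc.integrableOn_compact isCompact_Icc).mono_set Set.Ioc_subset_Icc_self
    rw [MeasureTheory.integral_add hi1 hi2, MeasureTheory.integral_const_mul,
      MeasureTheory.integral_const_mul, ← intervalIntegral.integral_of_le hT
        (f := fun t : ℝ => (t : ℂ) ^ (-s)), integral_cpow]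
    · have e4 : (-s + 1 : ℂ) = 1 - s := by ring
      rw [e4, Complex.ofReal_one, Complex.one_cpow]
      ring
    · right
      constructor
      · intro h
        apply h1
        linear_combination -h
      · rw [Set.uIcc_of_le hT]
        intro h
        linarith [h.1]
  rw [hL, hsum1, hS, hI] at habel
  have hpow : (T : ℂ) ^ (1 - s) = T * (T : ℂ) ^ (-s) := by
    have e : (1 - s : ℂ) = -s + 1 := by ring
    rw [e, Complex.cpow_add _ _ hTc, Complex.cpow_one, mul_comm]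
  rw [L_eq χ hs h1, hsplit, habel]
  have hneg : 1 - s = -(s - 1) := by ring
  rw [hneg, ← hneg, hpow]
  field_simp
  ring

end Pool.Agent.PNE
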