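import Mathlib

/-!
# From weighted Riesz means to sums over intervals (elementary)

Let `R m x = ∑_{n ≤ x} a n (log n)^m (x - n)`, `|R m x| ≤ x² (C(m+1))^{10(m+1)}`, `|a n| ≤ log (n+1) + 1`.
Let `y` be large, `L = log y`, `l = L^{1/20} ≥ 2 C`, `m = ⌊l/(2C)⌋`, so that `P = (C(m+1))^{10(m+1)} ≤ l^{10(m+1)}` and
`4^m P ≤ L L^m`.  Put `b n = a n (log n)^m` and `S k = ∑_{n ≤ k} b n`.  For `k ≤ 2 y` and `h = y / 2^m`
the first difference is `R (k + h) - R k = h S k + ∑_{k < n ≤ k + h} b n (k + h - n)`, hence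
`|S k| ≤ 18 y² P / h + h B`, where `|b n| ≤ B = 9 (L + 3) L^m` for `n ≤ 3 y`, and this is at most
`27 y (L + 3) L^m / 2^m`.  Abel summation with the decreasing weights `(log n)^{-m}` gives
`|∑_{y < n ≤ z} a n| ≤ 54 y (L + 3) / 2^m`, and `2^{-m} ≤ 2 exp (- l / (4 C))`.
Then sum over the dyadic intervals `(x/2^{i+1}, x/2^i]` with `x/2^i ≥ √x` and use the trivial bound below `2 √x`.
-/

namespace Pool.Agent.PNE

private theorem Dif_triv {b : ℕ → ℝ} {s : Finset ℕ} {B : ℝ} (h : ∀ n ∈ s, |b n| ≤ B) :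
    |∑ n ∈ s, b n| ≤ s.card * B := by
  refine (Finset.abs_sum_le_sum_abs _ _).trans ?_
  refine (Finset.sum_le_card_nsmul _ _ _ h).trans_eq ?_
  rw [nsmul_eq_mul]

private theorem Dif_abel {w b : ℕ → ℝ} (hw : Antitone w) (hw0 : ∀ n, 0 ≤ w n) {p q : ℕ} {B : ℝ}
    (hpq : p ≤ q) (hB : ∀ k, p ≤ k → k ≤ q → |∑ n ∈ Finset.Ioc p k, b n| ≤ B) :
    |∑ n ∈ Finset.Ioc p q, w n * b n| ≤ w p * B := by
  have key : ∀ k, p ≤ k → k ≤ q →
      |∑ n ∈ Finset.Ioc p k, w n * b n - w k * ∑ n ∈ Finset.Ioc p k, b n| ≤ (w p - w k) * B := by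
    intro k hk
    induction k, hk using Nat.le_induction with
    | base => intro _; simp
    | succ k hk ih =>
      intro hkq
      have h1 := ih (by omega)
      have h2 := hB k hk (by omega)
      rw [Finset.sum_Ioc_succ_top hk, Finset.sum_Ioc_succ_top hk]
      have h3 : 0 ≤ w k - w (k + 1) := sub_nonneg.2 (hw (Nat.le_succ k))
      have e1 : ∑ n ∈ Finset.Ioc p k, w n * b n + w (k + 1) * b (k + 1) -
          w (k + 1) * (∑ n ∈ Finset.Ioc p k, b n + b (k + 1)) =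
          (∑ n ∈ Finset.Ioc p k, w n * b n - w k * ∑ n ∈ Finset.Ioc p k, b n) +
            (w k - w (k + 1)) * ∑ n ∈ Finset.Ioc p k, b n := by ring
      rw [e1]
      refine (abs_add_le _ _).trans ?_
      rw [abs_mul, abs_of_nonneg h3]
      have h4 := mul_le_mul_of_nonneg_left h2 h3
      linarith
  have h1 := key q hpq le_rfl
  have h2 := hB q hpq le_rfl
  have h3 := abs_add_le (∑ n ∈ Finset.Ioc p q, w n * b n - w q * ∑ n ∈ Finset.Ioc p q, b n)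
    (w q * ∑ n ∈ Finset.Ioc p q, b n)
  rw [sub_add_cancel, abs_mul, abs_of_nonneg (hw0 q)] at h3
  have h4 := mul_le_mul_of_nonneg_left h2 (hw0 q)
  linarith

private theorem Dif_Icc (k : ℕ) : Finset.Icc 1 k = Finset.Ioc 0 k := by
  ext n
  simp only [Finset.mem_Icc, Finset.mem_Ioc]
  omega

private theorem Dif_step {b : ℕ → ℝ} {k : ℕ} {h P B : ℝ} (hh : 0 < h) (hB0 : 0 ≤ B)
    (h1 : |∑ n ∈ Finset.Icc 1 k, b n * (k - n)| ≤ P)
    (h2 : |∑ n ∈ Finset.Icc 1 ⌊k + h⌋₊, b n * (k + h - n)| ≤ P)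
    (hB : ∀ n : ℕ, (n : ℝ) ≤ k + h → |b n| ≤ B) :
    h * |∑ n ∈ Finset.Icc 1 k, b n| ≤ 2 * P + h * (h * B) := by
  have hk : k ≤ ⌊k + h⌋₊ := Nat.le_floor (by linarith)
  have hfl : ((⌊k + h⌋₊ : ℕ) : ℝ) ≤ k + h := Nat.floor_le (by positivity)
  rw [Dif_Icc] at h1 h2 ⊢
  have e1 := Finset.sum_Ioc_consecutive (fun n => b n * ((k : ℝ) + h - n)) (Nat.zero_le k) hk
  have e2 : ∑ n ∈ Finset.Ioc 0 k, b n * ((k : ℝ) + h - n) =
      ∑ n ∈ Finset.Ioc 0 k, b n * ((k : ℝ) - n) + h * ∑ n ∈ Finset.Ioc 0 k, b n := by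
    rw [Finset.mul_sum, ← Finset.sum_add_distrib]
    exact Finset.sum_congr rfl fun n _ => by ring
  have e3 : |∑ n ∈ Finset.Ioc k ⌊k + h⌋₊, b n * ((k : ℝ) + h - n)| ≤ h * (h * B) := by
    refine (Dif_triv (B := B * h) fun n hn => ?_).trans ?_
    · rw [Finset.mem_Ioc] at hn
      have g1 : (n : ℝ) ≤ k + h := by
        have : (n : ℝ) ≤ (⌊k + h⌋₊ : ℕ) := by exact_mod_cast hn.2
        linarith
      have g2 : (k : ℝ) < n := by exact_mod_cast hn.1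
      rw [abs_mul, abs_of_nonneg (by linarith : (0 : ℝ) ≤ k + h - n)]
      exact mul_le_mul (hB n g1) (by linarith) (by linarith) hB0
    · rw [Nat.card_Ioc, Nat.cast_sub hk, mul_comm B h]
      exact mul_le_mul_of_nonneg_right (by linarith) (by positivity)
  have e4 : h * ∑ n ∈ Finset.Ioc 0 k, b n = ∑ n ∈ Finset.Ioc 0 ⌊k + h⌋₊, b n * ((k : ℝ) + h - n) -
      ∑ n ∈ Finset.Ioc 0 k, b n * ((k : ℝ) - n) -
      ∑ n ∈ Finset.Ioc k ⌊k + h⌋₊, b n * ((k : ℝ) + h - n) := by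
    rw [← e1, e2]
    ring
  have e5 : h * |∑ n ∈ Finset.Ioc 0 k, b n| = |h * ∑ n ∈ Finset.Ioc 0 k, b n| := by
    rw [abs_mul, abs_of_pos hh]
  rw [e5, e4]
  refine (abs_sub _ _).trans ?_
  have := abs_sub (∑ n ∈ Finset.Ioc 0 ⌊k + h⌋₊, b n * ((k : ℝ) + h - n))
    (∑ n ∈ Finset.Ioc 0 k, b n * ((k : ℝ) - n))
  linarith

private theorem Dif_dec {K : ℝ} (hK : 0 < K) : ∃ c : ℝ, 0 < c ∧ ∀ L : ℝ, 0 ≤ L →
    (L + 3) * Real.exp (-(L ^ (1 / 20 : ℝ) / K)) ≤ c * Real.exp (-(L ^ (1 / 23 : ℝ))) := by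
  obtain ⟨A, hA⟩ : ∃ A : ℝ, A = max 1 (2 * K) := ⟨_, rfl⟩
  have hA1 : 1 ≤ A := hA ▸ le_max_left _ _
  have hA2 : 2 * K ≤ A := hA ▸ le_max_right _ _
  refine ⟨((2 * K) ^ 20 * (Nat.factorial 20 : ℝ) + 3) * Real.exp (A ^ 20), by positivity,
    fun L hL => ?_⟩
  obtain ⟨t, ht⟩ : ∃ t : ℝ, t = L ^ (1 / 460 : ℝ) := ⟨_, rfl⟩
  have ht0 : 0 ≤ t := ht ▸ Real.rpow_nonneg hL _
  have t1 : t ^ 460 = L := by
    rw [ht, ← Real.rpow_natCast, ← Real.rpow_mul hL]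
    norm_num
  have t2 : L ^ (1 / 20 : ℝ) = t ^ 23 := by
    rw [ht, ← Real.rpow_natCast, ← Real.rpow_mul hL]
    norm_num
  have t3 : L ^ (1 / 23 : ℝ) = t ^ 20 := by
    rw [ht, ← Real.rpow_natCast, ← Real.rpow_mul hL]
    norm_num
  rw [t2, t3]
  obtain ⟨X, hX⟩ : ∃ X : ℝ, X = t ^ 23 / (2 * K) := ⟨_, rfl⟩
  have hX0 : 0 ≤ X := by rw [hX]; positivity
  have hXK : t ^ 23 / K = X + X := by
    rw [hX]
    field_simp
    ring
  have k1 : t ^ 20 ≤ X + A ^ 20 := by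
    rcases le_or_gt t A with h | h
    · have := pow_le_pow_left₀ ht0 h 20
      linarith
    · have h3 : 2 * K ≤ t ^ 3 := by
        have h4 : 1 ≤ t := hA1.trans h.le
        have h5 : t ≤ t ^ 3 := le_self_pow₀ h4 (by norm_num)
        linarith
      have h6 : t ^ 20 ≤ X := by
        rw [hX, le_div_iff₀ (by positivity)]
        calc t ^ 20 * (2 * K) ≤ t ^ 20 * t ^ 3 := mul_le_mul_of_nonneg_left h3 (by positivity)
          _ = t ^ 23 := by ring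
      have : 0 ≤ A ^ 20 := by positivity
      linarith
  have k2 : L + 3 ≤ ((2 * K) ^ 20 * (Nat.factorial 20 : ℝ) + 3) * Real.exp X := by
    have h1 := Real.pow_div_factorial_le_exp X hX0 20
    have h2 : X ^ 20 = L / (2 * K) ^ 20 := by
      rw [hX, div_pow, ← pow_mul, t1]
    rw [h2, div_div, div_le_iff₀ (by positivity)] at h1
    have h3 := Real.one_le_exp hX0
    nlinarith
  rw [hXK, neg_add, Real.exp_add]
  have k3 : Real.exp (-X) ≤ Real.exp (A ^ 20) * Real.exp (-(t ^ 20)) := by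
    rw [← Real.exp_add, Real.exp_le_exp]
    linarith
  calc (L + 3) * (Real.exp (-X) * Real.exp (-X))
      ≤ (((2 * K) ^ 20 * (Nat.factorial 20 : ℝ) + 3) * Real.exp X) *
        (Real.exp (-X) * Real.exp (-X)) := mul_le_mul_of_nonneg_right k2 (by positivity)
    _ = ((2 * K) ^ 20 * (Nat.factorial 20 : ℝ) + 3) * Real.exp (-X) := by
      have : Real.exp X * Real.exp (-X) = 1 := by rw [← Real.exp_add, add_neg_cancel, Real.exp_zero]
      linear_combination ((2 * K) ^ 20 * (Nat.factorial 20 : ℝ) + 3) * Real.exp (-X) * this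
    _ ≤ ((2 * K) ^ 20 * (Nat.factorial 20 : ℝ) + 3) * (Real.exp (A ^ 20) * Real.exp (-(t ^ 20))) :=
      mul_le_mul_of_nonneg_left k3 (by positivity)
    _ = _ := by ring

private theorem Dif_log_mono {n n' : ℕ} (h : n ≤ n') : Real.log n ≤ Real.log n' := by
  rcases Nat.eq_zero_or_pos n with h0 | h0
  · subst h0
    simpa using Real.log_natCast_nonneg n'
  · exact Real.log_le_log (by exact_mod_cast h0) (by exact_mod_cast h)

/-- the case of large `y` -/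
private theorem Dif_large (a : ℕ → ℝ) (ha : ∀ n, |a n| ≤ Real.log (n + 1) + 1) (C : ℝ) (hC : 1 ≤ C)
    (h : ∀ (m : ℕ) (x : ℝ), 1 ≤ x → |∑ n ∈ Finset.Icc 1 ⌊x⌋₊, a n * Real.log n ^ m * (x - n)| ≤
      x ^ 2 * (C * (m + 1)) ^ (10 * (m + 1))) {y z : ℝ} (hy : 2 ≤ y) (hyz : y ≤ z)
    (hz : z ≤ 2 * y) (hL : (2 * C) ^ 20 ≤ Real.log y) :
    |∑ n ∈ Finset.Ioc ⌊y⌋₊ ⌊z⌋₊, a n| ≤
      108 * y * ((Real.log y + 3) * Real.exp (-(Real.log y ^ (1 / 20 : ℝ) / (4 * C)))) := by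
  obtain ⟨L, hLd⟩ : ∃ L : ℝ, L = Real.log y := ⟨_, rfl⟩
  rw [← hLd] at hL ⊢
  have hC0 : 0 < C := by linarith
  have hL1 : 1 ≤ L := by
    have : (1 : ℝ) ≤ (2 * C) ^ 20 := one_le_pow₀ (by linarith)
    linarith
  have hL0 : 0 < L := by linarith
  have hy0 : 0 < y := by linarith
  obtain ⟨l, hl⟩ : ∃ l : ℝ, l = L ^ (1 / 20 : ℝ) := ⟨_, rfl⟩
  rw [← hl]
  have hl0 : 0 ≤ l := hl ▸ Real.rpow_nonneg hL0.le _
  have hlL : l ^ 20 = L := by
    rw [hl, ← Real.rpow_natCast, ← Real.rpow_mul hL0.le]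
    norm_num
  have hlC : 2 * C ≤ l := by
    rw [← hlL] at hL
    exact (pow_le_pow_iff_left₀ (by positivity) hl0 (by norm_num)).1 hL
  have hl2 : 2 ≤ l := by linarith
  have hlL' : l ≤ L := by
    rw [← hlL]
    exact le_self_pow₀ (by linarith) (by norm_num)
  obtain ⟨m, hm⟩ : ∃ m : ℕ, m = ⌊l / (2 * C)⌋₊ := ⟨_, rfl⟩
  have hm1 : (m : ℝ) ≤ l / (2 * C) := hm ▸ Nat.floor_le (by positivity)
  have hm2 : l / (2 * C) < m + 1 := hm ▸ Nat.lt_floor_add_one _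
  have hm3 : C * (m + 1) ≤ l := by
    rw [le_div_iff₀ (by positivity)] at hm1
    nlinarith
  have hmL : (m : ℝ) ≤ L := by
    refine hm1.trans (le_trans ?_ hlL')
    exact div_le_self hl0 (by linarith)
  obtain ⟨P, hP⟩ : ∃ P : ℝ, P = (C * (m + 1)) ^ (10 * (m + 1)) := ⟨_, rfl⟩
  have hP0 : 0 ≤ P := by rw [hP]; positivity
  obtain ⟨t, ht⟩ : ∃ t : ℝ, t = 2 ^ m := ⟨_, rfl⟩
  have ht1 : 1 ≤ t := ht ▸ one_le_pow₀ (by norm_num)
  have ht0 : 0 < t := by linarith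
  have hLm : 0 < L ^ m := pow_pos hL0 m
  have htP : t * t * P ≤ L * L ^ m := by
    have g1 : P ≤ l ^ (10 * (m + 1)) := hP ▸ pow_le_pow_left₀ (by positivity) hm3 _
    have g2 : t * t ≤ l ^ (10 * m) := by
      have : (4 : ℝ) ≤ l ^ 10 := by
        calc (4 : ℝ) ≤ 2 ^ 10 := by norm_num
          _ ≤ l ^ 10 := pow_le_pow_left₀ (by norm_num) hl2 10
      rw [ht, ← mul_pow, pow_mul]
      exact pow_le_pow_left₀ (by norm_num) (by linarith) m
    calc t * t * P ≤ l ^ (10 * m) * l ^ (10 * (m + 1)) :=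
          mul_le_mul g2 g1 hP0 (by positivity)
      _ = l ^ 10 * (l ^ 20) ^ m := by ring
      _ ≤ l ^ 20 * (l ^ 20) ^ m := by
        refine mul_le_mul_of_nonneg_right ?_ (by positivity)
        exact pow_le_pow_right₀ (by linarith) (by norm_num)
      _ = L * L ^ m := by rw [hlL]
  have hexp : (L + 2) ^ m ≤ 9 * L ^ m := by
    have g1 : L + 2 ≤ L * Real.exp (2 / L) := by
      have := Real.add_one_le_exp (2 / L)
      have g2 : L * (2 / L + 1) = L + 2 := by field_simp; ring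
      rw [← g2]
      exact mul_le_mul_of_nonneg_left this hL0.le
    have g3 : Real.exp (2 / L) ^ m ≤ 9 := by
      rw [← Real.exp_nat_mul]
      have g4 : (m : ℝ) * (2 / L) ≤ 1 + 1 := by
        rw [mul_div_assoc', div_le_iff₀ hL0]
        linarith
      refine (Real.exp_le_exp.2 g4).trans ?_
      rw [Real.exp_add]
      have := Real.exp_one_lt_d9
      have := Real.exp_pos 1
      nlinarith
    calc (L + 2) ^ m ≤ (L * Real.exp (2 / L)) ^ m := pow_le_pow_left₀ (by linarith) g1 m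
      _ = L ^ m * Real.exp (2 / L) ^ m := mul_pow _ _ _
      _ ≤ L ^ m * 9 := mul_le_mul_of_nonneg_left g3 hLm.le
      _ = 9 * L ^ m := mul_comm _ _
  obtain ⟨hs, hhs⟩ : ∃ hs : ℝ, hs = y / t := ⟨_, rfl⟩
  have hs0 : 0 < hs := by rw [hhs]; positivity
  have hsy : hs ≤ y := hhs ▸ div_le_self hy0.le ht1
  have hlog3 : Real.log 3 ≤ 2 := by
    have := Real.log_le_sub_one_of_pos (by norm_num : (0 : ℝ) < 3)
    linarith
  have hlog4 : Real.log 4 ≤ 2 := by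
    have e : (4 : ℝ) = 2 * 2 := by norm_num
    rw [e, Real.log_mul (by norm_num) (by norm_num)]
    have := Real.log_two_lt_d9
    linarith
  have hb : ∀ n : ℕ, (n : ℝ) ≤ 3 * y → |a n * Real.log n ^ m| ≤ 9 * (L + 3) * L ^ m := by
    intro n hn
    have g0 : 0 ≤ Real.log n := Real.log_natCast_nonneg n
    have g1 : Real.log n ≤ L + 2 := by
      rcases Nat.eq_zero_or_pos n with h0 | h0
      · subst h0
        simp
        linarith
      · have := Real.log_le_log (by exact_mod_cast h0 : (0 : ℝ) < n) hn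
        rw [Real.log_mul (by norm_num) hy0.ne', ← hLd] at this
        linarith
    have g2 : Real.log (n + 1) + 1 ≤ L + 3 := by
      have : Real.log (n + 1) ≤ Real.log (4 * y) := Real.log_le_log (by positivity) (by linarith)
      rw [Real.log_mul (by norm_num) hy0.ne', ← hLd] at this
      linarith
    rw [abs_mul, abs_pow, abs_of_nonneg g0]
    calc |a n| * Real.log n ^ m ≤ (L + 3) * (9 * L ^ m) := by
          refine mul_le_mul ((ha n).trans g2) ?_ (by positivity) (by linarith)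
          exact (pow_le_pow_left₀ g0 g1 m).trans hexp
      _ = _ := by ring
  -- the sums with the logarithms
  have hS : ∀ k : ℕ, 1 ≤ k → (k : ℝ) ≤ 2 * y →
      |∑ n ∈ Finset.Icc 1 k, a n * Real.log n ^ m| ≤ 27 * y * (L + 3) * L ^ m / t := by
    intro k hk1 hk
    have hk1' : (1 : ℝ) ≤ k := by exact_mod_cast hk1
    have g1 := h m k hk1'
    rw [Nat.floor_natCast, ← hP] at g1
    have g2 := h m (k + hs) (by linarith)
    rw [← hP] at g2
    have g3 : (k : ℝ) ^ 2 * P ≤ 9 * y ^ 2 * P := by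
      refine mul_le_mul_of_nonneg_right ?_ hP0
      nlinarith
    have g4 : ((k : ℝ) + hs) ^ 2 * P ≤ 9 * y ^ 2 * P := by
      refine mul_le_mul_of_nonneg_right ?_ hP0
      have : (k : ℝ) + hs ≤ 3 * y := by linarith
      nlinarith
    have g5 := Dif_step (b := fun n => a n * Real.log n ^ m) (k := k) hs0
      (by positivity : 0 ≤ 9 * (L + 3) * L ^ m) (g1.trans g3) (g2.trans g4)
      (fun n hn => hb n (by linarith))
    refine le_of_mul_le_mul_left (g5.trans ?_) hs0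
    rw [hhs]
    have e1 : y / t * (27 * y * (L + 3) * L ^ m / t) = y ^ 2 * (27 * (L + 3) * L ^ m) / t ^ 2 := by
      field_simp
    have e2 : 2 * (9 * y ^ 2 * P) + y / t * (y / t * (9 * (L + 3) * L ^ m)) =
        y ^ 2 * (18 * (t * t * P) + 9 * (L + 3) * L ^ m) / t ^ 2 := by
      field_simp
      ring
    rw [e1, e2]
    refine div_le_div_of_nonneg_right (mul_le_mul_of_nonneg_left ?_ (by positivity))
      (by positivity)
    nlinarith
  -- Abel summation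
  have hp1 : 1 ≤ ⌊y⌋₊ := Nat.le_floor (by push_cast; linarith)
  have hpq : ⌊y⌋₊ ≤ ⌊z⌋₊ := Nat.floor_le_floor hyz
  have hqz : ((⌊z⌋₊ : ℕ) : ℝ) ≤ z := Nat.floor_le (by linarith)
  have hw : Antitone fun n : ℕ => ((max (Real.log n) L) ^ m)⁻¹ := by
    intro n n' hn
    have g0 : 0 < max (Real.log n) L := lt_of_lt_of_le hL0 (le_max_right _ _)
    refine inv_anti₀ (pow_pos g0 m) ?_
    exact pow_le_pow_left₀ g0.le (max_le_max (Dif_log_mono hn) le_rfl) m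
  have hw0 : ∀ n : ℕ, 0 ≤ ((max (Real.log n) L) ^ m)⁻¹ := fun n => by
    have g0 : 0 < max (Real.log n) L := lt_of_lt_of_le hL0 (le_max_right _ _)
    positivity
  have hab := Dif_abel (b := fun n => a n * Real.log n ^ m) hw hw0 hpq
    (B := 27 * y * (L + 3) * L ^ m / t + 27 * y * (L + 3) * L ^ m / t) (fun k hk hkq => by
      have hk' : (k : ℝ) ≤ 2 * y := by
        have : (k : ℝ) ≤ (⌊z⌋₊ : ℕ) := by exact_mod_cast hkq
        linarith
      have hp' : ((⌊y⌋₊ : ℕ) : ℝ) ≤ 2 * y := by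
        have : ((⌊y⌋₊ : ℕ) : ℝ) ≤ y := Nat.floor_le hy0.le
        linarith
      have g1 := hS k (by omega) hk'
      have g2 := hS ⌊y⌋₊ hp1 hp'
      rw [Dif_Icc] at g1 g2
      have e1 := Finset.sum_Ioc_consecutive (fun n => a n * Real.log n ^ m)
        (Nat.zero_le ⌊y⌋₊) hk
      have e2 : ∑ n ∈ Finset.Ioc ⌊y⌋₊ k, a n * Real.log n ^ m =
          ∑ n ∈ Finset.Ioc 0 k, a n * Real.log n ^ m -
          ∑ n ∈ Finset.Ioc 0 ⌊y⌋₊, a n * Real.log n ^ m := by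
        rw [← e1]
        ring
      rw [e2]
      exact (abs_sub _ _).trans (add_le_add g1 g2))
  have hsum : ∑ n ∈ Finset.Ioc ⌊y⌋₊ ⌊z⌋₊, ((max (Real.log n) L) ^ m)⁻¹ *
      (a n * Real.log n ^ m) = ∑ n ∈ Finset.Ioc ⌊y⌋₊ ⌊z⌋₊, a n := by
    refine Finset.sum_congr rfl fun n hn => ?_
    rw [Finset.mem_Ioc] at hn
    have g1 : y < n := (Nat.floor_lt hy0.le).1 hn.1
    have g2 : L ≤ Real.log n := hLd ▸ Real.log_le_log hy0 g1.le
    have g3 : Real.log n ^ m ≠ 0 := by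
      have : 0 < Real.log n := lt_of_lt_of_le hL0 g2
      positivity
    rw [max_eq_left g2]
    field_simp
  rw [hsum] at hab
  have hwp : ((max (Real.log (⌊y⌋₊ : ℕ)) L) ^ m)⁻¹ ≤ (L ^ m)⁻¹ :=
    inv_anti₀ hLm (pow_le_pow_left₀ hL0.le (le_max_right _ _) m)
  have hfin : 1 / t ≤ 2 * Real.exp (-(l / (4 * C))) := by
    have g1 : Real.exp (l / (4 * C)) ≤ 2 * t := by
      have g2 : l / (4 * C) ≤ ((m + 1 : ℕ) : ℝ) * (1 / 2) := by
        have e : l / (4 * C) = l / (2 * C) * (1 / 2) := by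
          field_simp
          ring
        rw [e]
        push_cast
        exact mul_le_mul_of_nonneg_right hm2.le (by norm_num)
      have g3 : Real.exp (1 / 2) ≤ 2 := by
        have g4 : Real.exp (1 / 2) ^ 2 ≤ 2 ^ 2 := by
          rw [← Real.exp_nat_mul]
          norm_num
          have := Real.exp_one_lt_d9
          linarith
        exact (pow_le_pow_iff_left₀ (Real.exp_pos _).le (by norm_num) (by norm_num)).1 g4
      calc Real.exp (l / (4 * C)) ≤ Real.exp (((m + 1 : ℕ) : ℝ) * (1 / 2)) :=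
            Real.exp_le_exp.2 g2
        _ = Real.exp (1 / 2) ^ (m + 1) := Real.exp_nat_mul _ _
        _ ≤ 2 ^ (m + 1) := pow_le_pow_left₀ (Real.exp_pos _).le g3 _
        _ = 2 * t := by rw [ht]; ring
    rw [Real.exp_neg, div_le_iff₀ ht0]
    have g5 : 0 < Real.exp (l / (4 * C)) := Real.exp_pos _
    rw [mul_assoc, mul_comm _ t, ← mul_assoc, ← div_eq_mul_inv, le_div_iff₀ g5]
    linarith
  calc |∑ n ∈ Finset.Ioc ⌊y⌋₊ ⌊z⌋₊, a n| ≤ _ := hab
    _ ≤ (L ^ m)⁻¹ * (27 * y * (L + 3) * L ^ m / t + 27 * y * (L + 3) * L ^ m / t) :=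
      mul_le_mul_of_nonneg_right hwp (by positivity)
    _ = 54 * y * (L + 3) * (1 / t) := by
      field_simp
      ring
    _ ≤ 54 * y * (L + 3) * (2 * Real.exp (-(l / (4 * C)))) :=
      mul_le_mul_of_nonneg_left hfin (by positivity)
    _ = _ := by ring

private theorem Dif_bd {a : ℕ → ℝ} (ha : ∀ n, |a n| ≤ Real.log (n + 1) + 1) {x : ℝ} {n : ℕ}
    (hn : (n : ℝ) ≤ x) : |a n| ≤ Real.log (x + 1) + 1 := by
  refine (ha n).trans (add_le_add ?_ le_rfl)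
  exact Real.log_le_log (by positivity) (by linarith)

theorem sum_window (a : ℕ → ℝ) (ha : ∀ n, |a n| ≤ Real.log (n + 1) + 1) (C : ℝ) (hC : 1 ≤ C)
    (h : ∀ (m : ℕ) (x : ℝ), 1 ≤ x → |∑ n ∈ Finset.Icc 1 ⌊x⌋₊, a n * Real.log n ^ m * (x - n)| ≤
      x ^ 2 * (C * (m + 1)) ^ (10 * (m + 1))) :
    ∃ C' : ℝ, 0 < C' ∧ ∀ y z : ℝ, 2 ≤ y → y ≤ z → z ≤ 2 * y →
      |∑ n ∈ Finset.Ioc ⌊y⌋₊ ⌊z⌋₊, a n| ≤ C' * y * Real.exp (-(Real.log y) ^ (1 / 23 : ℝ)) := by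
  obtain ⟨c1, hc1, hdec⟩ := Dif_dec (K := 4 * C) (by linarith)
  obtain ⟨Y, hY⟩ : ∃ Y : ℝ, Y = Real.exp ((2 * C) ^ 20) := ⟨_, rfl⟩
  have hY0 : 0 < Y := hY ▸ Real.exp_pos _
  have hlY : 0 < Real.log (2 * Y + 1) := Real.log_pos (by linarith)
  obtain ⟨c2, hc2⟩ : ∃ c2 : ℝ, c2 = 2 * (Real.log (2 * Y + 1) + 1) *
    Real.exp (Real.log Y ^ (1 / 23 : ℝ)) := ⟨_, rfl⟩
  have hc20 : 0 < c2 := by rw [hc2]; positivity
  refine ⟨108 * c1 + c2, by positivity, fun y z hy hyz hz => ?_⟩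
  have hy0 : 0 < y := by linarith
  have hly : 0 ≤ Real.log y := Real.log_nonneg (by linarith)
  have he : 0 < Real.exp (-(Real.log y) ^ (1 / 23 : ℝ)) := Real.exp_pos _
  by_cases hL : (2 * C) ^ 20 ≤ Real.log y
  · refine (Dif_large a ha C hC h hy hyz hz hL).trans ?_
    have g1 := hdec (Real.log y) hly
    have g2 := mul_le_mul_of_nonneg_left g1 (by positivity : 0 ≤ 108 * y)
    refine g2.trans ?_
    have g3 : 0 ≤ c2 * y * Real.exp (-(Real.log y) ^ (1 / 23 : ℝ)) := by positivity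
    linarith
  · rw [not_le] at hL
    have hyY : y ≤ Y := by
      rw [hY, ← Real.exp_log hy0]
      exact Real.exp_le_exp.2 hL.le
    have hpq : ⌊y⌋₊ ≤ ⌊z⌋₊ := Nat.floor_le_floor hyz
    have hqz : ((⌊z⌋₊ : ℕ) : ℝ) ≤ z := Nat.floor_le (by linarith)
    have g1 : |∑ n ∈ Finset.Ioc ⌊y⌋₊ ⌊z⌋₊, a n| ≤
        (Finset.Ioc ⌊y⌋₊ ⌊z⌋₊).card * (Real.log (2 * Y + 1) + 1) := by
      refine Dif_triv fun n hn => Dif_bd ha ?_
      rw [Finset.mem_Ioc] at hn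
      have : (n : ℝ) ≤ (⌊z⌋₊ : ℕ) := by exact_mod_cast hn.2
      linarith
    have g2 : ((Finset.Ioc ⌊y⌋₊ ⌊z⌋₊).card : ℝ) ≤ 2 * y := by
      rw [Nat.card_Ioc, Nat.cast_sub hpq]
      have : (0 : ℝ) ≤ (⌊y⌋₊ : ℕ) := Nat.cast_nonneg _
      linarith
    have g3 : Real.log y ^ (1 / 23 : ℝ) ≤ Real.log Y ^ (1 / 23 : ℝ) :=
      Real.rpow_le_rpow hly (Real.log_le_log hy0 hyY) (by norm_num)
    have g4 : 2 * (Real.log (2 * Y + 1) + 1) ≤ c2 * Real.exp (-(Real.log y) ^ (1 / 23 : ℝ)) := by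
      rw [hc2, mul_assoc _ (Real.exp _) (Real.exp _), ← Real.exp_add]
      refine le_mul_of_one_le_right (by positivity) (Real.one_le_exp ?_)
      linarith
    calc |∑ n ∈ Finset.Ioc ⌊y⌋₊ ⌊z⌋₊, a n| ≤ _ := g1
      _ ≤ 2 * y * (Real.log (2 * Y + 1) + 1) := mul_le_mul_of_nonneg_right g2 (by positivity)
      _ = y * (2 * (Real.log (2 * Y + 1) + 1)) := by ring
      _ ≤ y * (c2 * Real.exp (-(Real.log y) ^ (1 / 23 : ℝ))) :=
        mul_le_mul_of_nonneg_left g4 hy0.le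
      _ ≤ (108 * c1 + c2) * y * Real.exp (-(Real.log y) ^ (1 / 23 : ℝ)) := by
        have : 0 ≤ 108 * c1 * y * Real.exp (-(Real.log y) ^ (1 / 23 : ℝ)) := by positivity
        linarith

private theorem Dif_e1 {L : ℝ} (hL : 0 ≤ L) :
    Real.exp (-(L / 2) ^ (1 / 23 : ℝ)) ≤ Real.exp (2 ^ 23) * Real.exp (-L ^ (1 / 24 : ℝ)) := by
  rw [← Real.exp_add, Real.exp_le_exp]
  obtain ⟨t, ht⟩ : ∃ t : ℝ, t = L ^ (1 / 552 : ℝ) := ⟨_, rfl⟩
  have ht0 : 0 ≤ t := ht ▸ Real.rpow_nonneg hL _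
  have t2 : L ^ (1 / 24 : ℝ) = t ^ 23 := by
    rw [ht, ← Real.rpow_natCast, ← Real.rpow_mul hL]
    norm_num
  have t3 : L ^ (1 / 23 : ℝ) = t ^ 24 := by
    rw [ht, ← Real.rpow_natCast, ← Real.rpow_mul hL]
    norm_num
  have t4 : t ^ 24 / 2 ≤ (L / 2) ^ (1 / 23 : ℝ) := by
    rw [← t3, Real.div_rpow hL (by norm_num)]
    refine div_le_div_of_nonneg_left (Real.rpow_nonneg hL _) (by positivity) ?_
    calc (2 : ℝ) ^ (1 / 23 : ℝ) ≤ 2 ^ (1 : ℝ) :=
          Real.rpow_le_rpow_of_exponent_le (by norm_num) (by norm_num)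
      _ = 2 := Real.rpow_one 2
  rw [t2]
  rcases le_or_gt t 2 with h | h
  · have g1 := pow_le_pow_left₀ ht0 h 23
    have g2 : 0 ≤ t ^ 24 := by positivity
    linarith
  · have g1 : t ^ 23 * 2 ≤ t ^ 23 * t := mul_le_mul_of_nonneg_left h.le (by positivity)
    have g2 : t ^ 24 = t ^ 23 * t := by ring
    have g3 : (0 : ℝ) ≤ 2 ^ 23 := by positivity
    linarith

private theorem Dif_e2 {L : ℝ} (hL : 0 ≤ L) :
    (L + 2) * Real.exp (L ^ (1 / 24 : ℝ)) ≤ 8 * Real.exp 2 * Real.exp (L / 2) := by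
  have h1 : L ^ (1 / 24 : ℝ) ≤ 2 + L / 4 := by
    rcases le_or_gt L 1 with h | h
    · have := Real.rpow_le_one hL h (by norm_num : (0 : ℝ) ≤ 1 / 24)
      linarith
    · have g1 : L ^ (1 / 24 : ℝ) ≤ L ^ (1 / 2 : ℝ) :=
        Real.rpow_le_rpow_of_exponent_le h.le (by norm_num)
      rw [← Real.sqrt_eq_rpow] at g1
      have g2 := Real.sq_sqrt hL
      have g3 := Real.sqrt_nonneg L
      nlinarith [sq_nonneg (√L - 2)]
  have h2 : L + 2 ≤ 8 * Real.exp (L / 4) := by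
    have := Real.add_one_le_exp (L / 4)
    linarith
  calc (L + 2) * Real.exp (L ^ (1 / 24 : ℝ)) ≤ (8 * Real.exp (L / 4)) * Real.exp (2 + L / 4) :=
        mul_le_mul h2 (Real.exp_le_exp.2 h1) (Real.exp_pos _).le (by positivity)
    _ = 8 * Real.exp 2 * Real.exp (L / 2) := by
      rw [Real.exp_add, show L / 2 = L / 4 + L / 4 by ring, Real.exp_add]
      ring

theorem sum_all (a : ℕ → ℝ) (ha : ∀ n, |a n| ≤ Real.log (n + 1) + 1) (C : ℝ)
    (h : ∀ y z : ℝ, 2 ≤ y → y ≤ z → z ≤ 2 * y →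
      |∑ n ∈ Finset.Ioc ⌊y⌋₊ ⌊z⌋₊, a n| ≤ C * y * Real.exp (-(Real.log y) ^ (1 / 23 : ℝ))) :
    ∃ C' : ℝ, 0 < C' ∧ ∀ x : ℝ, 2 ≤ x →
      |∑ n ∈ Finset.Icc 1 ⌊x⌋₊, a n| ≤ C' * x * Real.exp (-(Real.log x) ^ (1 / 24 : ℝ)) := by
  obtain ⟨D, hD⟩ : ∃ D : ℝ, D = |C| := ⟨_, rfl⟩
  have hD0 : 0 ≤ D := hD ▸ abs_nonneg C
  have hCD : C ≤ D := hD ▸ le_abs_self C
  refine ⟨16 * Real.exp 2 + D * Real.exp (2 ^ 23), by positivity, fun x hx => ?_⟩
  have hx0 : 0 < x := by linarith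
  obtain ⟨s, hs⟩ : ∃ s : ℝ, s = √x := ⟨_, rfl⟩
  have hss : s * s = x := hs ▸ Real.mul_self_sqrt hx0.le
  have hs1 : 1 ≤ s := by
    rw [hs, Real.one_le_sqrt]
    linarith
  have hs0 : 0 < s := by linarith
  obtain ⟨f, hf⟩ : ∃ f : ℝ, f = Real.exp (-(Real.log s) ^ (1 / 23 : ℝ)) := ⟨_, rfl⟩
  have hf0 : 0 < f := hf ▸ Real.exp_pos _
  have key : ∀ k : ℕ, 2 ^ k ≤ s → |∑ n ∈ Finset.Icc 1 ⌊x⌋₊, a n| ≤
      |∑ n ∈ Finset.Icc 1 ⌊x / 2 ^ k⌋₊, a n| + D * x * f * (1 - 1 / 2 ^ k) := by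
    intro k
    induction k with
    | zero => intro _; simp
    | succ k ih =>
      intro hk
      have hk' : (2 : ℝ) ^ k ≤ s := by
        refine le_trans ?_ hk
        exact pow_le_pow_right₀ (by norm_num) (Nat.le_succ k)
      refine (ih hk').trans ?_
      obtain ⟨y, hy⟩ : ∃ y : ℝ, y = x / 2 ^ (k + 1) := ⟨_, rfl⟩
      have hp : (0 : ℝ) < 2 ^ (k + 1) := by positivity
      have hz : x / 2 ^ k = 2 * y := by
        rw [hy, pow_succ]
        field_simp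
      have hsy : s ≤ y := by
        rw [hy, le_div_iff₀ hp, ← hss]
        exact mul_le_mul_of_nonneg_left hk hs0.le
      have h2s : 2 ≤ s := by
        refine le_trans ?_ hk
        calc (2 : ℝ) = 2 ^ 1 := by norm_num
          _ ≤ 2 ^ (k + 1) := pow_le_pow_right₀ (by norm_num) (by omega)
      have h2y : 2 ≤ y := h2s.trans hsy
      have g1 := h y (2 * y) h2y (by linarith) le_rfl
      rw [← hy, hz]
      have g2 : Real.exp (-(Real.log y) ^ (1 / 23 : ℝ)) ≤ f := by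
        rw [hf, Real.exp_le_exp, neg_le_neg_iff]
        exact Real.rpow_le_rpow (Real.log_nonneg hs1) (Real.log_le_log hs0 hsy) (by norm_num)
      have g3 : C * y * Real.exp (-(Real.log y) ^ (1 / 23 : ℝ)) ≤ D * y * f := by
        have hy0 : 0 ≤ y := by linarith
        exact mul_le_mul (mul_le_mul_of_nonneg_right hCD hy0) g2 (Real.exp_pos _).le (by positivity)
      have hle : ⌊y⌋₊ ≤ ⌊2 * y⌋₊ := Nat.floor_le_floor (by linarith)
      have e1 := Finset.sum_Ioc_consecutive a (Nat.zero_le ⌊y⌋₊) hle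
      rw [Dif_Icc, Dif_Icc, ← e1]
      have g4 := abs_add_le (∑ n ∈ Finset.Ioc 0 ⌊y⌋₊, a n) (∑ n ∈ Finset.Ioc ⌊y⌋₊ ⌊2 * y⌋₊, a n)
      have e2 : D * x * f * (1 - 1 / 2 ^ (k + 1)) = D * x * f * (1 - 1 / 2 ^ k) + D * y * f := by
        rw [hy, pow_succ]
        field_simp
        ring
      rw [e2]
      linarith
  obtain ⟨k, hk1, hk2⟩ := exists_nat_pow_near hs1 (by norm_num : (1 : ℝ) < 2)
  have hk := key k hk1
  have hp : (0 : ℝ) < 2 ^ k := by positivity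
  have hx2 : x / 2 ^ k ≤ 2 * s := by
    rw [div_le_iff₀ hp, ← hss]
    rw [pow_succ] at hk2
    nlinarith
  obtain ⟨L, hL⟩ : ∃ L : ℝ, L = Real.log x := ⟨_, rfl⟩
  have hL0 : 0 ≤ L := hL ▸ Real.log_nonneg (by linarith)
  have hls : Real.log s = L / 2 := by
    rw [hs, Real.log_sqrt hx0.le, hL]
  have hsx : s = Real.exp (L / 2) := by rw [← hls, Real.exp_log hs0]
  have g1 : |∑ n ∈ Finset.Icc 1 ⌊x / 2 ^ k⌋₊, a n| ≤ 2 * s * (L + 2) := by
    have hfl : ((⌊x / 2 ^ k⌋₊ : ℕ) : ℝ) ≤ x / 2 ^ k := Nat.floor_le (by positivity)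
    have hxk : x / 2 ^ k ≤ x := div_le_self hx0.le (one_le_pow₀ (by norm_num))
    have e1 : |∑ n ∈ Finset.Icc 1 ⌊x / 2 ^ k⌋₊, a n| ≤
        (Finset.Icc 1 ⌊x / 2 ^ k⌋₊).card * (Real.log (x + 1) + 1) := by
      refine Dif_triv fun n hn => Dif_bd ha ?_
      rw [Finset.mem_Icc] at hn
      have : (n : ℝ) ≤ (⌊x / 2 ^ k⌋₊ : ℕ) := by exact_mod_cast hn.2
      linarith
    rw [Nat.card_Icc, Nat.add_sub_cancel] at e1
    have e2 : Real.log (x + 1) + 1 ≤ L + 2 := by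
      have : Real.log (x + 1) ≤ Real.log (2 * x) := Real.log_le_log (by linarith) (by linarith)
      rw [Real.log_mul (by norm_num) hx0.ne', ← hL] at this
      have := Real.log_two_lt_d9
      linarith
    refine e1.trans (mul_le_mul (by linarith) e2 ?_ (by positivity))
    have : 0 ≤ Real.log (x + 1) := Real.log_nonneg (by linarith)
    linarith
  have g2 : D * x * f * (1 - 1 / 2 ^ k) ≤ D * x * f := by
    have e1 : (0 : ℝ) < 1 / 2 ^ k := by positivity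
    have e2 : 0 ≤ D * x * f := by positivity
    nlinarith
  have g3 : f ≤ Real.exp (2 ^ 23) * Real.exp (-L ^ (1 / 24 : ℝ)) := by
    rw [hf, hls]
    exact Dif_e1 hL0
  have g4 : 2 * s * (L + 2) ≤ 16 * Real.exp 2 * x * Real.exp (-L ^ (1 / 24 : ℝ)) := by
    have e1 := Dif_e2 hL0
    rw [← hsx] at e1
    have e2 : Real.exp (L ^ (1 / 24 : ℝ)) * Real.exp (-L ^ (1 / 24 : ℝ)) = 1 := by
      rw [← Real.exp_add, add_neg_cancel, Real.exp_zero]
    have e3 := mul_le_mul_of_nonneg_right e1 (Real.exp_pos (-L ^ (1 / 24 : ℝ))).le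
    rw [mul_assoc (L + 2), e2, mul_one] at e3
    calc 2 * s * (L + 2) ≤ 2 * s * (8 * Real.exp 2 * s * Real.exp (-L ^ (1 / 24 : ℝ))) :=
          mul_le_mul_of_nonneg_left e3 (by positivity)
      _ = 16 * Real.exp 2 * (s * s) * Real.exp (-L ^ (1 / 24 : ℝ)) := by ring
      _ = _ := by rw [hss]
  have g5 : D * x * f ≤ D * Real.exp (2 ^ 23) * x * Real.exp (-L ^ (1 / 24 : ℝ)) := by
    calc D * x * f ≤ D * x * (Real.exp (2 ^ 23) * Real.exp (-L ^ (1 / 24 : ℝ))) :=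
          mul_le_mul_of_nonneg_left g3 (by positivity)
      _ = _ := by ring
  rw [← hL]
  calc |∑ n ∈ Finset.Icc 1 ⌊x⌋₊, a n| ≤ _ := hk
    _ ≤ 16 * Real.exp 2 * x * Real.exp (-L ^ (1 / 24 : ℝ)) +
        D * Real.exp (2 ^ 23) * x * Real.exp (-L ^ (1 / 24 : ℝ)) :=
      add_le_add (g1.trans g4) (g2.trans g5)
    _ = _ := by ring

end Pool.Agent.PNE
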