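import Pool.Agent.PNE.Mel
import Pool.Agent.PNE.Dif

/-!
# The prime number theorem in arithmetic progressions with an error term (fixed modulus)

From `riesz_bd`, `sum_window`, `sum_all` for `a = an M b`: `∑_{n ≤ x} an = ψ(x; M, b) - ⌊x⌋/φ(M)`.
Then from `ψ` to `θ`: the prime powers which are not primes contribute at most
`Chebyshev.psi x - Chebyshev.theta x ≤ 2 √x log x` (`Chebyshev.psi_sub_theta_le`; see the proof of
`Pool.Agent.Lib.PNT.theta_AP`).  `√x log x ≤ C x exp(-(log x)^{1/25})`.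
`theta_window`: difference of two values.
-/

namespace Pool.Agent.PNE

private theorem Fin_rpow_le (L : ℝ) (hL : 0 ≤ L) : L ^ (1 / 25 : ℝ) ≤ 1 + L / 25 := by
  have h := Real.geom_mean_le_arith_mean2_weighted (w₁ := 1 / 25) (w₂ := 24 / 25) (p₁ := L)
    (p₂ := 1) (by norm_num) (by norm_num) hL zero_le_one (by norm_num)
  rw [Real.one_rpow, mul_one] at h
  linarith

private theorem Fin_rpow_le' (L : ℝ) (hL : 0 ≤ L) : L ^ (1 / 25 : ℝ) ≤ 1 + L ^ (1 / 24 : ℝ) := by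
  rcases le_total L 1 with h | h
  · have h1 : L ^ (1 / 25 : ℝ) ≤ 1 := Real.rpow_le_one hL h (by norm_num)
    have h2 : 0 ≤ L ^ (1 / 24 : ℝ) := Real.rpow_nonneg hL _
    linarith
  · have h1 : L ^ (1 / 25 : ℝ) ≤ L ^ (1 / 24 : ℝ) :=
      Real.rpow_le_rpow_of_exponent_le h (by norm_num)
    linarith

private theorem Fin_small (x : ℝ) (hx : 2 ≤ x) :
    2 * Real.sqrt x * Real.log x + 1 ≤
      27 * x * Real.exp (-(Real.log x) ^ (1 / 25 : ℝ)) := by
  have hx0 : 0 < x := by linarith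
  obtain ⟨L, hL⟩ : ∃ L, L = Real.log x := ⟨_, rfl⟩
  have hL0 : 0 ≤ L := by rw [hL]; exact Real.log_nonneg (by linarith)
  have hxL : x = Real.exp L := by rw [hL, Real.exp_log hx0]
  rw [← hL]
  have hs : Real.sqrt x = Real.exp (L / 2) := by
    rw [hxL, Real.exp_half]
  rw [hs]
  have h1 : L ≤ 4 * Real.exp (L / 4) := by
    have := Real.add_one_le_exp (L / 4)
    linarith
  have h2 : L ^ (1 / 25 : ℝ) ≤ 1 + L / 4 := by
    have := Fin_rpow_le L hL0
    linarith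
  have h3 : Real.exp (-1 - L / 4) ≤ Real.exp (-(L ^ (1 / 25 : ℝ))) := by
    apply Real.exp_le_exp.mpr
    linarith
  have h4 : 2 * Real.exp (L / 2) * L ≤ 8 * Real.exp (L * 3 / 4) := by
    have h5 : Real.exp (L * 3 / 4) = Real.exp (L / 2) * Real.exp (L / 4) := by
      rw [← Real.exp_add]; congr 1; ring
    rw [h5]
    have := Real.exp_pos (L / 2)
    nlinarith
  have h6 : (1 : ℝ) ≤ Real.exp (L * 3 / 4) := Real.one_le_exp (by positivity)
  have h7 : Real.exp L * Real.exp (-1 - L / 4) = Real.exp (-1) * Real.exp (L * 3 / 4) := by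
    rw [← Real.exp_add, ← Real.exp_add]; congr 1; ring
  have h8 : (1 : ℝ) / 3 ≤ Real.exp (-1) := by
    rw [Real.exp_neg, one_div]
    apply inv_anti₀ (Real.exp_pos 1)
    have := Real.exp_one_lt_d9
    linarith
  have h9 : 0 < Real.exp (L * 3 / 4) := Real.exp_pos _
  calc 2 * Real.exp (L / 2) * L + 1 ≤ 9 * Real.exp (L * 3 / 4) := by linarith
    _ ≤ 27 * (Real.exp (-1) * Real.exp (L * 3 / 4)) := by nlinarith
    _ = 27 * Real.exp L * Real.exp (-1 - L / 4) := by rw [← h7]; ring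
    _ ≤ 27 * Real.exp L * Real.exp (-(L ^ (1 / 25 : ℝ))) := by
        apply mul_le_mul_of_nonneg_left h3
        positivity
    _ = _ := by rw [hxL]

/-- **PNT in arithmetic progressions with error term**, fixed modulus. -/
theorem theta_AP_err (M b : ℕ) (hM : 0 < M) (hb : Nat.Coprime b M) : ∃ C : ℝ, 0 < C ∧
    ∀ x : ℝ, 2 ≤ x →
      |∑ p ∈ (Finset.Icc 1 ⌊x⌋₊).filter (fun p => p.Prime ∧ p ≡ b [MOD M]), Real.log p -
        x / M.totient| ≤ C * x * Real.exp (-(Real.log x) ^ (1 / 25 : ℝ)) := by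
  have : NeZero M := ⟨hM.ne'⟩
  have hunit : IsUnit ((b : ℕ) : ZMod M) := (ZMod.isUnit_iff_coprime b M).mpr hb
  obtain ⟨C0, hC0, h0⟩ := riesz_bd M (b : ZMod M) hunit
  obtain ⟨C1, hC1, h1⟩ := sum_window (an M (b : ZMod M)) (abs_an_le _) C0 hC0 h0
  obtain ⟨C2, hC2, h2⟩ := sum_all (an M (b : ZMod M)) (abs_an_le _) C1 h1
  refine ⟨3 * C2 + 27, by positivity, fun x hx => ?_⟩
  have hx0 : 0 < x := by linarith
  have hx1 : 1 ≤ x := by linarith
  have h3 := h2 x hx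
  have hlog : 0 ≤ Real.log x := Real.log_nonneg hx1
  have hphi : (1 : ℝ) ≤ M.totient := by
    exact_mod_cast Nat.totient_pos.mpr hM
  -- the sum of `an`
  have hS : ∑ n ∈ Finset.Icc 1 ⌊x⌋₊, an M (b : ZMod M) n =
      ∑ n ∈ Finset.Icc 1 ⌊x⌋₊, ArithmeticFunction.vonMangoldt.residueClass (b : ZMod M) n -
        (⌊x⌋₊ : ℝ) * (M.totient : ℝ)⁻¹ := by
    have : ∀ n ∈ Finset.Icc 1 ⌊x⌋₊, an M (b : ZMod M) n =
        ArithmeticFunction.vonMangoldt.residueClass (b : ZMod M) n - (M.totient : ℝ)⁻¹ := by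
      intro n hn
      rw [Finset.mem_Icc] at hn
      unfold an
      rw [if_neg (by omega)]
    rw [Finset.sum_congr rfl this, Finset.sum_sub_distrib, Finset.sum_const, Nat.card_Icc,
      nsmul_eq_mul]
    simp
  rw [hS] at h3
  -- `ψ - θ`
  set T : ℝ := ∑ p ∈ (Finset.Icc 1 ⌊x⌋₊).filter (fun p => p.Prime ∧ p ≡ b [MOD M]),
    Real.log p with hT
  set P : ℝ := ∑ n ∈ Finset.Icc 1 ⌊x⌋₊,
    ArithmeticFunction.vonMangoldt.residueClass (b : ZMod M) n with hP
  have hres : ∀ n : ℕ, ArithmeticFunction.vonMangoldt.residueClass (b : ZMod M) n =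
      if n ≡ b [MOD M] then ArithmeticFunction.vonMangoldt n else 0 := by
    intro n
    unfold ArithmeticFunction.vonMangoldt.residueClass
    by_cases h : (n : ZMod M) = b
    · rw [if_pos ((ZMod.natCast_eq_natCast_iff _ _ _).mp h), Set.indicator_of_mem (by exact h)]
    · rw [if_neg (fun h' => h ((ZMod.natCast_eq_natCast_iff _ _ _).mpr h')),
        Set.indicator_of_notMem (by exact h)]
  have hPT0 : 0 ≤ P - T := by
    rw [hP, hT, Finset.sum_filter, ← Finset.sum_sub_distrib]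
    apply Finset.sum_nonneg
    intro n _
    rw [hres]
    by_cases h : n ≡ b [MOD M]
    · by_cases hp : n.Prime
      · rw [if_pos h, if_pos ⟨hp, h⟩, ArithmeticFunction.vonMangoldt_apply_prime hp, sub_self]
      · rw [if_pos h, if_neg (by tauto), sub_zero]
        exact ArithmeticFunction.vonMangoldt_nonneg
    · rw [if_neg h, if_neg (by tauto), sub_zero]
  have hPT1 : P - T ≤ 2 * Real.sqrt x * Real.log x := by
    refine le_trans ?_ (Chebyshev.psi_sub_theta_le hx1)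
    rw [Chebyshev.psi_sub_theta_eq_sum_not_prime]
    rw [hP, hT, Finset.sum_filter, Finset.sum_filter, ← Finset.sum_sub_distrib]
    have hset : Finset.Icc 1 ⌊x⌋₊ = Finset.Ioc 0 ⌊x⌋₊ := rfl
    rw [hset]
    apply Finset.sum_le_sum
    intro n _
    rw [hres]
    by_cases h : n ≡ b [MOD M]
    · by_cases hp : n.Prime
      · rw [if_pos h, if_pos ⟨hp, h⟩, if_neg (by tauto),
          ArithmeticFunction.vonMangoldt_apply_prime hp, sub_self]
      · rw [if_pos h, if_neg (by tauto), if_pos hp, sub_zero]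
    · rw [if_neg h, if_neg (by tauto), sub_zero]
      split_ifs
      · exact le_rfl
      · exact ArithmeticFunction.vonMangoldt_nonneg
  -- the floor
  have hfl1 : (⌊x⌋₊ : ℝ) ≤ x := Nat.floor_le hx0.le
  have hfl2 : x < ⌊x⌋₊ + 1 := Nat.lt_floor_add_one x
  have hinv : (M.totient : ℝ)⁻¹ ≤ 1 := inv_le_one_of_one_le₀ hphi
  have hinv0 : 0 < (M.totient : ℝ)⁻¹ := by positivity
  have hd : |(⌊x⌋₊ : ℝ) * (M.totient : ℝ)⁻¹ - x / M.totient| ≤ 1 := by
    rw [div_eq_mul_inv, ← sub_mul, abs_mul, abs_of_pos hinv0, abs_of_nonpos (by linarith)]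
    nlinarith
  -- exponentials
  have he1 : Real.exp (-(Real.log x) ^ (1 / 24 : ℝ)) ≤
      3 * Real.exp (-(Real.log x) ^ (1 / 25 : ℝ)) := by
    have h4 := Fin_rpow_le' (Real.log x) hlog
    calc Real.exp (-(Real.log x) ^ (1 / 24 : ℝ)) ≤
        Real.exp (1 + -(Real.log x) ^ (1 / 25 : ℝ)) := by
          apply Real.exp_le_exp.mpr
          linarith
      _ = Real.exp 1 * Real.exp (-(Real.log x) ^ (1 / 25 : ℝ)) := Real.exp_add _ _
      _ ≤ _ := by
          apply mul_le_mul_of_nonneg_right _ (Real.exp_pos _).le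
          have := Real.exp_one_lt_d9
          linarith
  have hsm := Fin_small x hx
  have hC2x : 0 ≤ C2 * x := by positivity
  have he2 : C2 * x * Real.exp (-(Real.log x) ^ (1 / 24 : ℝ)) ≤
      C2 * x * (3 * Real.exp (-(Real.log x) ^ (1 / 25 : ℝ))) :=
    mul_le_mul_of_nonneg_left he1 hC2x
  have htri : |T - x / M.totient| ≤ |P - (⌊x⌋₊ : ℝ) * (M.totient : ℝ)⁻¹| + (P - T) +
      |(⌊x⌋₊ : ℝ) * (M.totient : ℝ)⁻¹ - x / M.totient| := by
    have e : T - x / M.totient = (P - (⌊x⌋₊ : ℝ) * (M.totient : ℝ)⁻¹) + (-(P - T)) +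
      ((⌊x⌋₊ : ℝ) * (M.totient : ℝ)⁻¹ - x / M.totient) := by ring
    rw [e]
    refine (abs_add_three _ _ _).trans ?_
    rw [abs_neg, abs_of_nonneg hPT0]
  have e2 : (3 * C2 + 27) * x * Real.exp (-(Real.log x) ^ (1 / 25 : ℝ)) =
    C2 * x * (3 * Real.exp (-(Real.log x) ^ (1 / 25 : ℝ))) +
      27 * x * Real.exp (-(Real.log x) ^ (1 / 25 : ℝ)) := by ring
  rw [e2]
  linarith

theorem theta_window (M : ℕ) (hM : 0 < M) : ∃ C : ℝ, 0 < C ∧ ∀ b : ℕ, Nat.Coprime b M →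
    ∀ x z : ℝ, 2 ≤ x → x ≤ z → z ≤ 2 * x →
      |∑ p ∈ (Finset.Ioc ⌊x⌋₊ ⌊z⌋₊).filter (fun p => p.Prime ∧ p ≡ b [MOD M]), Real.log p -
        (z - x) / M.totient| ≤ C * x * Real.exp (-(Real.log x) ^ (1 / 25 : ℝ)) := by
  have h : ∀ r : ℕ, ∃ C : ℝ, 0 < C ∧ (Nat.Coprime r M → ∀ x : ℝ, 2 ≤ x →
      |∑ p ∈ (Finset.Icc 1 ⌊x⌋₊).filter (fun p => p.Prime ∧ p ≡ r [MOD M]), Real.log p -
        x / M.totient| ≤ C * x * Real.exp (-(Real.log x) ^ (1 / 25 : ℝ))) := by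
    intro r
    by_cases hr : Nat.Coprime r M
    · obtain ⟨C, hC, h⟩ := theta_AP_err M r hM hr
      exact ⟨C, hC, fun _ => h⟩
    · exact ⟨1, one_pos, fun h => absurd h hr⟩
  choose C hC hCb using h
  refine ⟨3 * ∑ r ∈ Finset.range M, C r, ?_, ?_⟩
  · apply mul_pos (by norm_num)
    apply Finset.sum_pos (fun r _ => hC r)
    exact Finset.nonempty_range_iff.mpr hM.ne'
  intro b hb x z hx hxz hz
  have hbr : Nat.Coprime (b % M) M := by
    rw [Nat.coprime_iff_gcd_eq_one] at hb ⊢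
    rw [← hb, Nat.gcd_comm b M, ← Nat.gcd_rec M b |>.symm]
  have hiff : ∀ p : ℕ, (p ≡ b [MOD M]) ↔ (p ≡ b % M [MOD M]) := by
    intro p
    unfold Nat.ModEq
    rw [Nat.mod_mod]
  have hle : C (b % M) ≤ ∑ r ∈ Finset.range M, C r :=
    Finset.single_le_sum (f := C) (fun r _ => (hC r).le)
      (Finset.mem_range.mpr (Nat.mod_lt _ hM))
  have h1 := hCb (b % M) hbr x hx
  have h2 := hCb (b % M) hbr z (by linarith)
  simp_rw [hiff]
  have hfl : ⌊x⌋₊ ≤ ⌊z⌋₊ := Nat.floor_mono hxz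
  have hsplit : ∑ p ∈ (Finset.Ioc ⌊x⌋₊ ⌊z⌋₊).filter (fun p => p.Prime ∧ p ≡ b % M [MOD M]),
      Real.log p =
      ∑ p ∈ (Finset.Icc 1 ⌊z⌋₊).filter (fun p => p.Prime ∧ p ≡ b % M [MOD M]), Real.log p -
      ∑ p ∈ (Finset.Icc 1 ⌊x⌋₊).filter (fun p => p.Prime ∧ p ≡ b % M [MOD M]), Real.log p := by
    rw [Finset.sum_filter, Finset.sum_filter, Finset.sum_filter]
    have hu : Finset.Icc 1 ⌊z⌋₊ = Finset.Icc 1 ⌊x⌋₊ ∪ Finset.Ioc ⌊x⌋₊ ⌊z⌋₊ := by
      ext n
      simp only [Finset.mem_Icc, Finset.mem_union, Finset.mem_Ioc]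
      omega
    rw [hu, Finset.sum_union]
    · ring
    · rw [Finset.disjoint_left]
      intro n hn
      simp only [Finset.mem_Icc, Finset.mem_Ioc] at hn ⊢
      omega
  rw [hsplit]
  have hx0 : 0 < x := by linarith
  have hlx : 0 ≤ Real.log x := Real.log_nonneg (by linarith)
  have hmono : Real.exp (-(Real.log z) ^ (1 / 25 : ℝ)) ≤
      Real.exp (-(Real.log x) ^ (1 / 25 : ℝ)) := by
    apply Real.exp_le_exp.mpr
    apply neg_le_neg
    exact Real.rpow_le_rpow hlx (Real.log_le_log hx0 hxz) (by norm_num)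
  set A : ℝ := ∑ p ∈ (Finset.Icc 1 ⌊z⌋₊).filter (fun p => p.Prime ∧ p ≡ b % M [MOD M]),
    Real.log p with hA
  set B : ℝ := ∑ p ∈ (Finset.Icc 1 ⌊x⌋₊).filter (fun p => p.Prime ∧ p ≡ b % M [MOD M]),
    Real.log p with hB
  have htri : |A - B - (z - x) / M.totient| ≤ |A - z / M.totient| + |B - x / M.totient| := by
    have e : A - B - (z - x) / M.totient = (A - z / M.totient) - (B - x / M.totient) := by ring
    rw [e]
    exact abs_sub _ _
  have hE : 0 < Real.exp (-(Real.log x) ^ (1 / 25 : ℝ)) := Real.exp_pos _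
  have hCr := hC (b % M)
  calc |A - B - (z - x) / M.totient| ≤ |A - z / M.totient| + |B - x / M.totient| := htri
    _ ≤ C (b % M) * z * Real.exp (-(Real.log z) ^ (1 / 25 : ℝ)) +
        C (b % M) * x * Real.exp (-(Real.log x) ^ (1 / 25 : ℝ)) := add_le_add h2 h1
    _ ≤ C (b % M) * (2 * x) * Real.exp (-(Real.log x) ^ (1 / 25 : ℝ)) +
        C (b % M) * x * Real.exp (-(Real.log x) ^ (1 / 25 : ℝ)) := by
        gcongr
    _ = 3 * C (b % M) * x * Real.exp (-(Real.log x) ^ (1 / 25 : ℝ)) := by ring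
    _ ≤ 3 * (∑ r ∈ Finset.range M, C r) * x * Real.exp (-(Real.log x) ^ (1 / 25 : ℝ)) := by
        gcongr

end Pool.Agent.PNE
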