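import Pool.Agent.PNE.LogD

/-!
# The Dirichlet series with the weights `(log n)^m`

For `Re s > 1`: `Dex N b s = LSeries (an N b) s` (`eqOn_LFunctionResidueClassAux` of Mathlib for the first part,
`Z1_eq` and `zeta_eq_tsum_one_div_nat_cpow`/`LSeries_one_eq_riemannZeta` for the second one; the two poles cancel).
`LSeries_iteratedDeriv`: the `m`-th derivative of `LSeries f` is `(-1)^m LSeries (logMul^[m] f)`, and
`logMul^[m] f n = (log n)^m f n`.
Cauchy's estimate on the circle with centre `s` (`1 < Re s ≤ 3/2`) and radius `r = c/(2 (2 tau s)^9)` for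
`Dex` (`Complex.norm_iteratedDeriv_le_of_forall_mem_sphere_norm_le`): for `|z - s| ≤ r ≤ 1/16` one has
`tau z ≤ 2 tau s`, so `Re z ≥ 1 - r ≥ 1 - c/tau z ^ 9`, `Re z ≤ 2` and `‖Dex z‖ ≤ C (2 tau s)^9`:
`‖D^(m)(s)‖ ≤ m! r^(-m) C (2 tau s)^9`.
-/

namespace Pool.Agent.PNE

open Complex

private theorem Cau_res_summable {N : ℕ} [NeZero N] (b : ZMod N) {s : ℂ} (hs : 1 < s.re) :
    LSeriesSummable (fun n => (ArithmeticFunction.vonMangoldt.residueClass b n : ℂ)) s := by
  apply LSeriesSummable_of_abscissaOfAbsConv_lt_re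
  exact (ArithmeticFunction.vonMangoldt.abscissaOfAbsConv_residueClass_le_one b).trans_lt
    (by exact_mod_cast hs)

private theorem Cau_congr {N : ℕ} [NeZero N] (b : ZMod N) {n : ℕ} (hn : n ≠ 0) :
    ((an N b n : ℝ) : ℂ) = ((fun n => (ArithmeticFunction.vonMangoldt.residueClass b n : ℂ)) -
      ((N.totient : ℂ)⁻¹ • (1 : ℕ → ℂ))) n := by
  unfold an
  rw [if_neg hn]
  simp

private theorem Cau_one_summable {N : ℕ} {s : ℂ} (hs : 1 < s.re) :
    LSeriesSummable ((N.totient : ℂ)⁻¹ • (1 : ℕ → ℂ)) s :=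
  LSeriesSummable.smul _ (LSeriesSummable_one_iff.2 hs)

private theorem Cau_an_summable {N : ℕ} [NeZero N] (b : ZMod N) {s : ℂ} (hs : 1 < s.re) :
    LSeriesSummable (fun n => (an N b n : ℂ)) s :=
  (LSeriesSummable_congr s (fun {_} hn => Cau_congr b hn)).2
    ((Cau_res_summable b hs).sub (Cau_one_summable hs))

private theorem Cau_abs {N : ℕ} [NeZero N] (b : ZMod N) {s : ℂ} (hs : 1 < s.re) :
    LSeries.abscissaOfAbsConv (fun n => (an N b n : ℂ)) < s.re := by
  have h1 : LSeries.abscissaOfAbsConv (fun n => (an N b n : ℂ)) ≤ 1 := by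
    apply LSeries.abscissaOfAbsConv_le_of_forall_lt_LSeriesSummable
    intro y hy
    apply Cau_an_summable b
    rw [Complex.ofReal_re]
    exact_mod_cast hy
  exact h1.trans_lt (by exact_mod_cast hs)

private theorem Cau_logMul (f : ℕ → ℂ) (m n : ℕ) :
    (LSeries.logMul^[m] f) n = (Complex.log n) ^ m * f n := by
  induction m generalizing f with
  | zero => simp
  | succ m ih =>
    rw [Function.iterate_succ_apply, ih, LSeries.logMul, pow_succ]
    ring

private theorem Cau_term {N : ℕ} [NeZero N] (b : ZMod N) (m : ℕ) (s : ℂ) (n : ℕ) :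
    LSeries.term (LSeries.logMul^[m] (fun n => (an N b n : ℂ))) s n =
      ((an N b n * Real.log n ^ m : ℝ) : ℂ) * (n : ℂ) ^ (-s) := by
  rcases eq_or_ne n 0 with rfl | hn
  · rw [LSeries.term_zero]
    unfold an
    simp
  · rw [LSeries.term_of_ne_zero hn, Cau_logMul, Complex.cpow_neg, div_eq_mul_inv,
      ← Complex.natCast_log]
    push_cast
    ring

theorem LSeries_an (N : ℕ) [NeZero N] (b : ZMod N) (hb : IsUnit b) {s : ℂ} (hs : 1 < s.re) :
    LSeries (fun n => (an N b n : ℂ)) s = Dex N b s := by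
  have hs1 : s ≠ 1 := by
    rintro rfl
    rw [Complex.one_re] at hs
    exact lt_irrefl _ hs
  rw [LSeries_congr (fun {_} hn => Cau_congr b hn), LSeries_sub (Cau_res_summable b hs)
    (Cau_one_summable hs), LSeries_smul, LSeries_one_eq_riemannZeta hs,
    Z1_eq (by linarith) hs1]
  have h1 := ArithmeticFunction.vonMangoldt.eqOn_LFunctionResidueClassAux hb
    (show s ∈ {s : ℂ | 1 < s.re} from hs)
  unfold Dex
  rw [h1]
  ring

/-- absolute convergence -/
theorem summable_an (N : ℕ) [NeZero N] (b : ZMod N) (m : ℕ) {σ : ℝ} (hσ : 1 < σ) :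
    Summable (fun n : ℕ => |an N b n| * Real.log n ^ m * (n : ℝ) ^ (-σ)) := by
  have h1 : (1 : ℝ) < (σ : ℂ).re := by rw [Complex.ofReal_re]; exact hσ
  have h2 : LSeriesSummable (LSeries.logMul^[m] (fun n => (an N b n : ℂ))) (σ : ℂ) := by
    apply LSeriesSummable_of_abscissaOfAbsConv_lt_re
    rw [LSeries.absicssaOfAbsConv_logPowMul]
    exact Cau_abs b h1
  have h3 : Summable fun n => ‖LSeries.term (LSeries.logMul^[m] (fun n => (an N b n : ℂ)))
      (σ : ℂ) n‖ := Summable.norm h2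
  refine h3.congr fun n => ?_
  rw [Cau_term, norm_mul, Complex.norm_real, Real.norm_eq_abs, abs_mul, abs_pow,
    abs_of_nonneg (Real.log_natCast_nonneg n)]
  rcases eq_or_ne n 0 with rfl | hn
  · have : an N b 0 = 0 := by
      unfold an
      rw [if_pos rfl]
    rw [this]
    simp
  · rw [Complex.norm_natCast_cpow_of_pos (Nat.pos_of_ne_zero hn), Complex.neg_re,
      Complex.ofReal_re]

theorem iter_bd (N : ℕ) [NeZero N] (b : ZMod N) (hb : IsUnit b) : ∃ C : ℝ, 0 < C ∧
    ∀ (m : ℕ) (s : ℂ), 1 < s.re → s.re ≤ 3 / 2 →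
    ‖∑' n : ℕ, ((an N b n * Real.log n ^ m : ℝ) : ℂ) * (n : ℂ) ^ (-s)‖ ≤
      m.factorial * C ^ (m + 1) * tau s ^ (9 * (m + 1)) := by
  obtain ⟨c, C₀, hc0, hc1, hC0, hD⟩ := Dex_bd N b
  obtain ⟨C₁, hC₁⟩ : ∃ C₁, C₁ = max C₀ 1 := ⟨_, rfl⟩
  have hC₁1 : 1 ≤ C₁ := by rw [hC₁]; exact le_max_right _ _
  have hC₁0 : C₀ ≤ C₁ := by rw [hC₁]; exact le_max_left _ _
  have hc2 : 1 ≤ 2 / c := by
    rw [le_div_iff₀ hc0]
    linarith
  refine ⟨C₁ * (2 / c) * 2 ^ 9, by positivity, ?_⟩
  intro m s hs hs2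
  have ht := tau_pos s
  obtain ⟨T, hT⟩ : ∃ T, T = (2 * tau s) ^ 9 := ⟨_, rfl⟩
  have hT1 : 1 ≤ T := by
    rw [hT]
    exact one_le_pow₀ (by linarith)
  obtain ⟨R, hR⟩ : ∃ R, R = c / (2 * T) := ⟨_, rfl⟩
  have hR0 : 0 < R := by
    rw [hR]
    positivity
  have hR1 : R ≤ 1 / 16 := by
    rw [hR, div_le_iff₀ (by positivity)]
    nlinarith
  have hcT : R ≤ c / T := by
    rw [hR]
    exact div_le_div_of_nonneg_left hc0.le (by linarith) (by linarith)
  -- points of the closed ball
  have key : ∀ z ∈ Metric.closedBall s R, AnalyticAt ℂ (Dex N b) z ∧ ‖Dex N b z‖ ≤ C₁ * T := by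
    intro z hz
    rw [mem_closedBall_iff_norm] at hz
    have h1 : |z.re - s.re| ≤ R := by
      rw [← Complex.sub_re]
      exact (Complex.abs_re_le_norm _).trans hz
    have h2 : |z.im - s.im| ≤ R := by
      rw [← Complex.sub_im]
      exact (Complex.abs_im_le_norm _).trans hz
    have h3 : |z.im| ≤ |s.im| + 1 / 16 := by
      have e : z.im = s.im + (z.im - s.im) := by ring
      calc |z.im| = |s.im + (z.im - s.im)| := by rw [← e]
        _ ≤ |s.im| + |z.im - s.im| := abs_add_le _ _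
        _ ≤ |s.im| + 1 / 16 := by linarith
    have h4 : tau z ≤ 2 * tau s := by
      unfold tau
      have h5 := abs_nonneg s.im
      have h6 := abs_nonneg z.im
      have h7 : 2 * Real.log (|s.im| + 3) = Real.log ((|s.im| + 3) ^ 2) := by
        rw [Real.log_pow]
        push_cast
        ring
      rw [h7]
      refine Real.log_le_log (by linarith) ?_
      nlinarith
    have htz := tau_pos z
    have h8 : tau z ^ 9 ≤ T := by
      rw [hT]
      exact pow_le_pow_left₀ (by linarith) h4 9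
    have h9 : c / T ≤ c / tau z ^ 9 :=
      div_le_div_of_nonneg_left hc0.le (by positivity) h8
    obtain ⟨h10, h11⟩ := abs_le.1 h1
    obtain ⟨h12, h13⟩ := hD z (by linarith) (by linarith)
    refine ⟨h12, h13.trans ?_⟩
    exact mul_le_mul hC₁0 h8 (by positivity) (by linarith)
  have h1 : ‖iteratedDeriv m (Dex N b) s‖ ≤ m.factorial * (C₁ * T) / R ^ m := by
    refine Complex.norm_iteratedDeriv_le_of_forall_mem_sphere_norm_le m hR0 ?_ ?_
    · refine DifferentiableOn.diffContOnCl ?_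
      intro z hz
      exact (key z (Metric.closure_ball_subset_closedBall hz)).1.differentiableAt.differentiableWithinAt
    · intro z hz
      exact (key z (Metric.sphere_subset_closedBall hz)).2
  have h2 : iteratedDeriv m (Dex N b) s =
      iteratedDeriv m (LSeries (fun n => (an N b n : ℂ))) s := by
    refine Filter.EventuallyEq.iteratedDeriv_eq m ?_
    have h3 : {z : ℂ | 1 < z.re} ∈ nhds s :=
      (isOpen_lt continuous_const Complex.continuous_re).mem_nhds hs
    filter_upwards [h3] with z hz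
    exact (LSeries_an N b hb hz).symm
  have h3 : ‖∑' n : ℕ, ((an N b n * Real.log n ^ m : ℝ) : ℂ) * (n : ℂ) ^ (-s)‖ =
      ‖iteratedDeriv m (Dex N b) s‖ := by
    rw [h2, LSeries_iteratedDeriv m (Cau_abs b hs), norm_mul, norm_pow, norm_neg, norm_one,
      one_pow, one_mul]
    unfold LSeries
    congr 1
    exact tsum_congr fun n => (Cau_term b m s n).symm
  rw [h3]
  refine h1.trans ?_
  have h4 : (m.factorial : ℝ) * (C₁ * T) / R ^ m =
      m.factorial * (C₁ * (2 / c) ^ m * T ^ (m + 1)) := by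
    have hT0 : 0 < T := by linarith
    have e : (c / (2 * T)) ^ m * ((2 / c) ^ m * T ^ m) = 1 := by
      rw [← mul_pow, ← mul_pow]
      have : c / (2 * T) * (2 / c * T) = 1 := by field_simp
      rw [this, one_pow]
    rw [hR, div_eq_iff (by positivity), pow_succ]
    linear_combination (-(m.factorial * C₁ * T)) * e
  have h5 : (C₁ * (2 / c) * 2 ^ 9) ^ (m + 1) * tau s ^ (9 * (m + 1)) =
      C₁ ^ (m + 1) * (2 / c) ^ (m + 1) * T ^ (m + 1) := by
    rw [hT, pow_mul, ← mul_pow, ← mul_pow, ← mul_pow]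
    congr 1
    ring
  rw [h4, mul_assoc (m.factorial : ℝ), h5]
  refine mul_le_mul_of_nonneg_left ?_ (by positivity)
  refine mul_le_mul_of_nonneg_right ?_ (by positivity)
  refine mul_le_mul ?_ ?_ (by positivity) (by positivity)
  · exact le_self_pow₀ hC₁1 (by omega)
  · exact pow_le_pow_right₀ hc2 (by omega)

end Pool.Agent.PNE
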