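import Pool.Agent.PNE.Int

/-!
# Integral representation of the Dirichlet L-functions in `Re s > 0`

`L_eq_of_one_lt`: `LSeries_eq_mul_integral` with `r = 1` (`∑_{n ≤ t} χ n = Ech χ t + δ_χ t`, and
`s δ ∫_1^∞ t^{-s} dt = δ s/(s-1)`).
`L_eq` for `χ ≠ 1`: `dlt χ = 0` (the sum of `χ` vanishes), `LFunction χ` is entire
(`DirichletCharacter.differentiable_LFunction`), both sides are analytic on the convex set `Re s > 0` and agree
for `Re s > 1` (`AnalyticOnNhd.eqOn_of_preconnected_of_eventuallyEq`, `DirichletCharacter.LFunction_eq_LSeries`).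
`L_eq` for `χ = 1`: the same for `(s - 1) L(s, 1)`, which is the entire function `LFunctionTrivChar₁ N`
(`DirichletCharacter.differentiable_LFunctionTrivChar₁`), and `δ s + (s - 1) s Tail`.
`Z1_eq`: modulus 1, `DirichletCharacter.LFunction_modOne_eq`, `dlt 1 = 1`, `s/(s-1) = 1/(s-1) + 1`.
`Z1_analyticAt`: `Tail_differentiableAt` on the open half plane (`DifferentiableOn.analyticAt`).
-/

namespace Pool.Agent.PNE

open Complex

variable {N : ℕ} [NeZero N]

theorem L_eq_of_one_lt (χ : DirichletCharacter ℂ N) {s : ℂ} (hs : 1 < s.re) :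
    LSeries (fun n => χ n) s = dlt χ * s / (s - 1) + s * Tail χ 1 s := by
  have hs0 : 0 < s.re := by linarith
  have hne : s - 1 ≠ 0 := by
    intro h
    have h1 := congrArg Complex.re h
    simp at h1
    linarith
  have hO : (fun n : ℕ => ∑ k ∈ Finset.Icc 1 n, χ (k : ZMod N)) =O[Filter.atTop]
      fun n : ℕ => (n : ℝ) ^ (1 : ℝ) := by
    refine Asymptotics.IsBigO.of_bound 1 (Filter.Eventually.of_forall fun n => ?_)
    rw [Real.rpow_one, one_mul, Real.norm_of_nonneg (Nat.cast_nonneg n)]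
    refine (norm_sum_le _ _).trans ?_
    have h3 : ∑ k ∈ Finset.Icc 1 n, ‖χ (k : ZMod N)‖ ≤ ∑ k ∈ Finset.Icc 1 n, (1 : ℝ) :=
      Finset.sum_le_sum fun k _ => DirichletCharacter.norm_le_one χ (k : ZMod N)
    refine h3.trans ?_
    simp
  rw [LSeries_eq_mul_integral (fun n => χ n) (r := 1) zero_le_one hs
    (DirichletCharacter.LSeriesSummable_of_one_lt_re χ hs) hO]
  have h1 : Set.EqOn (fun t : ℝ => (∑ k ∈ Finset.Icc 1 ⌊t⌋₊, χ (k : ZMod N)) * (t : ℂ) ^ (-(s + 1)))
      (fun t : ℝ => Ech χ t * (t : ℂ) ^ (-s - 1) + dlt χ * (t : ℂ) ^ (-s)) (Set.Ioi 1) := by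
    intro t ht
    have ht' : (1 : ℝ) < t := ht
    have ht0 : (t : ℂ) ≠ 0 := by
      rw [Ne, Complex.ofReal_eq_zero]
      linarith
    have e1 : (t : ℂ) ^ (-s) = t * (t : ℂ) ^ (-s - 1) := by
      rw [Complex.cpow_sub _ _ ht0, Complex.cpow_one]
      field_simp
    have e2 : -(s + 1) = -s - 1 := by ring
    simp only [Ech, e1, e2]
    ring
  rw [MeasureTheory.setIntegral_congr_fun measurableSet_Ioi h1]
  have hre : (-s).re < -1 := by
    rw [Complex.neg_re]
    linarith
  rw [MeasureTheory.integral_add (tail_integrable χ zero_lt_one hs0)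
    ((integrableOn_Ioi_cpow_of_lt hre zero_lt_one).const_mul _),
    MeasureTheory.integral_const_mul, integral_Ioi_cpow_of_lt hre zero_lt_one]
  rw [Complex.ofReal_one, Complex.one_cpow]
  have hne2 : -s + 1 ≠ 0 := by
    intro h
    apply hne
    linear_combination -h
  unfold Tail
  rw [mul_add]
  have : s * (dlt χ * (-1 / (-s + 1))) = dlt χ * s / (s - 1) := by
    field_simp
    ring
  rw [this]
  ring

private theorem Cont_isOpen : IsOpen {z : ℂ | 0 < z.re} :=
  isOpen_lt continuous_const Complex.continuous_re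

private theorem Cont_preconn : IsPreconnected {z : ℂ | 0 < z.re} :=
  (convex_halfSpace_re_gt 0).isPreconnected

private theorem Cont_event : ∀ᶠ z in nhds (2 : ℂ), 1 < z.re := by
  apply (isOpen_lt continuous_const Complex.continuous_re).mem_nhds
  show (1 : ℝ) < (2 : ℂ).re
  norm_num

theorem L_eq (χ : DirichletCharacter ℂ N) {s : ℂ} (hs : 0 < s.re) (h1 : s ≠ 1) :
    χ.LFunction s = dlt χ * s / (s - 1) + s * Tail χ 1 s := by
  have hne : s - 1 ≠ 0 := sub_ne_zero.mpr h1
  have hT : DifferentiableOn ℂ (Tail χ 1) {z : ℂ | 0 < z.re} := fun z hz =>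
    (Tail_differentiableAt χ hz).differentiableWithinAt
  by_cases hχ : χ = 1
  · have hF : AnalyticOnNhd ℂ (DirichletCharacter.LFunctionTrivChar₁ N) {z : ℂ | 0 < z.re} :=
      (DirichletCharacter.differentiable_LFunctionTrivChar₁ N).differentiableOn.analyticOnNhd
        Cont_isOpen
    have hG : AnalyticOnNhd ℂ (fun z => dlt χ * z + (z - 1) * (z * Tail χ 1 z))
        {z : ℂ | 0 < z.re} := by
      apply DifferentiableOn.analyticOnNhd _ Cont_isOpen
      fun_prop
    have hev : DirichletCharacter.LFunctionTrivChar₁ N =ᶠ[nhds (2 : ℂ)]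
        (fun z => dlt χ * z + (z - 1) * (z * Tail χ 1 z)) := by
      filter_upwards [Cont_event] with z hz
      have hz1 : z ≠ 1 := by
        rintro rfl
        simp at hz
      have hz2 : z - 1 ≠ 0 := sub_ne_zero.mpr hz1
      rw [DirichletCharacter.LFunctionTrivChar₁, Function.update_of_ne hz1,
        DirichletCharacter.LFunctionTrivChar, ← hχ,
        DirichletCharacter.LFunction_eq_LSeries χ hz, L_eq_of_one_lt χ hz]
      field_simp
    have h := hF.eqOn_of_preconnected_of_eventuallyEq hG Cont_preconn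
      (show (2 : ℂ) ∈ {z : ℂ | 0 < z.re} by simp) hev hs
    rw [DirichletCharacter.LFunctionTrivChar₁, Function.update_of_ne h1,
      DirichletCharacter.LFunctionTrivChar, ← hχ] at h
    apply mul_left_cancel₀ hne
    rw [h]
    field_simp
  · have hd : dlt χ = 0 := by
      unfold dlt
      rw [MulChar.sum_eq_zero_of_ne_one hχ, zero_div]
    have hF : AnalyticOnNhd ℂ χ.LFunction {z : ℂ | 0 < z.re} :=
      (DirichletCharacter.differentiable_LFunction hχ).differentiableOn.analyticOnNhd Cont_isOpen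
    have hG : AnalyticOnNhd ℂ (fun z => z * Tail χ 1 z) {z : ℂ | 0 < z.re} := by
      apply DifferentiableOn.analyticOnNhd _ Cont_isOpen
      fun_prop
    have hev : χ.LFunction =ᶠ[nhds (2 : ℂ)] (fun z => z * Tail χ 1 z) := by
      filter_upwards [Cont_event] with z hz
      rw [DirichletCharacter.LFunction_eq_LSeries χ hz, L_eq_of_one_lt χ hz, hd]
      simp
    have h := hF.eqOn_of_preconnected_of_eventuallyEq hG Cont_preconn
      (show (2 : ℂ) ∈ {z : ℂ | 0 < z.re} by simp) hev hs
    rw [h, hd]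
    simp

/-- `Z1 = ζ - 1/(s-1)`, and `Z1` is analytic at every point of `Re s > 0`. -/
theorem Z1_eq {s : ℂ} (hs : 0 < s.re) (h1 : s ≠ 1) : riemannZeta s = 1 / (s - 1) + Z1 s := by
  have hne : s - 1 ≠ 0 := sub_ne_zero.mpr h1
  have h := L_eq (1 : DirichletCharacter ℂ 1) hs h1
  rw [DirichletCharacter.LFunction_modOne_eq] at h
  have hd : dlt (1 : DirichletCharacter ℂ 1) = 1 := by
    unfold dlt
    have h4 : ∀ a : ZMod 1, (1 : DirichletCharacter ℂ 1) a = 1 := fun a => by
      rw [Subsingleton.elim a 1, map_one]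
    rw [Fintype.sum_unique, h4]
    simp
  rw [h, hd, Z1]
  field_simp
  ring

theorem Z1_analyticAt {s : ℂ} (hs : 0 < s.re) : AnalyticAt ℂ Z1 s := by
  have hT : DifferentiableOn ℂ (Tail (1 : DirichletCharacter ℂ 1) 1) {z : ℂ | 0 < z.re} :=
    fun z hz => (Tail_differentiableAt _ hz).differentiableWithinAt
  have hG : DifferentiableOn ℂ Z1 {z : ℂ | 0 < z.re} := by
    unfold Z1
    fun_prop
  exact hG.analyticAt (Cont_isOpen.mem_nhds hs)

end Pool.Agent.PNE
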