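import Mathlib

/-!
# The prime number theorem in arithmetic progressions with an error term: definitions

Fixed modulus `N`.  `Ech χ t = ∑_{1 ≤ n ≤ t} χ(n) - δ_χ t`, where `δ_χ` is the mean value of `χ`;
`Tail χ T s = ∫_T^∞ Ech χ t * t ^ (-s-1) dt`.  Final result: `Pool.Agent.PNE.theta_AP_err` in `Fin.lean`.
-/

namespace Pool.Agent.PNE

open Complex

/-- `log (|t| + 3)` for `s = σ + i t` -/
noncomputable def tau (s : ℂ) : ℝ := Real.log (|s.im| + 3)

/-- the mean value of a character -/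
noncomputable def dlt {N : ℕ} [NeZero N] (χ : DirichletCharacter ℂ N) : ℂ :=
  (∑ a : ZMod N, χ a) / N

/-- the remainder of the summatory function of a character -/
noncomputable def Ech {N : ℕ} [NeZero N] (χ : DirichletCharacter ℂ N) (t : ℝ) : ℂ :=
  ∑ n ∈ Finset.Icc 1 ⌊t⌋₊, χ n - dlt χ * t

/-- `∫_T^∞ E_χ(t) t^{-s-1} dt` -/
noncomputable def Tail {N : ℕ} [NeZero N] (χ : DirichletCharacter ℂ N) (T : ℝ) (s : ℂ) : ℂ :=
  ∫ t in Set.Ioi T, Ech χ t * (t : ℂ) ^ (-s - 1)

theorem tau_pos (s : ℂ) : 1 < tau s := by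
  unfold tau
  rw [Real.lt_log_iff_exp_lt (by positivity)]
  have h := Real.exp_one_lt_d9
  have h2 := abs_nonneg s.im
  linarith

/-- `ζ(s) - 1/(s-1)` -/
noncomputable def Z1 (s : ℂ) : ℂ := 1 + s * Tail (1 : DirichletCharacter ℂ 1) 1 s

/-- The analytic continuation of `∑ (Λ(n) 1_{n ≡ b} - 1/φ(N)) n^{-s}`. -/
noncomputable def Dex (N : ℕ) [NeZero N] (b : ZMod N) (s : ℂ) : ℂ :=
  ArithmeticFunction.vonMangoldt.LFunctionResidueClassAux b s - (N.totient : ℂ)⁻¹ * Z1 s

/-- The coefficients `Λ(n) 1_{n ≡ b} - 1/φ(N)`, `n ≥ 1`. -/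
noncomputable def an (N : ℕ) (b : ZMod N) (n : ℕ) : ℝ :=
  if n = 0 then 0 else ArithmeticFunction.vonMangoldt.residueClass b n - (N.totient : ℝ)⁻¹

theorem abs_an_le {N : ℕ} [NeZero N] (b : ZMod N) (n : ℕ) : |an N b n| ≤ Real.log (n + 1) + 1 := by
  unfold an
  split_ifs with h
  · subst h
    simp
  · have h1 : (N.totient : ℝ)⁻¹ ≤ 1 := by
      apply inv_le_one_of_one_le₀
      exact_mod_cast Nat.totient_pos.mpr (NeZero.pos N)
    have h0 : 0 ≤ (N.totient : ℝ)⁻¹ := by positivity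
    have h2 := ArithmeticFunction.vonMangoldt.residueClass_nonneg b n
    have h3 : ArithmeticFunction.vonMangoldt.residueClass b n ≤ Real.log n :=
      (ArithmeticFunction.vonMangoldt.residueClass_le b n).trans
        (ArithmeticFunction.vonMangoldt_le_log)
    have hn : (1 : ℝ) ≤ n := by exact_mod_cast Nat.one_le_iff_ne_zero.mpr h
    have h4 : Real.log n ≤ Real.log (n + 1) := Real.log_le_log (by linarith) (by linarith)
    have h5 : 0 ≤ Real.log n := Real.log_nonneg hn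
    rw [abs_le]
    constructor <;> linarith

end Pool.Agent.PNE
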