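import Pool.Agent.PNE.Up

/-!
# Derivative bound, and the pole

`deriv_le`: Cauchy estimate (`Complex.norm_deriv_le_of_forall_mem_sphere_norm_le`) on the circle of radius
`1/(4 tau s)` around `s`: its points `z` satisfy `|Im z| ≥ 2`, `Re z ≥ 1 - 1/(2 tau s) ≥ 1 - 1/tau z`
(`tau z ≤ 2 tau s`), `Re z ≤ 3`, and `LFunction χ` is differentiable there (`z ≠ 1`,
`DirichletCharacter.differentiableAt_LFunction`).
`pole_le`: `|L(1 + x, χ₀)| ≤ C/x` for `0 < x ≤ 1` from `L_eq` (`|s Tail χ 1 s| ≤ 2 * 2 N`).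
-/

namespace Pool.Agent.PNE

open Complex

theorem deriv_le (N : ℕ) [NeZero N] : ∃ C : ℝ, 0 < C ∧ ∀ (χ : DirichletCharacter ℂ N) (s : ℂ),
    3 ≤ |s.im| → 1 - 1 / (4 * tau s) ≤ s.re → s.re ≤ 2 →
    ‖deriv χ.LFunction s‖ ≤ C * tau s ^ 2 := by
  obtain ⟨C, hC, hL⟩ := L_le N
  refine ⟨8 * C, by positivity, fun χ s h3 hre h2 => ?_⟩
  have hτ : 1 < tau s := tau_pos s
  have hτ0 : 0 < tau s := by linarith
  have hR : 0 < 1 / (4 * tau s) := by positivity
  have hR4 : 1 / (4 * tau s) ≤ 1 / 4 := by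
    apply one_div_le_one_div_of_le (by norm_num)
    linarith
  have hball : ∀ z ∈ Metric.closedBall s (1 / (4 * tau s)), |z.im - s.im| ≤ 1 / (4 * tau s) ∧
      |z.re - s.re| ≤ 1 / (4 * tau s) := by
    intro z hz
    rw [Metric.mem_closedBall, dist_eq_norm] at hz
    refine ⟨?_, ?_⟩
    · have := Complex.abs_im_le_norm (z - s)
      rw [Complex.sub_im] at this
      exact this.trans hz
    · have := Complex.abs_re_le_norm (z - s)
      rw [Complex.sub_re] at this
      exact this.trans hz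
  have him : ∀ z ∈ Metric.closedBall s (1 / (4 * tau s)), 2 ≤ |z.im| := by
    intro z hz
    have h1 := (hball z hz).1
    have h4 : |s.im| - |z.im| ≤ |s.im - z.im| := abs_sub_abs_le_abs_sub _ _
    rw [abs_sub_comm] at h4
    linarith
  have hne : ∀ z ∈ Metric.closedBall s (1 / (4 * tau s)), z ≠ 1 := by
    intro z hz h
    have h1 := him z hz
    rw [h] at h1
    simp at h1
    norm_num at h1
  have hd : DiffContOnCl ℂ χ.LFunction (Metric.ball s (1 / (4 * tau s))) := by
    apply DifferentiableOn.diffContOnCl_ball (U := {z : ℂ | z ≠ 1})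
    · intro z hz
      exact (χ.differentiableAt_LFunction z (Or.inl hz)).differentiableWithinAt
    · intro z hz
      exact hne z hz
  have key : ∀ z ∈ Metric.sphere s (1 / (4 * tau s)), ‖χ.LFunction z‖ ≤ 2 * C * tau s := by
    intro z hz
    have hz' := Metric.sphere_subset_closedBall hz
    have h1 := (hball z hz').1
    have h1' := (hball z hz').2
    have h4 : |z.im| ≤ |s.im| + 1 / 4 := by
      have : |z.im| - |s.im| ≤ |z.im - s.im| := abs_sub_abs_le_abs_sub _ _
      linarith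
    have hτz : tau z ≤ 2 * tau s := by
      have e : 2 * tau s = Real.log ((|s.im| + 3) ^ 2) := by
        rw [Real.log_pow]
        simp [tau]
      rw [e]
      unfold tau
      apply Real.log_le_log (by positivity)
      nlinarith [abs_nonneg s.im]
    have hτz0 : 0 < tau z := by linarith [tau_pos z]
    have hre' : 1 - 1 / tau z ≤ z.re := by
      have h5 : 1 / (2 * tau s) ≤ 1 / tau z := one_div_le_one_div_of_le hτz0 hτz
      have h6 : 1 / (2 * tau s) = 1 / (4 * tau s) + 1 / (4 * tau s) := by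
        field_simp
        norm_num
      have h7 := (abs_le.mp h1').1
      linarith
    have hre3 : z.re ≤ 3 := by
      have h7 := (abs_le.mp h1').2
      linarith
    have h8 := hL χ z (him z hz') hre' hre3
    calc ‖χ.LFunction z‖ ≤ C * tau z := h8
      _ ≤ C * (2 * tau s) := by gcongr
      _ = 2 * C * tau s := by ring
  have h9 := Complex.norm_deriv_le_of_forall_mem_sphere_norm_le hR hd key
  refine h9.trans (le_of_eq ?_)
  field_simp
  ring

private theorem Der_norm_dlt {N : ℕ} [NeZero N] (χ : DirichletCharacter ℂ N) : ‖dlt χ‖ ≤ 1 := by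
  have hN : (0 : ℝ) < N := by exact_mod_cast NeZero.pos N
  unfold dlt
  rw [norm_div, Complex.norm_natCast, div_le_one hN]
  calc ‖∑ a : ZMod N, χ a‖ ≤ ∑ a : ZMod N, ‖χ a‖ := norm_sum_le _ _
    _ ≤ ∑ _a : ZMod N, (1 : ℝ) := Finset.sum_le_sum fun a _ => χ.norm_le_one a
    _ = N := by simp [ZMod.card]

theorem pole_le (N : ℕ) [NeZero N] : ∃ C : ℝ, 0 < C ∧ ∀ x : ℝ, 0 < x → x ≤ 1 →
    ‖(1 : DirichletCharacter ℂ N).LFunction (1 + x)‖ ≤ C / x := by
  refine ⟨2 + 4 * N, by positivity, fun x hx hx1 => ?_⟩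
  have hre : (1 + x : ℂ).re = 1 + x := by simp
  have hs : 0 < (1 + x : ℂ).re := by rw [hre]; linarith
  have hne : (1 + x : ℂ) ≠ 1 := by
    intro h
    have : (x : ℂ) = 0 := by
      have h2 : (1 + x : ℂ) = 1 + 0 := by rw [h]; ring
      exact add_left_cancel h2
    have h3 : x = 0 := by exact_mod_cast this
    linarith
  rw [L_eq (1 : DirichletCharacter ℂ N) hs hne]
  have hn : ‖(1 + x : ℂ)‖ ≤ 2 := by
    have : ‖(1 + x : ℂ)‖ ≤ ‖(1 : ℂ)‖ + ‖(x : ℂ)‖ := norm_add_le _ _
    rw [norm_one, Complex.norm_real, Real.norm_of_nonneg hx.le] at this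
    linarith
  have hsub : (1 + x : ℂ) - 1 = x := by ring
  have hT := norm_Tail_le (1 : DirichletCharacter ℂ N) (T := 1) one_pos hs
  rw [Real.one_rpow, hre, mul_one] at hT
  have hT' : ‖Tail (1 : DirichletCharacter ℂ N) 1 (1 + x)‖ ≤ 2 * N := by
    refine hT.trans ?_
    apply div_le_self (by positivity)
    linarith
  have hA : ‖dlt (1 : DirichletCharacter ℂ N) * (1 + x) / ((1 + x : ℂ) - 1)‖ ≤ 2 / x := by
    rw [hsub, norm_div, norm_mul, Complex.norm_real, Real.norm_of_nonneg hx.le]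
    apply div_le_div_of_nonneg_right _ hx.le
    calc ‖dlt (1 : DirichletCharacter ℂ N)‖ * ‖(1 + x : ℂ)‖ ≤ 1 * 2 :=
          mul_le_mul (Der_norm_dlt _) hn (norm_nonneg _) zero_le_one
      _ = 2 := by norm_num
  have hB : ‖(1 + x : ℂ) * Tail (1 : DirichletCharacter ℂ N) 1 (1 + x)‖ ≤ 4 * N := by
    rw [norm_mul]
    calc ‖(1 + x : ℂ)‖ * ‖Tail (1 : DirichletCharacter ℂ N) 1 (1 + x)‖ ≤ 2 * (2 * N) :=
          mul_le_mul hn hT' (norm_nonneg _) (by norm_num)
      _ = 4 * N := by ring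
  have hC : (4 : ℝ) * N ≤ 4 * N / x := by
    rw [le_div_iff₀ hx]
    have : (0 : ℝ) ≤ 4 * N := by positivity
    nlinarith
  calc _ ≤ 2 / x + 4 * N := (norm_add_le _ _).trans (add_le_add hA hB)
    _ ≤ 2 / x + 4 * N / x := by linarith
    _ = (2 + 4 * N) / x := by ring

end Pool.Agent.PNE
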