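import Pool.Agent.PNE.Defs

/-!
# The remainder of the summatory function of a character and its tail integrals

`norm_Ech_le`: the sum of `χ` over `N` consecutive integers is `N δ_χ`, so for `⌊t⌋ = N k + r`, `0 ≤ r < N`:
`Ech χ t = ∑_{n = Nk+1}^{Nk+r} χ n - δ_χ (t - N k)`, `|δ_χ| ≤ 1`, hence `≤ r + (r + 1) ≤ 2 N`.
(Or: induction on `⌊t⌋` in steps of `N`; a sum over an interval of length `N` of a periodic function is the
sum over `ZMod N`.)
`tail_integrable`, `norm_Tail_le`: `‖t ^ (-s-1)‖ = t ^ (-Re s - 1)` and `∫_T^∞ t^(-σ-1) = T^(-σ)/σ`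
(`integral_Ioi_rpow_of_lt`, `integrableOn_Ioi_rpow_of_lt`); measurability of `Ech` from `Measurable.comp` with
`Nat.measurable_floor`.
`Tail_differentiableAt`: `hasDerivAt_integral_of_dominated_loc_of_deriv_le`, or
`mellin_differentiableAt_of_isBigO_rpow` for the Mellin transform of the indicator of `(1, ∞)` times `Ech χ` at `-s`.
-/

namespace Pool.Agent.PNE

open Complex

variable {N : ℕ} [NeZero N]

private theorem Int_sum_shift (χ : DirichletCharacter ℂ N) (k : ℕ) :
    ∑ i ∈ Finset.range N, χ ((k + i : ℕ) : ZMod N) = ∑ i ∈ Finset.range N, χ ((i : ℕ) : ZMod N) := by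
  induction k with
  | zero => simp
  | succ k ih =>
    rw [← ih]
    have h1 := Finset.sum_range_succ (fun i => χ ((k + i : ℕ) : ZMod N)) N
    have h2 := Finset.sum_range_succ' (fun i => χ ((k + i : ℕ) : ZMod N)) N
    rw [h1] at h2
    have h3 : χ ((k + N : ℕ) : ZMod N) = χ ((k + 0 : ℕ) : ZMod N) := by simp
    rw [h3] at h2
    have h4 := add_right_cancel h2
    rw [h4]
    refine Finset.sum_congr rfl fun i _ => ?_
    congr 2
    ring

private theorem Int_sum_zmod (χ : DirichletCharacter ℂ N) :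
    ∑ i ∈ Finset.range N, χ ((i : ℕ) : ZMod N) = ∑ a : ZMod N, χ a := by
  refine Finset.sum_bij' (fun i _ => ((i : ℕ) : ZMod N)) (fun a _ => a.val) ?_ ?_ ?_ ?_ ?_
  · intro i _
    exact Finset.mem_univ _
  · intro a _
    exact Finset.mem_range.mpr (ZMod.val_lt a)
  · intro i hi
    exact ZMod.val_natCast_of_lt (Finset.mem_range.mp hi)
  · intro a _
    exact ZMod.natCast_zmod_val a
  · intro i _
    rfl

private theorem Int_dlt_mul (χ : DirichletCharacter ℂ N) :
    dlt χ * N = ∑ a : ZMod N, χ a := by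
  unfold dlt
  have h : (N : ℂ) ≠ 0 := by exact_mod_cast NeZero.ne N
  field_simp

private theorem Int_norm_dlt (χ : DirichletCharacter ℂ N) : ‖dlt χ‖ ≤ 1 := by
  unfold dlt
  rw [norm_div, Complex.norm_natCast]
  have hN : (0 : ℝ) < N := by exact_mod_cast NeZero.pos N
  rw [div_le_one hN]
  refine (norm_sum_le _ _).trans ?_
  have h : ∀ a ∈ (Finset.univ : Finset (ZMod N)), ‖χ a‖ ≤ 1 := fun a _ => χ.norm_le_one a
  refine (Finset.sum_le_sum h).trans ?_
  simp [ZMod.card]

private theorem Int_sum_add (χ : DirichletCharacter ℂ N) (k : ℕ) :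
    ∑ n ∈ Finset.Icc 1 (k + N), χ ((n : ℕ) : ZMod N) =
      ∑ n ∈ Finset.Icc 1 k, χ ((n : ℕ) : ZMod N) + dlt χ * N := by
  have e : ∀ m : ℕ, ∑ n ∈ Finset.Icc 1 m, χ ((n : ℕ) : ZMod N) =
      ∑ i ∈ Finset.range m, χ ((i + 1 : ℕ) : ZMod N) := by
    intro m
    induction m with
    | zero => simp
    | succ m ih => rw [Finset.sum_Icc_succ_top (by omega), ih, Finset.sum_range_succ]
  rw [e, e, Finset.sum_range_add]
  congr 1
  rw [Int_dlt_mul, ← Int_sum_zmod, ← Int_sum_shift χ (k + 1)]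
  refine Finset.sum_congr rfl fun i _ => ?_
  congr 2
  ring

private theorem Int_nat (χ : DirichletCharacter ℂ N) (q r : ℕ) (hr : r < N) :
    ‖∑ n ∈ Finset.Icc 1 (r + N * q), χ ((n : ℕ) : ZMod N) - dlt χ * ((r + N * q : ℕ) : ℂ)‖ ≤
      2 * r := by
  induction q with
  | zero =>
    simp only [mul_zero, add_zero]
    refine (norm_sub_le _ _).trans ?_
    have h1 : ‖∑ n ∈ Finset.Icc 1 r, χ ((n : ℕ) : ZMod N)‖ ≤ r := by
      refine (norm_sum_le _ _).trans ?_
      have h : ∀ n ∈ Finset.Icc 1 r, ‖χ ((n : ℕ) : ZMod N)‖ ≤ 1 := fun n _ => χ.norm_le_one _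
      refine (Finset.sum_le_sum h).trans ?_
      simp
    have h2 : ‖dlt χ * (r : ℂ)‖ ≤ r := by
      rw [norm_mul, Complex.norm_natCast]
      have := Int_norm_dlt χ
      have h0 : (0 : ℝ) ≤ r := Nat.cast_nonneg r
      nlinarith
    linarith
  | succ q ih =>
    have e : r + N * (q + 1) = r + N * q + N := by ring
    rw [e, Int_sum_add]
    refine le_trans (le_of_eq ?_) ih
    congr 1
    push_cast
    ring

theorem norm_Ech_le (χ : DirichletCharacter ℂ N) {t : ℝ} (ht : 0 ≤ t) : ‖Ech χ t‖ ≤ 2 * N := by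
  have hN : 0 < N := NeZero.pos N
  have h := Int_nat χ (⌊t⌋₊ / N) (⌊t⌋₊ % N) (Nat.mod_lt _ hN)
  rw [Nat.mod_add_div] at h
  have h3 : Ech χ t = (∑ n ∈ Finset.Icc 1 ⌊t⌋₊, χ ((n : ℕ) : ZMod N) - dlt χ * ((⌊t⌋₊ : ℕ) : ℂ)) -
      dlt χ * ((t - ⌊t⌋₊ : ℝ) : ℂ) := by
    unfold Ech
    push_cast
    ring
  rw [h3]
  refine (norm_sub_le _ _).trans ?_
  have h4 : ‖dlt χ * ((t - ⌊t⌋₊ : ℝ) : ℂ)‖ ≤ 1 := by
    rw [norm_mul, Complex.norm_real, Real.norm_eq_abs]
    have h5 := Int_norm_dlt χ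
    have h6 := Nat.floor_le ht
    have h7 := Nat.lt_floor_add_one t
    have h8 : |t - ⌊t⌋₊| ≤ 1 := by
      rw [abs_le]
      constructor <;> linarith
    have := norm_nonneg (dlt χ)
    have := abs_nonneg (t - ⌊t⌋₊)
    nlinarith
  have h9 : ((⌊t⌋₊ % N : ℕ) : ℝ) + 1 ≤ N := by
    exact_mod_cast Nat.mod_lt ⌊t⌋₊ hN
  linarith

theorem measurable_Ech (χ : DirichletCharacter ℂ N) : Measurable (Ech χ) := by
  unfold Ech
  refine Measurable.sub ?_ ?_
  · exact (measurable_from_nat (f := fun m : ℕ => ∑ n ∈ Finset.Icc 1 m, χ ((n : ℕ) : ZMod N))).comp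
      Nat.measurable_floor
  · exact measurable_const.mul Complex.measurable_ofReal

theorem tail_integrable (χ : DirichletCharacter ℂ N) {T : ℝ} (hT : 0 < T) {s : ℂ}
    (hs : 0 < s.re) :
    MeasureTheory.IntegrableOn (fun t : ℝ => Ech χ t * (t : ℂ) ^ (-s - 1)) (Set.Ioi T) := by
  have h1 : MeasureTheory.IntegrableOn (fun t : ℝ => (t : ℂ) ^ (-s - 1)) (Set.Ioi T) := by
    refine integrableOn_Ioi_cpow_of_lt ?_ hT
    simp only [sub_re, neg_re, one_re]
    linarith
  refine MeasureTheory.Integrable.bdd_mul (c := 2 * N) h1 (measurable_Ech χ).aestronglyMeasurable ?_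
  refine (MeasureTheory.ae_restrict_iff' measurableSet_Ioi).mpr (Filter.Eventually.of_forall ?_)
  intro t ht
  exact norm_Ech_le χ (hT.trans ht).le

theorem norm_Tail_le (χ : DirichletCharacter ℂ N) {T : ℝ} (hT : 0 < T) {s : ℂ}
    (hs : 0 < s.re) : ‖Tail χ T s‖ ≤ 2 * N * T ^ (-s.re) / s.re := by
  unfold Tail
  have h1 : MeasureTheory.IntegrableOn (fun t : ℝ => 2 * (N : ℝ) * t ^ (-s.re - 1)) (Set.Ioi T) := by
    refine MeasureTheory.Integrable.const_mul ?_ _
    exact integrableOn_Ioi_rpow_of_lt (by linarith) hT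
  have h2 : ‖∫ t in Set.Ioi T, Ech χ t * (t : ℂ) ^ (-s - 1)‖ ≤
      ∫ t in Set.Ioi T, 2 * (N : ℝ) * t ^ (-s.re - 1) := by
    refine MeasureTheory.norm_integral_le_of_norm_le h1 ?_
    refine (MeasureTheory.ae_restrict_iff' measurableSet_Ioi).mpr (Filter.Eventually.of_forall ?_)
    intro t ht
    have ht0 : 0 < t := hT.trans ht
    rw [norm_mul, Complex.norm_cpow_eq_rpow_re_of_pos ht0]
    have h3 : (-s - 1).re = -s.re - 1 := by simp
    rw [h3]
    exact mul_le_mul_of_nonneg_right (norm_Ech_le χ ht0.le) (Real.rpow_nonneg ht0.le _)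
  refine h2.trans (le_of_eq ?_)
  rw [MeasureTheory.integral_const_mul, integral_Ioi_rpow_of_lt (by linarith) hT]
  have e : -s.re - 1 + 1 = -s.re := by ring
  rw [e]
  field_simp

theorem Tail_differentiableAt (χ : DirichletCharacter ℂ N) {s : ℂ} (hs : 0 < s.re) :
    DifferentiableAt ℂ (Tail χ 1) s := by
  have hσ : 0 < s.re / 2 := by linarith
  have key := hasDerivAt_integral_of_dominated_loc_of_deriv_le
    (μ := MeasureTheory.volume.restrict (Set.Ioi (1 : ℝ)))
    (F := fun (z : ℂ) (t : ℝ) => Ech χ t * (t : ℂ) ^ (-z - 1))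
    (F' := fun (z : ℂ) (t : ℝ) => Ech χ t * ((t : ℂ) ^ (-z - 1) * Complex.log t * (-1)))
    (x₀ := s) (s := Metric.ball s (s.re / 2))
    (bound := fun t : ℝ => 2 * (N : ℝ) / (s.re / 4) * t ^ (-(s.re / 4) - 1))
    (Metric.ball_mem_nhds s hσ) ?_ ?_ ?_ ?_ ?_ ?_
  · exact key.2.differentiableAt
  · refine Filter.Eventually.of_forall fun z => ?_
    refine ((measurable_Ech χ).mul ?_).aestronglyMeasurable
    exact Complex.measurable_ofReal.pow_const _
  · exact tail_integrable χ one_pos hs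
  · refine ((measurable_Ech χ).mul (((Complex.measurable_ofReal.pow_const _).mul ?_).mul
      measurable_const)).aestronglyMeasurable
    exact Complex.measurable_log.comp Complex.measurable_ofReal
  · refine (MeasureTheory.ae_restrict_iff' measurableSet_Ioi).mpr (Filter.Eventually.of_forall ?_)
    intro t ht z hz
    have ht1 : 1 < t := ht
    have ht0 : 0 < t := by linarith
    have hz2 : s.re / 2 < z.re := by
      have h1 : dist z s < s.re / 2 := hz
      rw [Complex.dist_eq] at h1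
      have h2 := Complex.abs_re_le_norm (z - s)
      rw [Complex.sub_re] at h2
      have h3 := (abs_lt.mp (lt_of_le_of_lt h2 h1)).1
      linarith
    rw [norm_mul, norm_mul, norm_mul, Complex.norm_cpow_eq_rpow_re_of_pos ht0, norm_neg, norm_one,
      mul_one]
    have h3 : (-z - 1).re = -z.re - 1 := by simp
    rw [h3, ← Complex.ofReal_log ht0.le, Complex.norm_real, Real.norm_eq_abs,
      abs_of_nonneg (Real.log_nonneg ht1.le)]
    have h4 : Real.log t ≤ t ^ (s.re / 4) / (s.re / 4) :=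
      Real.log_le_rpow_div ht0.le (by linarith)
    have h5 : t ^ (-z.re - 1) ≤ t ^ (-(s.re / 2) - 1) :=
      Real.rpow_le_rpow_of_exponent_le ht1.le (by linarith)
    have h6 : t ^ (-z.re - 1) * Real.log t ≤
        t ^ (-(s.re / 2) - 1) * (t ^ (s.re / 4) / (s.re / 4)) :=
      mul_le_mul h5 h4 (Real.log_nonneg ht1.le) (Real.rpow_nonneg ht0.le _)
    have h7 : t ^ (-(s.re / 2) - 1) * (t ^ (s.re / 4) / (s.re / 4)) =
        t ^ (-(s.re / 4) - 1) / (s.re / 4) := by
      rw [← mul_div_assoc, ← Real.rpow_add ht0]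
      congr 2
      ring
    have h8 : ‖Ech χ t‖ ≤ 2 * N := norm_Ech_le χ ht0.le
    calc ‖Ech χ t‖ * (t ^ (-z.re - 1) * Real.log t)
        ≤ 2 * N * (t ^ (-(s.re / 4) - 1) / (s.re / 4)) := by
          rw [← h7]
          refine mul_le_mul h8 h6 ?_ (by positivity)
          exact mul_nonneg (Real.rpow_nonneg ht0.le _) (Real.log_nonneg ht1.le)
      _ = 2 * (N : ℝ) / (s.re / 4) * t ^ (-(s.re / 4) - 1) := by ring
  · refine MeasureTheory.Integrable.const_mul ?_ _
    exact integrableOn_Ioi_rpow_of_lt (by linarith) one_pos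
  · refine (MeasureTheory.ae_restrict_iff' measurableSet_Ioi).mpr (Filter.Eventually.of_forall ?_)
    intro t ht z _
    have ht1 : 1 < t := ht
    have ht0 : (t : ℂ) ≠ 0 := by
      have : t ≠ 0 := by linarith
      exact_mod_cast this
    have h1 : HasDerivAt (fun z : ℂ => -z - 1) (-1) z := by
      simpa using ((hasDerivAt_id z).neg.sub_const 1)
    exact (h1.const_cpow (Or.inl ht0)).const_mul _

end Pool.Agent.PNE
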