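import Mathlib

/-!
# The Mellin kernel of the Riesz means

For `x > 0`, `σ > 0`: `(1/2π) ∫ x^{-(σ+it)} / ((σ+it)(σ+it+1)) dt = max 0 (1 - x)`: Mellin inversion
(`mellin_inversion`, in Mathlib/Analysis/MellinInversion.lean) for the continuous function `max 0 (1 - x)` with Mellin
transform `∫_0^1 (1 - x) x^{s-1} dx = 1/s - 1/(s+1) = 1/(s(s+1))` (`Re s > 0`), which is integrable on vertical lines
(`|s(s+1)| ≥ σ² + t²`).
-/

namespace Pool.Agent.PNE

open Complex

private theorem kernel_norm {σ : ℝ} (hσ : 0 < σ) (t : ℝ) :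
    ‖(1 / ((σ + t * I) * (σ + t * I + 1) : ℂ))‖ ≤ (min (σ ^ 2) 1)⁻¹ * (1 + t ^ 2)⁻¹ := by
  have hm : 0 < min (σ ^ 2) 1 := lt_min (by positivity) one_pos
  have h1 : ‖(σ + t * I : ℂ)‖ ^ 2 = σ ^ 2 + t ^ 2 := by
    rw [← Complex.normSq_eq_norm_sq, Complex.normSq_add_mul_I]
  have h2 : ‖(σ + t * I + 1 : ℂ)‖ ^ 2 = (σ + 1) ^ 2 + t ^ 2 := by
    rw [← Complex.normSq_eq_norm_sq, show (σ + t * I + 1 : ℂ) = ((σ + 1 : ℝ) : ℂ) + (t : ℂ) * I by
      push_cast; ring, Complex.normSq_add_mul_I]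
  have h3 : σ ^ 2 + t ^ 2 ≤ ‖((σ + t * I) * (σ + t * I + 1) : ℂ)‖ := by
    apply le_of_sq_le_sq _ (norm_nonneg _)
    rw [norm_mul, mul_pow, h1, h2]
    nlinarith [sq_nonneg t, sq_nonneg σ]
  have h4 : min (σ ^ 2) 1 * (1 + t ^ 2) ≤ σ ^ 2 + t ^ 2 := by
    nlinarith [min_le_left (σ ^ 2) 1, min_le_right (σ ^ 2) 1, sq_nonneg t]
  rw [norm_div, norm_one, one_div, ← mul_inv]
  exact inv_anti₀ (by positivity) (h4.trans h3)

theorem kernel_int {σ : ℝ} (hσ : 0 < σ) :
    MeasureTheory.Integrable (fun t : ℝ => 1 / ((σ + t * I) * (σ + t * I + 1) : ℂ)) := by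
  have h := (integrable_inv_one_add_sq).const_mul (min (σ ^ 2) 1)⁻¹
  refine h.mono' ?_ (Filter.Eventually.of_forall (kernel_norm hσ))
  exact (Measurable.aestronglyMeasurable (by fun_prop))

theorem kernel {x σ : ℝ} (hx : 0 < x) (hσ : 0 < σ) :
    (1 / (2 * Real.pi) : ℂ) * ∫ t : ℝ, (x : ℂ) ^ (-(σ + t * I)) / ((σ + t * I) * (σ + t * I + 1)) =
      ((max 0 (1 - x) : ℝ) : ℂ) := by
  set f : ℝ → ℂ := fun t => Set.indicator (Set.Ioc 0 1) (fun _ => 1 : ℝ → ℂ) t -
    Set.indicator (Set.Ioc 0 1) (fun t => (t : ℂ) ^ (1 : ℂ) : ℝ → ℂ) t with hf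
  have hM : ∀ s : ℂ, 0 < s.re → HasMellin f s (1 / s - 1 / (s + 1)) := by
    intro s hs
    have h1 := hasMellin_one_Ioc hs
    have h2 := hasMellin_cpow_Ioc 1 (s := s) (by simp; linarith)
    have h3 := hasMellin_sub h1.1 h2.1
    rw [h1.2, h2.2] at h3
    exact h3
  have hval : ∀ y : ℝ, 0 < y → f y = ((max 0 (1 - y) : ℝ) : ℂ) := by
    intro y hy
    by_cases h : y ≤ 1
    · rw [max_eq_right (by linarith)]
      simp [hf, Set.indicator, hy, h]
    · rw [max_eq_left (by linarith)]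
      simp [hf, Set.indicator, h]
  have hcont : ContinuousAt f x := by
    have hc : ContinuousAt (fun y : ℝ => ((max 0 (1 - y) : ℝ) : ℂ)) x := by fun_prop
    refine hc.congr ?_
    filter_upwards [lt_mem_nhds hx] with y hy using (hval y hy).symm
  have hms : ∀ t : ℝ, mellin f (σ + t * I) = 1 / ((σ + t * I) * (σ + t * I + 1)) := by
    intro t
    have hre : 0 < ((σ + t * I : ℂ)).re := by simpa using hσ
    rw [(hM _ hre).2]
    have h0 : (σ + t * I : ℂ) ≠ 0 := fun h => by rw [h] at hre; simp at hre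
    have h1 : (σ + t * I + 1 : ℂ) ≠ 0 := fun h => by
      have := congrArg Complex.re h
      simp at this
      linarith
    field_simp
    ring
  have hv : Complex.VerticalIntegrable (mellin f) σ := by
    unfold Complex.VerticalIntegrable
    simp_rw [hms]
    exact kernel_int hσ
  have hc : MellinConvergent f (σ : ℂ) := (hM σ (by simpa using hσ)).1
  have key := mellinInv_mellin_eq σ f hx hc hv hcont
  rw [hval x hx] at key
  rw [← key, mellinInv]
  simp_rw [hms, smul_eq_mul, mul_one_div]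
  rw [Complex.real_smul]
  push_cast
  rfl

end Pool.Agent.PNE
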