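import Pool.Agent.PNE.Cont

/-!
# The logarithmic derivative near the real axis

The functions `LFunctionTrivChar₁ N` and `LFunction χ`, `χ ≠ 1`, are entire and have no zero in
`Re s ≥ 1` (`DirichletCharacter.LFunction_ne_zero_of_one_le_re`, `LFunctionTrivChar₁_apply_one_ne_zero`), so by compactness
there is `d > 0`, `d ≤ 1/8`, such that they have no zero in `1 - d ≤ Re s ≤ 2`, `|Im s| ≤ 3` (the set of the points of the
compact rectangle `7/8 ≤ Re s ≤ 2`, `|Im s| ≤ 3` where one of them vanishes is compact and `Re s < 1` on it, so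
`Re s ≤ 1 - 2 d` on it for some `d > 0`).  `Z1` is analytic by `Z1_analyticAt`; `Dex` is analytic, so continuous and
bounded, on this compact rectangle.
-/

namespace Pool.Agent.PNE

open Complex

open Classical in
private noncomputable def LogN_g (N : ℕ) [NeZero N] (χ : DirichletCharacter ℂ N) : ℂ → ℂ :=
  if χ = 1 then DirichletCharacter.LFunctionTrivChar₁ N else DirichletCharacter.LFunction χ

private theorem LogN_diff (N : ℕ) [NeZero N] (χ : DirichletCharacter ℂ N) :
    Differentiable ℂ (LogN_g N χ) := by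
  unfold LogN_g
  split_ifs with h
  · exact DirichletCharacter.differentiable_LFunctionTrivChar₁ N
  · exact DirichletCharacter.differentiable_LFunction h

private theorem LogN_ne (N : ℕ) [NeZero N] (χ : DirichletCharacter ℂ N) {s : ℂ} (hs : 1 ≤ s.re) :
    LogN_g N χ s ≠ 0 := by
  unfold LogN_g
  split_ifs with h
  · by_cases h1 : s = 1
    · rw [h1]
      exact DirichletCharacter.LFunctionTrivChar₁_apply_one_ne_zero N
    · rw [DirichletCharacter.LFunctionTrivChar₁, Function.update_of_ne h1]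
      exact mul_ne_zero (sub_ne_zero_of_ne h1)
        (DirichletCharacter.LFunction_ne_zero_of_one_le_re 1 (.inr h1) hs)
  · exact DirichletCharacter.LFunction_ne_zero_of_one_le_re χ (.inl h) hs

private theorem LogN_strip (N : ℕ) [NeZero N] : ∃ d : ℝ, 0 < d ∧ d ≤ 1 / 8 ∧
    ∀ χ : DirichletCharacter ℂ N, ∀ s : ℂ, |s.im| ≤ 3 → 1 - d ≤ s.re → s.re ≤ 2 →
      LogN_g N χ s ≠ 0 := by
  classical
  obtain ⟨P, hP⟩ : ∃ P : ℂ → ℂ, P = fun s => ∏ χ : DirichletCharacter ℂ N, LogN_g N χ s :=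
    ⟨_, rfl⟩
  have hPc : Continuous P := by
    rw [hP]
    exact continuous_finsetProd _ fun χ _ => (LogN_diff N χ).continuous
  have hPne : ∀ s : ℂ, 1 ≤ s.re → P s ≠ 0 := by
    intro s hs
    rw [hP]
    exact Finset.prod_ne_zero_iff.2 fun χ _ => LogN_ne N χ hs
  have hPz : ∀ s : ℂ, P s ≠ 0 → ∀ χ, LogN_g N χ s ≠ 0 := by
    intro s hs χ
    rw [hP] at hs
    exact Finset.prod_ne_zero_iff.1 hs χ (Finset.mem_univ _)
  obtain ⟨K, hK⟩ : ∃ K : Set ℂ, K = Set.Icc (7 / 8 : ℝ) 2 ×ℂ Set.Icc (-3 : ℝ) 3 := ⟨_, rfl⟩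
  have hKc : IsCompact K := by
    rw [hK]
    exact isCompact_Icc.reProdIm isCompact_Icc
  have hKm : ∀ s : ℂ, |s.im| ≤ 3 → 7 / 8 ≤ s.re → s.re ≤ 2 → s ∈ K := by
    intro s h1 h2 h3
    rw [hK, Complex.mem_reProdIm]
    exact ⟨⟨h2, h3⟩, abs_le.1 h1⟩
  obtain ⟨Z, hZ⟩ : ∃ Z : Set ℂ, Z = K ∩ {s | P s = 0} := ⟨_, rfl⟩
  have hZc : IsCompact Z := by
    rw [hZ]
    exact hKc.inter_right (isClosed_eq hPc continuous_const)
  rcases Z.eq_empty_or_nonempty with h0 | h0
  · refine ⟨1 / 8, by norm_num, le_rfl, fun χ s h1 h2 h3 => hPz s ?_ χ⟩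
    intro h4
    have : s ∈ Z := by
      rw [hZ]
      exact ⟨hKm s h1 (by linarith) h3, h4⟩
    rw [h0] at this
    exact this
  · obtain ⟨z, hz, hmax⟩ := hZc.exists_isMaxOn h0 Complex.continuous_re.continuousOn
    have hz1 : z.re < 1 := by
      by_contra h
      rw [hZ] at hz
      exact hPne z (not_lt.1 h) hz.2
    refine ⟨min (1 / 8) ((1 - z.re) / 2), lt_min (by norm_num) (by linarith), min_le_left _ _,
      fun χ s h1 h2 h3 => hPz s ?_ χ⟩
    intro h4
    have h5 := min_le_left (1 / 8) ((1 - z.re) / 2)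
    have h6 := min_le_right (1 / 8) ((1 - z.re) / 2)
    have h7 : s ∈ Z := by
      rw [hZ]
      exact ⟨hKm s h1 (by linarith) h3, h4⟩
    have h8 : s.re ≤ z.re := hmax h7
    linarith

private theorem LogN_log {f : ℂ → ℂ} (hf : Differentiable ℂ f) {s : ℂ} (hs : f s ≠ 0) :
    AnalyticAt ℂ (fun w => deriv f w / f w) s := by
  have h1 : AnalyticAt ℂ f s := hf.analyticAt s
  exact h1.deriv.div h1 hs

theorem Dex_near (N : ℕ) [NeZero N] (b : ZMod N) : ∃ d C : ℝ, 0 < d ∧ d ≤ 1 / 8 ∧ 0 < C ∧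
    ∀ s : ℂ, |s.im| ≤ 3 → 1 - d ≤ s.re → s.re ≤ 2 →
      AnalyticAt ℂ (Dex N b) s ∧ ‖Dex N b s‖ ≤ C := by
  classical
  obtain ⟨d, hd0, hd8, hd⟩ := LogN_strip N
  have han : ∀ s : ℂ, |s.im| ≤ 3 → 1 - d ≤ s.re → s.re ≤ 2 → AnalyticAt ℂ (Dex N b) s := by
    intro s h1 h2 h3
    have h4 : AnalyticAt ℂ (fun w => deriv (DirichletCharacter.LFunctionTrivChar₁ N) w /
        DirichletCharacter.LFunctionTrivChar₁ N w) s := by
      have h5 := hd 1 s h1 h2 h3
      have h6 : LogN_g N 1 = DirichletCharacter.LFunctionTrivChar₁ N := if_pos rfl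
      rw [h6] at h5
      exact LogN_log (DirichletCharacter.differentiable_LFunctionTrivChar₁ N) h5
    have h7 : ∀ χ ∈ ({1}ᶜ : Finset (DirichletCharacter ℂ N)),
        AnalyticAt ℂ (fun w => χ b⁻¹ * deriv (DirichletCharacter.LFunction χ) w /
          DirichletCharacter.LFunction χ w) s := by
      intro χ hχ
      have hχ' : χ ≠ 1 := by simpa using hχ
      have h5 := hd χ s h1 h2 h3
      have h6 : LogN_g N χ = DirichletCharacter.LFunction χ := if_neg hχ'
      rw [h6] at h5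
      have h8 := (LogN_log (DirichletCharacter.differentiable_LFunction hχ') h5)
      have h9 : AnalyticAt ℂ (fun w => χ b⁻¹ * (deriv (DirichletCharacter.LFunction χ) w /
          DirichletCharacter.LFunction χ w)) s := analyticAt_const.mul h8
      refine h9.congr (Filter.Eventually.of_forall fun w => ?_)
      simp only
      ring
    have h10 : AnalyticAt ℂ (fun w => ∑ χ ∈ ({1}ᶜ : Finset (DirichletCharacter ℂ N)),
        χ b⁻¹ * deriv (DirichletCharacter.LFunction χ) w / DirichletCharacter.LFunction χ w) s :=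
      Finset.analyticAt_fun_sum _ h7
    have h11 : AnalyticAt ℂ Z1 s := Z1_analyticAt (by linarith)
    have h12 : AnalyticAt ℂ (fun w => (N.totient : ℂ)⁻¹ *
        (-(deriv (DirichletCharacter.LFunctionTrivChar₁ N) w /
        DirichletCharacter.LFunctionTrivChar₁ N w) -
        ∑ χ ∈ ({1}ᶜ : Finset (DirichletCharacter ℂ N)),
        χ b⁻¹ * deriv (DirichletCharacter.LFunction χ) w / DirichletCharacter.LFunction χ w) -
        (N.totient : ℂ)⁻¹ * Z1 w) s :=
      (analyticAt_const.mul (h4.neg.sub h10)).sub (analyticAt_const.mul h11)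
    refine h12.congr (Filter.Eventually.of_forall fun w => ?_)
    unfold Dex ArithmeticFunction.vonMangoldt.LFunctionResidueClassAux
    simp only
    rw [neg_div]
    congr 3
    refine Finset.sum_congr ?_ fun _ _ => rfl
    ext χ
    simp
  obtain ⟨K, hK⟩ : ∃ K : Set ℂ, K = Set.Icc (1 - d) 2 ×ℂ Set.Icc (-3 : ℝ) 3 := ⟨_, rfl⟩
  have hKc : IsCompact K := by
    rw [hK]
    exact isCompact_Icc.reProdIm isCompact_Icc
  have hcont : ContinuousOn (Dex N b) K := by
    intro s hs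
    rw [hK, Complex.mem_reProdIm] at hs
    exact (han s (abs_le.2 hs.2) hs.1.1 hs.1.2).continuousAt.continuousWithinAt
  obtain ⟨C, hC⟩ := hKc.exists_bound_of_continuousOn hcont
  refine ⟨d, max C 1, hd0, hd8, by positivity, fun s h1 h2 h3 => ⟨han s h1 h2 h3, ?_⟩⟩
  refine (hC s ?_).trans (le_max_left _ _)
  rw [hK, Complex.mem_reProdIm]
  exact ⟨⟨h2, h3⟩, abs_le.1 h1⟩

end Pool.Agent.PNE
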