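import Pool.Agent.PNE.LogF
import Pool.Agent.PNE.LogN

/-!
# Analytic continuation and bound a little to the left of `Re s = 1`
-/

namespace Pool.Agent.PNE

open Complex

theorem Dex_bd (N : ℕ) [NeZero N] (b : ZMod N) : ∃ c C : ℝ, 0 < c ∧ c ≤ 1 / 8 ∧ 0 < C ∧
    ∀ s : ℂ, 1 - c / tau s ^ 9 ≤ s.re → s.re ≤ 2 →
      AnalyticAt ℂ (Dex N b) s ∧ ‖Dex N b s‖ ≤ C * tau s ^ 9 := by
  obtain ⟨c, C, hc0, hc, hC, h⟩ := Dex_far N b
  obtain ⟨d, D, hd0, hd, hD, h'⟩ := Dex_near N b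
  refine ⟨min c d, max C D, lt_min hc0 hd0, (min_le_left _ _).trans hc, lt_max_of_lt_left hC, ?_⟩
  intro s hs hs2
  have ht := tau_pos s
  have ht9 : 1 ≤ tau s ^ 9 := one_le_pow₀ ht.le
  have ht0 : 0 < tau s ^ 9 := by linarith
  rcases le_total 3 |s.im| with h3 | h3
  · obtain ⟨h1, h2⟩ := h s h3 (by
      have : min c d / tau s ^ 9 ≤ c / tau s ^ 9 :=
        div_le_div_of_nonneg_right (min_le_left _ _) ht0.le
      linarith) hs2
    exact ⟨h1, h2.trans (mul_le_mul_of_nonneg_right (le_max_left _ _) ht0.le)⟩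
  · obtain ⟨h1, h2⟩ := h' s h3 (by
      have : min c d / tau s ^ 9 ≤ d := by
        rw [div_le_iff₀ ht0]
        have := min_le_right c d
        nlinarith
      linarith) hs2
    refine ⟨h1, h2.trans ?_⟩
    calc D ≤ max C D := le_max_right _ _
      _ ≤ max C D * tau s ^ 9 := le_mul_of_one_le_right (lt_max_of_lt_left hC).le ht9

end Pool.Agent.PNE
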