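import Pool.Agent.PNE.Low

/-!
# The logarithmic derivative far from the real axis

`Dex N b s = LFunctionResidueClassAux b s - φ(N)⁻¹ Z1 s`, `|Im s| ≥ 3`, `Re s ≥ 1 - c/tau^9` with a small `c`
(the one of `low`): by `low` and `deriv_le` every `L'/L(s, χ)` is `≤ C tau^9`;
`deriv (LFunctionTrivChar₁ N) s / LFunctionTrivChar₁ N s = 1/(s-1) + L'/L(s, 1)`
(`DirichletCharacter.deriv_LFunctionTrivChar₁_apply_of_ne_one`); `Z1 s = ζ(s) - 1/(s-1)` (`Z1_eq`) is `≤ C tau` by `L_le`
for the modulus 1 (`DirichletCharacter.LFunction_modOne_eq`).  `‖χ a‖ ≤ 1` (`DirichletCharacter.norm_le_one`).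
Analyticity: quotients of analytic functions with nonzero denominators.
-/

namespace Pool.Agent.PNE

open Complex

private theorem LogF_quot {x y τ A c : ℝ} (hτ : 1 < τ) (hA : 0 < A) (hc : 0 < c)
    (hx : x ≤ A * τ ^ 2) (hy : c / τ ^ 7 ≤ y) : x / y ≤ A / c * τ ^ 9 := by
  have hτ0 : 0 < τ := by linarith
  have h0 : 0 < c / τ ^ 7 := by positivity
  calc x / y ≤ (A * τ ^ 2) / (c / τ ^ 7) := by
        apply div_le_div₀ (by positivity) hx h0 hy
    _ = A / c * τ ^ 9 := by
        field_simp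

private theorem LogF_ne {s : ℂ} (h : 3 ≤ |s.im|) : s ≠ 1 := by
  intro h1
  rw [h1] at h
  norm_num at h

private theorem LogF_inv {s : ℂ} (h : 3 ≤ |s.im|) : ‖1 / (s - 1)‖ ≤ 1 := by
  have h1 : 3 ≤ ‖s - 1‖ := by
    have := Complex.abs_im_le_norm (s - 1)
    simp only [sub_im, one_im, sub_zero] at this
    linarith
  rw [norm_div, norm_one]
  rw [div_le_one (by linarith)]
  linarith

private theorem LogF_triv (N : ℕ) [NeZero N] {s : ℂ} (hs : s ≠ 1)
    (h : (1 : DirichletCharacter ℂ N).LFunction s ≠ 0) :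
    -deriv (DirichletCharacter.LFunctionTrivChar₁ N) s / DirichletCharacter.LFunctionTrivChar₁ N s =
      -(1 / (s - 1) + deriv (1 : DirichletCharacter ℂ N).LFunction s /
        (1 : DirichletCharacter ℂ N).LFunction s) := by
  have h1 : s - 1 ≠ 0 := sub_ne_zero.mpr hs
  rw [DirichletCharacter.deriv_LFunctionTrivChar₁_apply_of_ne_one N hs]
  have h2 : DirichletCharacter.LFunctionTrivChar₁ N s =
      (s - 1) * (1 : DirichletCharacter ℂ N).LFunction s := Function.update_of_ne hs ..
  rw [h2]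
  show -((s - 1) * deriv (1 : DirichletCharacter ℂ N).LFunction s +
    (1 : DirichletCharacter ℂ N).LFunction s) / _ = _
  field_simp
  ring

theorem Dex_far (N : ℕ) [NeZero N] (b : ZMod N) : ∃ c C : ℝ, 0 < c ∧ c ≤ 1 / 8 ∧ 0 < C ∧
    ∀ s : ℂ, 3 ≤ |s.im| → 1 - c / tau s ^ 9 ≤ s.re → s.re ≤ 2 →
      AnalyticAt ℂ (Dex N b) s ∧ ‖Dex N b s‖ ≤ C * tau s ^ 9 := by
  let _ : DecidableEq (DirichletCharacter ℂ N) := fun a b => Classical.propDecidable (a = b)
  obtain ⟨c, c', hc0, hc8, hc', hlow⟩ := low N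
  obtain ⟨A, hA, hder⟩ := deriv_le N
  obtain ⟨B, hB, hup⟩ := L_le 1
  set K : ℝ := ((({1}ᶜ : Finset (DirichletCharacter ℂ N)).card : ℕ) : ℝ) with hK
  have hK0 : 0 ≤ K := by positivity
  refine ⟨c, (1 + A / c' + K * (A / c')) + (1 + B), hc0, hc8, by positivity, ?_⟩
  intro s him hre hre2
  have hτ := tau_pos s
  have hτ0 : 0 < tau s := by linarith
  have hτ9 : tau s ≤ tau s ^ 9 := le_self_pow₀ hτ.le (by norm_num)
  have hτ9' : 1 ≤ tau s ^ 9 := one_le_pow₀ hτ.le
  have hc9 : c / tau s ^ 9 ≤ 1 / (4 * tau s) := by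
    calc c / tau s ^ 9 ≤ (1 / 8) / tau s := by
          apply div_le_div₀ (by norm_num) hc8 hτ0 hτ9
      _ ≤ 1 / (4 * tau s) := by
          rw [div_div]
          apply one_div_le_one_div_of_le (by positivity)
          linarith
  have hre4 : 1 - 1 / (4 * tau s) ≤ s.re := by linarith
  have hre1 : 1 - 1 / tau s ≤ s.re := by
    have : 1 / (4 * tau s) ≤ 1 / tau s := by
      apply one_div_le_one_div_of_le hτ0
      linarith
    linarith
  have hre0 : 0 < s.re := by
    have : 1 / (4 * tau s) ≤ 1 / 4 := by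
      apply one_div_le_one_div_of_le (by norm_num)
      linarith
    linarith
  have hs1 : s ≠ 1 := LogF_ne him
  have hlow' : ∀ χ : DirichletCharacter ℂ N, c' / tau s ^ 7 ≤ ‖χ.LFunction s‖ := fun χ =>
    hlow χ s him hre hre2
  have hne : ∀ χ : DirichletCharacter ℂ N, χ.LFunction s ≠ 0 := by
    intro χ h
    have := hlow' χ
    rw [h, norm_zero] at this
    have h2 : 0 < c' / tau s ^ 7 := by positivity
    linarith
  have hquot : ∀ χ : DirichletCharacter ℂ N,
      ‖deriv χ.LFunction s / χ.LFunction s‖ ≤ A / c' * tau s ^ 9 := by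
    intro χ
    rw [norm_div]
    exact LogF_quot hτ hA hc' (hder χ s him hre4 hre2) (hlow' χ)
  have hZ := Z1_eq hre0 hs1
  have hinv := LogF_inv him
  have hzeta : ‖riemannZeta s‖ ≤ B * tau s := by
    have := hup 1 s (by linarith) hre1 (by linarith)
    rwa [DirichletCharacter.LFunction_modOne_eq] at this
  constructor
  · -- analyticity
    have hZ1 : AnalyticAt ℂ Z1 s := Z1_analyticAt hre0
    have hT : AnalyticAt ℂ (DirichletCharacter.LFunctionTrivChar₁ N) s :=
      (DirichletCharacter.differentiable_LFunctionTrivChar₁ N).analyticAt s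
    have hT0 : DirichletCharacter.LFunctionTrivChar₁ N s ≠ 0 := by
      have h2 : DirichletCharacter.LFunctionTrivChar₁ N s =
        (s - 1) * (1 : DirichletCharacter ℂ N).LFunction s := Function.update_of_ne hs1 ..
      rw [h2]
      exact mul_ne_zero (sub_ne_zero.mpr hs1) (hne 1)
    have h1 : AnalyticAt ℂ (fun s => -deriv (DirichletCharacter.LFunctionTrivChar₁ N) s /
        DirichletCharacter.LFunctionTrivChar₁ N s) s := (hT.deriv.neg).div hT hT0
    have h2 : AnalyticAt ℂ (fun s => ∑ χ ∈ ({1}ᶜ : Finset (DirichletCharacter ℂ N)),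
        χ b⁻¹ * deriv χ.LFunction s / χ.LFunction s) s := by
      apply Finset.analyticAt_fun_sum
      intro χ hχ
      have hχ1 : χ ≠ 1 := by simpa using hχ
      have hL : AnalyticAt ℂ χ.LFunction s :=
        (DirichletCharacter.differentiable_LFunction hχ1).analyticAt s
      exact (analyticAt_const.mul hL.deriv).div hL (hne χ)
    have h3 := (analyticAt_const (v := (N.totient : ℂ)⁻¹)).mul (h1.sub h2)
    have h4 := h3.sub ((analyticAt_const (v := (N.totient : ℂ)⁻¹)).mul hZ1)
    exact h4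
  · -- bound
    have hφ : ‖(N.totient : ℂ)⁻¹‖ ≤ 1 := by
      rw [norm_inv, Complex.norm_natCast]
      apply inv_le_one_of_one_le₀
      exact_mod_cast Nat.totient_pos.mpr (NeZero.pos N)
    have hsum : ‖∑ χ ∈ ({1}ᶜ : Finset (DirichletCharacter ℂ N)),
        χ b⁻¹ * deriv χ.LFunction s / χ.LFunction s‖ ≤ K * (A / c' * tau s ^ 9) := by
      calc ‖∑ χ ∈ ({1}ᶜ : Finset (DirichletCharacter ℂ N)),
            χ b⁻¹ * deriv χ.LFunction s / χ.LFunction s‖
          ≤ ∑ χ ∈ ({1}ᶜ : Finset (DirichletCharacter ℂ N)), (A / c' * tau s ^ 9) := by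
            apply norm_sum_le_of_le
            intro χ _
            rw [mul_div_assoc, norm_mul]
            calc ‖χ b⁻¹‖ * ‖deriv χ.LFunction s / χ.LFunction s‖
                ≤ 1 * (A / c' * tau s ^ 9) :=
                  mul_le_mul (DirichletCharacter.norm_le_one χ _) (hquot χ) (norm_nonneg _)
                    (by norm_num)
              _ = _ := one_mul _
        _ = K * (A / c' * tau s ^ 9) := by
            rw [Finset.sum_const, nsmul_eq_mul]
    have htriv : ‖-deriv (DirichletCharacter.LFunctionTrivChar₁ N) s /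
        DirichletCharacter.LFunctionTrivChar₁ N s‖ ≤ 1 + A / c' * tau s ^ 9 := by
      rw [LogF_triv N hs1 (hne 1), norm_neg]
      exact (norm_add_le _ _).trans (add_le_add hinv (hquot 1))
    have hZn : ‖Z1 s‖ ≤ 1 + B * tau s := by
      have : Z1 s = riemannZeta s - 1 / (s - 1) := by rw [hZ]; ring
      rw [this]
      calc ‖riemannZeta s - 1 / (s - 1)‖ ≤ ‖riemannZeta s‖ + ‖1 / (s - 1)‖ := norm_sub_le _ _
        _ ≤ 1 + B * tau s := by linarith
    have hR : ‖ArithmeticFunction.vonMangoldt.LFunctionResidueClassAux b s‖ ≤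
        (1 + A / c' * tau s ^ 9) + K * (A / c' * tau s ^ 9) := by
      show ‖(N.totient : ℂ)⁻¹ * (-deriv (DirichletCharacter.LFunctionTrivChar₁ N) s /
        DirichletCharacter.LFunctionTrivChar₁ N s -
        ∑ χ ∈ ({1}ᶜ : Finset (DirichletCharacter ℂ N)),
          χ b⁻¹ * deriv χ.LFunction s / χ.LFunction s)‖ ≤ _
      rw [norm_mul]
      refine (mul_le_of_le_one_left (norm_nonneg _) hφ).trans ?_
      exact (norm_sub_le _ _).trans (add_le_add htriv hsum)
    have hAc : 0 ≤ A / c' := by positivity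
    calc ‖Dex N b s‖ ≤ ‖ArithmeticFunction.vonMangoldt.LFunctionResidueClassAux b s‖ +
          ‖(N.totient : ℂ)⁻¹ * Z1 s‖ := norm_sub_le _ _
      _ ≤ ((1 + A / c' * tau s ^ 9) + K * (A / c' * tau s ^ 9)) + (1 + B * tau s) := by
          apply add_le_add hR
          rw [norm_mul]
          exact (mul_le_of_le_one_left (norm_nonneg _) hφ).trans hZn
      _ ≤ ((1 + A / c' + K * (A / c')) + (1 + B)) * tau s ^ 9 := by
          nlinarith

end Pool.Agent.PNE
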