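import Pool.Agent.PNE.Der

/-!
# Lower bound for the L-functions near the line `Re s = 1`

Let `τ = tau s`.  For `s = 1 + x + i t`, `0 < x ≤ 1`, `|t| ≥ 3`: Mathlib's
`DirichletCharacter.norm_LFunction_product_ge_one` (3-4-1 inequality), `pole_le` and `L_le` for `χ ^ 2` at
`1 + x + 2 i t` (`tau` of it is `≤ 2 τ`) give `|L(s, χ)|^4 ≥ x^3/(C' τ)`, so with `x ≥ c τ^(-9)`:
`|L(s,χ)|^4 ≥ c^3 τ^(-28)/C'`, that is `|L(s, χ)| ≥ (c^3/C')^(1/4) τ^(-7)`.
If `|Re s - 1| ≤ c τ^(-9)` compare with the point `s' = 1 + c τ^(-9) + i t`: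
`|L(s) - L(s')| ≤ 2 c τ^(-9) * C τ^2 = 2 c C τ^(-7)` by `deriv_le` (mean value inequality on the horizontal
segment, `Convex.norm_image_sub_le_of_norm_deriv_le`), and `2 c C ≤ (1/2) (c^3/C')^(1/4)` for small `c`.
-/

set_option linter.all false

namespace Pool.Agent.PNE

open Complex

private theorem low_tau2 (x t : ℝ) : tau (1 + x + 2 * I * t) ≤ 2 * tau (1 + x + I * t) := by
  unfold tau
  have e1 : (1 + (x : ℂ) + 2 * I * t).im = 2 * t := by simp
  have e2 : (1 + (x : ℂ) + I * t).im = t := by simp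
  rw [e1, e2]
  have h0 := abs_nonneg t
  have h2 : 2 * Real.log (|t| + 3) = Real.log ((|t| + 3) ^ 2) := by
    rw [Real.log_pow]; norm_num
  rw [h2]
  apply Real.log_le_log (by positivity)
  rw [abs_mul, abs_of_pos (by norm_num : (0 : ℝ) < 2)]
  nlinarith

private theorem low_right {N : ℕ} [NeZero N] {C1 C3 : ℝ} (hC1 : 0 < C1) (hC3 : 0 < C3)
    (h1 : ∀ (χ : DirichletCharacter ℂ N) (s : ℂ),
      2 ≤ |s.im| → 1 - 1 / tau s ≤ s.re → s.re ≤ 3 → ‖χ.LFunction s‖ ≤ C1 * tau s)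
    (h3 : ∀ x : ℝ, 0 < x → x ≤ 1 → ‖(1 : DirichletCharacter ℂ N).LFunction (1 + x)‖ ≤ C3 / x)
    (χ : DirichletCharacter ℂ N) (x t : ℝ) (hx : 0 < x) (hx1 : x ≤ 1) (ht : 3 ≤ |t|) :
    x ^ 3 / (2 * C1 * C3 ^ 3 * tau (1 + x + I * t)) ≤ ‖χ.LFunction (1 + x + I * t)‖ ^ 4 := by
  have hp := DirichletCharacter.norm_LFunction_product_ge_one (N := N) χ hx t
  have e1 : (1 + (x : ℂ) + 2 * I * t).im = 2 * t := by simp
  have e2 : (1 + (x : ℂ) + 2 * I * t).re = 1 + x := by simp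
  set T := tau (1 + x + I * t) with hT
  have hT1 : 1 < T := tau_pos _
  have hA : ‖(1 : DirichletCharacter ℂ N).LFunction (1 + x)‖ ≤ C3 / x := h3 x hx hx1
  have hB : ‖(χ ^ 2).LFunction (1 + x + 2 * I * t)‖ ≤ C1 * (2 * T) := by
    refine (h1 (χ ^ 2) _ ?_ ?_ ?_).trans ?_
    · rw [e1, abs_mul, abs_of_pos (by norm_num : (0 : ℝ) < 2)]
      linarith
    · rw [e2]
      have := tau_pos (1 + (x : ℂ) + 2 * I * t)
      have : 0 ≤ 1 / tau (1 + (x : ℂ) + 2 * I * t) := by positivity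
      linarith
    · rw [e2]; linarith
    · exact mul_le_mul_of_nonneg_left (low_tau2 x t) hC1.le
  rw [norm_mul, norm_mul, norm_pow, norm_pow] at hp
  have hA' : ‖DirichletCharacter.LFunctionTrivChar N (1 + x)‖ ^ 3 ≤ (C3 / x) ^ 3 :=
    pow_le_pow_left₀ (norm_nonneg _) hA 3
  set L4 := ‖χ.LFunction (1 + x + I * t)‖ ^ 4 with hL4
  have hL40 : 0 ≤ L4 := by positivity
  have h4 : 1 ≤ (C3 / x) ^ 3 * L4 * (C1 * (2 * T)) := by
    refine hp.trans ?_
    exact mul_le_mul (mul_le_mul_of_nonneg_right hA' hL40) hB (norm_nonneg _) (by positivity)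
  rw [div_le_iff₀ (by positivity)]
  have e3 : (C3 / x) ^ 3 * L4 * (C1 * (2 * T)) = (L4 * (2 * C1 * C3 ^ 3 * T)) / x ^ 3 := by
    field_simp
  rw [e3, le_div_iff₀ (by positivity), one_mul] at h4
  exact h4

theorem low (N : ℕ) [NeZero N] : ∃ c c' : ℝ, 0 < c ∧ c ≤ 1 / 8 ∧ 0 < c' ∧
    ∀ (χ : DirichletCharacter ℂ N) (s : ℂ), 3 ≤ |s.im| → 1 - c / tau s ^ 9 ≤ s.re → s.re ≤ 2 →
    c' / tau s ^ 7 ≤ ‖χ.LFunction s‖ := by
  obtain ⟨C1, hC1, h1⟩ := L_le N
  obtain ⟨C2, hC2, h2⟩ := deriv_le N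
  obtain ⟨C3, hC3, h3⟩ := pole_le N
  set D := 2 * C1 * C3 ^ 3 with hD
  have hD0 : 0 < D := by positivity
  set c := min (1 / 8) (1 / (256 * C2 ^ 4 * D)) with hc
  have hc0 : 0 < c := lt_min (by norm_num) (by positivity)
  have hc8 : c ≤ 1 / 8 := min_le_left _ _
  have hcD : c * (256 * C2 ^ 4 * D) ≤ 1 := by
    have := min_le_right (1 / 8 : ℝ) (1 / (256 * C2 ^ 4 * D))
    rwa [← hc, le_div_iff₀ (by positivity)] at this
  -- the estimate to the right
  have key : ∀ (χ : DirichletCharacter ℂ N) (s : ℂ), 3 ≤ |s.im| → 1 + c / tau s ^ 9 ≤ s.re →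
      s.re ≤ 2 → 4 * c * C2 / tau s ^ 7 ≤ ‖χ.LFunction s‖ := by
    intro χ s hs hr hr2
    set T := tau s with hT
    have hT1 : 1 < T := tau_pos s
    have hcT : 0 < c / T ^ 9 := by positivity
    have es : s = 1 + ((s.re - 1 : ℝ) : ℂ) + I * s.im := by
      apply Complex.ext <;> simp
    have hk := low_right hC1 hC3 h1 h3 χ (s.re - 1) s.im (by linarith) (by linarith) hs
    rw [← es, ← hT] at hk
    by_contra hcon
    push Not at hcon
    have hlt : ‖χ.LFunction s‖ ^ 4 < (4 * c * C2 / T ^ 7) ^ 4 :=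
      pow_lt_pow_left₀ hcon (norm_nonneg _) (by norm_num)
    have hx3 : (c / T ^ 9) ^ 3 ≤ (s.re - 1) ^ 3 :=
      pow_le_pow_left₀ hcT.le (by linarith) 3
    have hx4 : (c / T ^ 9) ^ 3 / (D * T) ≤ (s.re - 1) ^ 3 / (D * T) :=
      div_le_div_of_nonneg_right hx3 (by positivity)
    have h5 : (c / T ^ 9) ^ 3 / (D * T) < (4 * c * C2 / T ^ 7) ^ 4 :=
      lt_of_le_of_lt (hx4.trans hk) hlt
    have e5 : (c / T ^ 9) ^ 3 / (D * T) = (c ^ 3 / D) / T ^ 28 := by
      field_simp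
    have e6 : (4 * c * C2 / T ^ 7) ^ 4 = (c ^ 3 * (c * (256 * C2 ^ 4))) / T ^ 28 := by
      field_simp
      ring
    rw [e5, e6, div_lt_div_iff_of_pos_right (by positivity), div_lt_iff₀ hD0] at h5
    have h6 : c ^ 3 * (c * (256 * C2 ^ 4)) * D = c ^ 3 * (c * (256 * C2 ^ 4 * D)) := by ring
    rw [h6] at h5
    have h7 : c ^ 3 * (c * (256 * C2 ^ 4 * D)) ≤ c ^ 3 * 1 :=
      mul_le_mul_of_nonneg_left hcD (by positivity)
    linarith
  refine ⟨c, 2 * c * C2, hc0, hc8, by positivity, ?_⟩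
  intro χ s hs hr hr2
  set T := tau s with hT
  have hT1 : 1 < T := tau_pos s
  have hcT : 0 < c / T ^ 9 := by positivity
  have hcT4 : c / T ^ 9 ≤ 1 / (4 * T) := by
    rw [div_le_div_iff₀ (by positivity) (by positivity)]
    have h9 : T ≤ T ^ 9 := by
      calc T = T ^ 1 := (pow_one T).symm
        _ ≤ T ^ 9 := pow_le_pow_right₀ hT1.le (by norm_num)
    nlinarith
  have hcT1 : c / T ^ 9 ≤ 1 / 4 := by
    refine hcT4.trans ?_
    rw [div_le_div_iff₀ (by positivity) (by norm_num)]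
    linarith
  rcases le_total (1 + c / T ^ 9) s.re with h | h
  · have h8 := key χ s hs h hr2
    rw [← hT] at h8
    refine le_trans ?_ h8
    apply div_le_div_of_nonneg_right _ (by positivity)
    nlinarith
  · -- compare with the point to the right
    set s' : ℂ := ⟨1 + c / T ^ 9, s.im⟩ with hs'
    have hT' : tau s' = T := rfl
    have h8 := key χ s' hs (le_of_eq (by rw [hT'])) (by
      show 1 + c / T ^ 9 ≤ 2
      linarith)
    rw [hT'] at h8
    have hseg : ∀ z ∈ segment ℝ s s', z.im = s.im ∧ 1 - c / T ^ 9 ≤ z.re ∧ z.re ≤ 2 := by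
      rintro z ⟨a, b, ha, hb, hab, rfl⟩
      have hb' : b = 1 - a := by linarith
      have e1 : (a • s + b • s').im = a * s.im + b * s.im := by simp [hs']
      have e2 : (a • s + b • s').re = a * s.re + b * (1 + c / T ^ 9) := by simp [hs']
      refine ⟨?_, ?_, ?_⟩
      · rw [e1, hb']; ring
      · rw [e2]
        have i1 : a * (1 - c / T ^ 9) ≤ a * s.re := mul_le_mul_of_nonneg_left hr ha
        have i2 : b * (1 - c / T ^ 9) ≤ b * (1 + c / T ^ 9) :=
          mul_le_mul_of_nonneg_left (by linarith) hb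
        have i3 : a * (1 - c / T ^ 9) + b * (1 - c / T ^ 9) = 1 - c / T ^ 9 := by
          rw [hb']; ring
        linarith
      · rw [e2]
        have i1 : a * s.re ≤ a * 2 := mul_le_mul_of_nonneg_left hr2 ha
        have i2 : b * (1 + c / T ^ 9) ≤ b * 2 := mul_le_mul_of_nonneg_left (by linarith) hb
        have i3 : a * 2 + b * 2 = 2 := by rw [hb']; ring
        linarith
    have hmv := Convex.norm_image_sub_le_of_norm_deriv_le (𝕜 := ℂ) (f := χ.LFunction)
      (C := C2 * T ^ 2) (s := segment ℝ s s') (x := s) (y := s') ?_ ?_ (convex_segment s s')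
      (left_mem_segment ℝ s s') (right_mem_segment ℝ s s')
    · have hn : ‖s' - s‖ ≤ 2 * (c / T ^ 9) := by
        have e1 : s' - s = ((1 + c / T ^ 9 - s.re : ℝ) : ℂ) := by
          apply Complex.ext
          · rw [Complex.ofReal_re, Complex.sub_re]
          · rw [Complex.ofReal_im, Complex.sub_im]
            show s.im - s.im = 0
            ring
        rw [e1, Complex.norm_real, Real.norm_eq_abs, abs_of_nonneg (by linarith)]
        linarith
      have h9 : ‖χ.LFunction s' - χ.LFunction s‖ ≤ 2 * c * C2 / T ^ 7 := by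
        refine hmv.trans ((mul_le_mul_of_nonneg_left hn (by positivity)).trans (le_of_eq ?_))
        field_simp
      have h10 : ‖χ.LFunction s'‖ ≤ ‖χ.LFunction s' - χ.LFunction s‖ + ‖χ.LFunction s‖ := by
        have := norm_add_le (χ.LFunction s' - χ.LFunction s) (χ.LFunction s)
        simpa using this
      have e7 : 4 * c * C2 / T ^ 7 = 2 * c * C2 / T ^ 7 + 2 * c * C2 / T ^ 7 := by ring
      rw [e7] at h8
      linarith
    · intro z hz
      obtain ⟨i1, i2, i3⟩ := hseg z hz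
      refine DirichletCharacter.differentiableAt_LFunction χ z (Or.inl ?_)
      intro hz1
      rw [hz1, Complex.one_im] at i1
      rw [← i1] at hs
      norm_num at hs
    · intro z hz
      obtain ⟨i1, i2, i3⟩ := hseg z hz
      have hTz : tau z = T := by rw [hT]; unfold tau; rw [i1]
      have := h2 χ z (by rw [i1]; exact hs) (by rw [hTz]; linarith) i3
      rwa [hTz] at this

end Pool.Agent.PNE
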