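import Pool.Agent.PNE.Cau
import Pool.Agent.PNE.Ker

/-!
# Riesz means

For `x ≥ e^2` take `σ = 1 + 1/log x ≤ 3/2`.  By `kernel` with `n/x` and Fubini (`summable_an`, `kernel_int`)
`∑_{n ≤ x} a_n (log n)^m (1 - n/x) = (1/2π) ∫ x^s/(s(s+1)) ∑' a_n (log n)^m n^{-s} dt`, `s = σ + it`, and
`|x^s| = e x`, so by `iter_bd` it is at most `(e x/2π) m! C^{m+1} ∫ tau^{9(m+1)}/(1 + t²) dt`
(`|s(s+1)| ≥ |s|² ≥ 1 + t²`).  For `K = 9(m+1)`: `tau^K ≤ K! 2^K (|t|+3)^{1/2}` (`Real.pow_div_factorial_le_exp`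
at `tau/2`), and `∫ (|t|+3)^{1/2}/(1+t²) dt` is a finite constant.  Finally `m! (9(m+1))! ≤ (10(m+1))^{10(m+1)}`.
(The proof below takes `σ = 1 + 1/(log x + 2)` for all `x ≥ 1`.)
-/

namespace Pool.Agent.PNE

open Complex

private theorem Mel_tau_pow (K : ℕ) (t : ℝ) (σ : ℝ) :
    tau (σ + t * I) ^ K ≤ K.factorial * 2 ^ K * (2 * (1 + t ^ 2) ^ (1 / 4 : ℝ)) := by
  have him : ((σ : ℂ) + t * I).im = t := by simp
  have h3 : (0 : ℝ) < |t| + 3 := by positivity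
  unfold tau
  rw [him]
  have hL : 0 ≤ Real.log (|t| + 3) := Real.log_nonneg (by have := abs_nonneg t; linarith)
  have h1 := Real.pow_div_factorial_le_exp (x := Real.log (|t| + 3) / 2) (by positivity) K
  have hf : (0 : ℝ) < K.factorial := by positivity
  rw [div_le_iff₀ hf, div_pow, div_le_iff₀ (by positivity)] at h1
  have h2 : Real.exp (Real.log (|t| + 3) / 2) ≤ 2 * (1 + t ^ 2) ^ (1 / 4 : ℝ) := by
    have h4 : Real.exp (Real.log (|t| + 3) / 2) = (|t| + 3) ^ (1 / 2 : ℝ) := by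
      rw [Real.rpow_def_of_pos h3]
      congr 1
      ring
    rw [h4]
    have h5 : (|t| + 3) ^ 2 ≤ 16 * (1 + t ^ 2) := by
      have := sq_abs t
      nlinarith [sq_nonneg (3 * |t| - 1), abs_nonneg t]
    have h6 : (|t| + 3) ^ (1 / 2 : ℝ) = ((|t| + 3) ^ 2) ^ (1 / 4 : ℝ) := by
      rw [← Real.rpow_natCast, ← Real.rpow_mul h3.le]
      norm_num
    have h7 : (2 : ℝ) = (16 : ℝ) ^ (1 / 4 : ℝ) := by
      rw [show (16 : ℝ) = 2 ^ (4 : ℝ) by norm_num, ← Real.rpow_mul (by norm_num)]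
      norm_num
    rw [h6]
    calc ((|t| + 3) ^ 2) ^ (1 / 4 : ℝ) ≤ (16 * (1 + t ^ 2)) ^ (1 / 4 : ℝ) :=
          Real.rpow_le_rpow (by positivity) h5 (by norm_num)
      _ = 16 ^ (1 / 4 : ℝ) * (1 + t ^ 2) ^ (1 / 4 : ℝ) :=
          Real.mul_rpow (by norm_num) (by positivity)
      _ = 2 * (1 + t ^ 2) ^ (1 / 4 : ℝ) := by rw [← h7]
  calc Real.log (|t| + 3) ^ K ≤ Real.exp (Real.log (|t| + 3) / 2) * K.factorial * 2 ^ K := h1
    _ ≤ (2 * (1 + t ^ 2) ^ (1 / 4 : ℝ)) * K.factorial * 2 ^ K := by gcongr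
    _ = _ := by ring

private theorem Mel_den {σ : ℝ} (hσ : 1 < σ) (t : ℝ) :
    1 + t ^ 2 ≤ ‖((σ : ℂ) + t * I) * ((σ : ℂ) + t * I + 1)‖ := by
  have h1 : ∀ a : ℝ, 1 ≤ a → Real.sqrt (1 + t ^ 2) ≤ ‖((a : ℂ) + t * I)‖ := by
    intro a ha
    rw [Complex.norm_def, Complex.normSq_add_mul_I]
    apply Real.sqrt_le_sqrt
    nlinarith
  have h2 := h1 σ hσ.le
  have h3 := h1 (σ + 1) (by linarith)
  rw [norm_mul]
  have h4 : ((σ : ℂ) + t * I + 1) = (((σ + 1 : ℝ) : ℂ) + t * I) := by push_cast; ring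
  rw [h4]
  have h5 : Real.sqrt (1 + t ^ 2) * Real.sqrt (1 + t ^ 2) = 1 + t ^ 2 :=
    Real.mul_self_sqrt (by positivity)
  rw [← h5]
  exact mul_le_mul h2 h3 (Real.sqrt_nonneg _) (norm_nonneg _)

/-- the termwise integrand -/
private noncomputable def Mel_F (N : ℕ) (b : ZMod N) (m : ℕ) (x σ : ℝ) (n : ℕ) (t : ℝ) : ℂ :=
  ((an N b n * Real.log n ^ m : ℝ) : ℂ) *
    ((((n : ℝ) / x : ℝ) : ℂ) ^ (-((σ : ℂ) + t * I)) / (((σ : ℂ) + t * I) * ((σ : ℂ) + t * I + 1)))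

private theorem Mel_an0 (N : ℕ) (b : ZMod N) : an N b 0 = 0 := by simp [an]

private theorem Mel_norm (N : ℕ) (b : ZMod N) (m : ℕ) {x σ : ℝ} (hx : 0 < x) {n : ℕ} (hn : 0 < n)
    (t : ℝ) : ‖Mel_F N b m x σ n t‖ = |an N b n| * Real.log n ^ m * ((n : ℝ) / x) ^ (-σ) *
      ‖(1 / (((σ : ℂ) + t * I) * ((σ : ℂ) + t * I + 1)) : ℂ)‖ := by
  unfold Mel_F
  have hn' : (0 : ℝ) < (n : ℝ) / x := div_pos (by exact_mod_cast hn) hx
  have hl : 0 ≤ Real.log n := Real.log_natCast_nonneg n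
  rw [norm_mul, norm_div, norm_div, norm_one, Complex.norm_cpow_eq_rpow_re_of_pos hn',
    Complex.norm_real, Real.norm_eq_abs, abs_mul, abs_of_nonneg (pow_nonneg hl m)]
  have h1 : (-((σ : ℂ) + t * I)).re = -σ := by simp
  rw [h1]
  ring

private theorem Mel_split {x : ℝ} (hx : 0 < x) (n : ℕ) (s : ℂ) :
    (((n : ℝ) / x : ℝ) : ℂ) ^ (-s) = (n : ℂ) ^ (-s) * (x : ℂ) ^ s := by
  rw [div_eq_mul_inv]
  push_cast
  have h1 := Complex.mul_cpow_ofReal_nonneg (Nat.cast_nonneg n : (0 : ℝ) ≤ n)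
    (inv_nonneg.2 hx.le) (-s)
  push_cast at h1
  rw [h1, Complex.inv_cpow, Complex.cpow_neg, Complex.cpow_neg, inv_inv]
  rw [Complex.arg_ofReal_of_nonneg hx.le]
  exact Real.pi_pos.ne

private theorem Mel_cont (N : ℕ) (b : ZMod N) (m : ℕ) {x σ : ℝ} (hx : 0 < x) (hσ : 1 < σ) {n : ℕ}
    (hn : 0 < n) : Continuous (Mel_F N b m x σ n) := by
  have hn' : ((((n : ℝ) / x : ℝ)) : ℂ) ≠ 0 := by
    have : (n : ℝ) / x ≠ 0 := (div_pos (by exact_mod_cast hn) hx).ne'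
    exact_mod_cast this
  have hc : Continuous fun t : ℝ => -((σ : ℂ) + t * I) := by fun_prop
  have h1 : Continuous fun t : ℝ => ((((n : ℝ) / x : ℝ)) : ℂ) ^ (-((σ : ℂ) + t * I)) :=
    hc.const_cpow (Or.inl hn')
  have h2 : Continuous fun t : ℝ => (((σ : ℂ) + t * I) * ((σ : ℂ) + t * I + 1)) := by fun_prop
  unfold Mel_F
  refine continuous_const.mul (h1.div h2 fun t => ?_)
  intro h0
  have h3 := Mel_den hσ t
  rw [h0, norm_zero] at h3
  nlinarith [sq_nonneg t]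

private theorem Mel_int (N : ℕ) (b : ZMod N) (m : ℕ) {x σ : ℝ} (hx : 0 < x) (hσ : 1 < σ) (n : ℕ) :
    MeasureTheory.Integrable (Mel_F N b m x σ n) := by
  rcases Nat.eq_zero_or_pos n with h0 | hn
  · subst h0
    have : Mel_F N b m x σ 0 = fun _ => 0 := by
      funext t
      simp [Mel_F, Mel_an0]
    rw [this]
    exact MeasureTheory.integrable_zero _ _ _
  · have h1 := (kernel_int (σ := σ) (by linarith)).norm.const_mul
      (|an N b n| * Real.log n ^ m * ((n : ℝ) / x) ^ (-σ))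
    refine h1.mono' (Mel_cont N b m hx hσ hn).aestronglyMeasurable ?_
    filter_upwards with t
    rw [Mel_norm N b m hx hn t]

private theorem Mel_sum (N : ℕ) [NeZero N] (b : ZMod N) (m : ℕ) {x σ : ℝ} (hx : 0 < x)
    (hσ : 1 < σ) : Summable fun n : ℕ => ∫ t : ℝ, ‖Mel_F N b m x σ n t‖ := by
  have h1 := (summable_an N b m hσ).mul_right
    (x ^ σ * ∫ t : ℝ, ‖(1 / (((σ : ℂ) + t * I) * ((σ : ℂ) + t * I + 1)) : ℂ)‖)
  refine h1.congr fun n => ?_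
  rcases Nat.eq_zero_or_pos n with h0 | hn
  · subst h0
    simp [Mel_F, Mel_an0]
  · have h2 : (fun t : ℝ => ‖Mel_F N b m x σ n t‖) = fun t : ℝ =>
        (|an N b n| * Real.log n ^ m * ((n : ℝ) / x) ^ (-σ)) *
        ‖(1 / (((σ : ℂ) + t * I) * ((σ : ℂ) + t * I + 1)) : ℂ)‖ := by
      funext t
      exact Mel_norm N b m hx hn t
    rw [h2, MeasureTheory.integral_const_mul]
    have h3 : ((n : ℝ) / x) ^ (-σ) = (n : ℝ) ^ (-σ) * x ^ σ := by
      rw [Real.div_rpow (Nat.cast_nonneg n) hx.le, Real.rpow_neg hx.le, div_inv_eq_mul]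
    rw [h3]
    ring

private theorem Mel_term (N : ℕ) (b : ZMod N) (m : ℕ) {x σ : ℝ} (hx : 0 < x) (hσ : 1 < σ) (n : ℕ) :
    ∫ t : ℝ, Mel_F N b m x σ n t =
      ((2 * Real.pi * (an N b n * Real.log n ^ m * max 0 (1 - (n : ℝ) / x)) : ℝ) : ℂ) := by
  rcases Nat.eq_zero_or_pos n with h0 | hn
  · subst h0
    simp [Mel_F, Mel_an0]
  · have hk := kernel (x := (n : ℝ) / x) (σ := σ) (div_pos (by exact_mod_cast hn) hx) (by linarith)
    have hpi : (2 * Real.pi : ℂ) ≠ 0 := by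
      have := Real.pi_ne_zero
      exact mul_ne_zero two_ne_zero (by exact_mod_cast this)
    have h1 : ∫ t : ℝ, (((n : ℝ) / x : ℝ) : ℂ) ^ (-((σ : ℂ) + t * I)) /
        (((σ : ℂ) + t * I) * ((σ : ℂ) + t * I + 1)) =
        (2 * Real.pi : ℂ) * ((max 0 (1 - (n : ℝ) / x) : ℝ) : ℂ) := by
      rw [← hk, ← mul_assoc, mul_one_div_cancel hpi, one_mul]
    unfold Mel_F
    rw [MeasureTheory.integral_const_mul, h1]
    push_cast
    ring

private theorem Mel_tsum (N : ℕ) [NeZero N] (b : ZMod N) (m : ℕ) {x σ : ℝ} (hx : 0 < x) (t : ℝ) :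
    ∑' n : ℕ, Mel_F N b m x σ n t =
      (∑' n : ℕ, ((an N b n * Real.log n ^ m : ℝ) : ℂ) * (n : ℂ) ^ (-((σ : ℂ) + t * I))) *
      ((x : ℂ) ^ ((σ : ℂ) + t * I) / (((σ : ℂ) + t * I) * ((σ : ℂ) + t * I + 1))) := by
  rw [← tsum_mul_right]
  congr 1
  funext n
  unfold Mel_F
  rw [Mel_split hx n]
  ring

private theorem Mel_J : MeasureTheory.Integrable
    (fun t : ℝ => 2 * (1 + t ^ 2) ^ (1 / 4 : ℝ) / (1 + t ^ 2)) := by
  have h1 : MeasureTheory.Integrable (fun t : ℝ => (1 + ‖t‖ ^ 2) ^ (-(3 / 2 : ℝ) / 2)) :=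
    integrable_rpow_neg_one_add_norm_sq (by simp; norm_num)
  refine (h1.const_mul 2).congr ?_
  filter_upwards with t
  have h2 : (0 : ℝ) < 1 + t ^ 2 := by positivity
  have h3 : (1 + t ^ 2) ^ (1 / 4 : ℝ) / (1 + t ^ 2) = (1 + t ^ 2) ^ (-(3 / 2 : ℝ) / 2) := by
    rw [← Real.rpow_sub_one h2.ne']
    norm_num
  rw [Real.norm_eq_abs, sq_abs, mul_div_assoc, h3]

theorem riesz_bd (N : ℕ) [NeZero N] (b : ZMod N) (hb : IsUnit b) : ∃ C : ℝ, 1 ≤ C ∧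
    ∀ (m : ℕ) (x : ℝ), 1 ≤ x →
    |∑ n ∈ Finset.Icc 1 ⌊x⌋₊, an N b n * Real.log n ^ m * (x - n)| ≤
      x ^ 2 * (C * (m + 1)) ^ (10 * (m + 1)) := by
  obtain ⟨C0, hC0, hit⟩ := iter_bd N b hb
  obtain ⟨C1, hC1⟩ : ∃ C1 : ℝ, C1 = max C0 1 := ⟨_, rfl⟩
  have hC1a : C0 ≤ C1 := hC1 ▸ le_max_left _ _
  have hC1b : 1 ≤ C1 := hC1 ▸ le_max_right _ _
  obtain ⟨J, hJ⟩ : ∃ J : ℝ, J = ∫ t : ℝ, 2 * (1 + t ^ 2) ^ (1 / 4 : ℝ) / (1 + t ^ 2) := ⟨_, rfl⟩
  have hJ0 : 0 ≤ J := by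
    rw [hJ]
    exact MeasureTheory.integral_nonneg fun t => by positivity
  obtain ⟨A, hA⟩ : ∃ A : ℝ, A = Real.exp 1 * J := ⟨_, rfl⟩
  have hA0 : 0 ≤ A := by rw [hA]; positivity
  refine ⟨(A + 1) * C1 * 18, by nlinarith [mul_nonneg hA0 (by linarith : (0 : ℝ) ≤ C1)], ?_⟩
  intro m x hx1
  have hx : 0 < x := by linarith
  have hlx : 0 ≤ Real.log x := Real.log_nonneg hx1
  obtain ⟨σ, hσd⟩ : ∃ σ : ℝ, σ = 1 + 1 / (Real.log x + 2) := ⟨_, rfl⟩
  have hσ : 1 < σ := by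
    rw [hσd]
    have : 0 < 1 / (Real.log x + 2) := by positivity
    linarith
  have hσ2 : σ ≤ 3 / 2 := by
    rw [hσd]
    have : 1 / (Real.log x + 2) ≤ 1 / 2 := by
      apply one_div_le_one_div_of_le <;> linarith
    linarith
  have hxσ : x ^ σ ≤ Real.exp 1 * x := by
    have h1 : x ^ σ = x * Real.exp (Real.log x / (Real.log x + 2)) := by
      rw [hσd, Real.rpow_add hx, Real.rpow_one, Real.rpow_def_of_pos hx (1 / (Real.log x + 2))]
      congr 2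
      ring
    rw [h1, mul_comm]
    apply mul_le_mul_of_nonneg_right _ hx.le
    apply Real.exp_le_exp.2
    rw [div_le_one (by linarith)]
    linarith
  obtain ⟨K, hK⟩ : ∃ K : ℕ, K = 9 * (m + 1) := ⟨_, rfl⟩
  -- the identity
  have hid : ((2 * Real.pi * (∑ n ∈ Finset.Icc 1 ⌊x⌋₊,
      an N b n * Real.log n ^ m * max 0 (1 - (n : ℝ) / x)) : ℝ) : ℂ) =
      ∫ t : ℝ, ∑' n : ℕ, Mel_F N b m x σ n t := by
    rw [← MeasureTheory.integral_tsum_of_summable_integral_norm (Mel_int N b m hx hσ)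
      (Mel_sum N b m hx hσ)]
    rw [tsum_eq_sum (s := Finset.Icc 1 ⌊x⌋₊)]
    · rw [Finset.mul_sum]
      push_cast
      refine Finset.sum_congr rfl fun n _ => ?_
      rw [Mel_term N b m hx hσ n]
      push_cast
      ring
    · intro n hn
      rw [Mel_term N b m hx hσ n]
      rw [Finset.mem_Icc, not_and_or, not_le, not_le] at hn
      rcases hn with hn | hn
      · have h0 : n = 0 := by omega
        subst h0
        simp [Mel_an0]
      · have h1 : x < n := (Nat.floor_lt hx.le).1 hn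
        have h2 : max 0 (1 - (n : ℝ) / x) = 0 := by
          apply max_eq_left
          rw [sub_nonpos, one_le_div hx]
          exact h1.le
        rw [h2]
        simp
  -- the bound of the integrand
  have hbd : ∀ t : ℝ, ‖∑' n : ℕ, Mel_F N b m x σ n t‖ ≤
      (Real.exp 1 * x * (m.factorial * C1 ^ (m + 1) * (K.factorial * 2 ^ K))) *
      (2 * (1 + t ^ 2) ^ (1 / 4 : ℝ) / (1 + t ^ 2)) := by
    intro t
    have hre : ((σ : ℂ) + t * I).re = σ := by simp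
    rw [Mel_tsum N b m hx t, norm_mul, norm_div]
    have h1 := hit m ((σ : ℂ) + t * I) (by rw [hre]; exact hσ) (by rw [hre]; exact hσ2)
    have h2 : ‖(x : ℂ) ^ ((σ : ℂ) + t * I)‖ ≤ Real.exp 1 * x := by
      rw [Complex.norm_cpow_eq_rpow_re_of_pos hx, hre]
      exact hxσ
    have h3 := Mel_den hσ t
    have h4 := Mel_tau_pow K t σ
    have h5 : (0 : ℝ) < 1 + t ^ 2 := by positivity
    have h6 : ‖∑' n : ℕ, ((an N b n * Real.log n ^ m : ℝ) : ℂ) * (n : ℂ) ^ (-((σ : ℂ) + t * I))‖ ≤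
        m.factorial * C1 ^ (m + 1) * (K.factorial * 2 ^ K * (2 * (1 + t ^ 2) ^ (1 / 4 : ℝ))) := by
      refine h1.trans ?_
      rw [← hK]
      have h7 : C0 ^ (m + 1) ≤ C1 ^ (m + 1) := pow_le_pow_left₀ hC0.le hC1a _
      have h8 : 0 ≤ tau ((σ : ℂ) + t * I) := by have := tau_pos ((σ : ℂ) + t * I); linarith
      gcongr
    have h9 : ‖(x : ℂ) ^ ((σ : ℂ) + t * I)‖ / ‖((σ : ℂ) + t * I) * ((σ : ℂ) + t * I + 1)‖ ≤
        Real.exp 1 * x / (1 + t ^ 2) := by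
      apply div_le_div₀ (by positivity) h2 h5 h3
    calc _ ≤ (m.factorial * C1 ^ (m + 1) * (K.factorial * 2 ^ K * (2 * (1 + t ^ 2) ^ (1 / 4 : ℝ)))) *
          (Real.exp 1 * x / (1 + t ^ 2)) := mul_le_mul h6 h9 (by positivity) (by positivity)
      _ = _ := by ring
  have hfin : |2 * Real.pi * (∑ n ∈ Finset.Icc 1 ⌊x⌋₊,
      an N b n * Real.log n ^ m * max 0 (1 - (n : ℝ) / x))| ≤
      Real.exp 1 * x * (m.factorial * C1 ^ (m + 1) * (K.factorial * 2 ^ K)) * J := by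
    rw [← Real.norm_eq_abs, ← Complex.norm_real, hid, hJ, ← MeasureTheory.integral_const_mul]
    refine MeasureTheory.norm_integral_le_of_norm_le (Mel_J.const_mul _) ?_
    filter_upwards with t
    exact hbd t
  have hS : ∑ n ∈ Finset.Icc 1 ⌊x⌋₊, an N b n * Real.log n ^ m * (x - n) =
      x * ∑ n ∈ Finset.Icc 1 ⌊x⌋₊, an N b n * Real.log n ^ m * max 0 (1 - (n : ℝ) / x) := by
    rw [Finset.mul_sum]
    refine Finset.sum_congr rfl fun n hn => ?_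
    rw [Finset.mem_Icc] at hn
    have h1 : (n : ℝ) ≤ x := (Nat.le_floor_iff hx.le).1 hn.2
    have h2 : max 0 (1 - (n : ℝ) / x) = 1 - (n : ℝ) / x := by
      apply max_eq_right
      rw [sub_nonneg, div_le_one hx]
      exact h1
    rw [h2]
    field_simp
  rw [hS, abs_mul, abs_of_pos hx]
  rw [abs_mul, abs_of_pos (by positivity : (0 : ℝ) < 2 * Real.pi)] at hfin
  have hpi : (1 : ℝ) ≤ 2 * Real.pi := by
    have := Real.pi_gt_three
    linarith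
  obtain ⟨S, hSd⟩ : ∃ S : ℝ, S = |∑ n ∈ Finset.Icc 1 ⌊x⌋₊,
      an N b n * Real.log n ^ m * max 0 (1 - (n : ℝ) / x)| := ⟨_, rfl⟩
  rw [← hSd] at hfin ⊢
  have hS0 : 0 ≤ S := by rw [hSd]; exact abs_nonneg _
  have hS1 : S ≤ Real.exp 1 * x * (m.factorial * C1 ^ (m + 1) * (K.factorial * 2 ^ K)) * J := by
    nlinarith
  have hm1 : (m.factorial : ℝ) ≤ ((m : ℝ) + 1) ^ (m + 1) := by
    have h1 : m.factorial ≤ (m + 1) ^ (m + 1) :=
      (Nat.factorial_le (Nat.le_succ m)).trans (Nat.factorial_le_pow (m + 1))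
    exact_mod_cast h1
  have hK1 : (K.factorial : ℝ) ≤ (9 * ((m : ℝ) + 1)) ^ (9 * (m + 1)) := by
    have h1 : K.factorial ≤ K ^ K := Nat.factorial_le_pow K
    have h2 : ((K : ℕ) : ℝ) = 9 * ((m : ℝ) + 1) := by rw [hK]; push_cast; ring
    calc (K.factorial : ℝ) ≤ ((K ^ K : ℕ) : ℝ) := by exact_mod_cast h1
      _ = (K : ℝ) ^ K := by push_cast; ring
      _ = _ := by rw [h2, hK]
  have hmm : (1 : ℝ) ≤ (m : ℝ) + 1 := by have := Nat.cast_nonneg (α := ℝ) m; linarith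
  have hmain : m.factorial * C1 ^ (m + 1) * (K.factorial * 2 ^ K) * A ≤
      ((A + 1) * C1 * 18 * (m + 1)) ^ (10 * (m + 1)) := by
    have e1 : (m.factorial : ℝ) * C1 ^ (m + 1) * (K.factorial * 2 ^ K) * A ≤
        ((m : ℝ) + 1) ^ (m + 1) * C1 ^ (m + 1) *
          ((9 * ((m : ℝ) + 1)) ^ (9 * (m + 1)) * 2 ^ (9 * (m + 1))) * (A + 1) := by
      rw [← hK] at hK1 ⊢
      have : A ≤ A + 1 := by linarith
      gcongr
    have e2 : ((m : ℝ) + 1) ^ (m + 1) * C1 ^ (m + 1) *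
          ((9 * ((m : ℝ) + 1)) ^ (9 * (m + 1)) * 2 ^ (9 * (m + 1))) * (A + 1) =
        ((m : ℝ) + 1) ^ (10 * (m + 1)) * (C1 ^ (m + 1) * 18 ^ (9 * (m + 1)) * (A + 1)) := by
      rw [mul_pow, show 10 * (m + 1) = (m + 1) + 9 * (m + 1) by ring, pow_add,
        show (18 : ℝ) = 9 * 2 by norm_num, mul_pow]
      ring
    have e3 : C1 ^ (m + 1) * 18 ^ (9 * (m + 1)) * (A + 1) ≤ ((A + 1) * C1 * 18) ^ (10 * (m + 1)) := by
      rw [mul_pow, mul_pow]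
      have f1 : C1 ^ (m + 1) ≤ C1 ^ (10 * (m + 1)) := pow_le_pow_right₀ hC1b (by omega)
      have f2 : (18 : ℝ) ^ (9 * (m + 1)) ≤ 18 ^ (10 * (m + 1)) :=
        pow_le_pow_right₀ (by norm_num) (by omega)
      have f3 : A + 1 ≤ (A + 1) ^ (10 * (m + 1)) := le_self_pow₀ (by linarith) (by omega)
      have g1 : (0 : ℝ) ≤ C1 ^ (m + 1) := by positivity
      calc C1 ^ (m + 1) * 18 ^ (9 * (m + 1)) * (A + 1)
          ≤ C1 ^ (10 * (m + 1)) * 18 ^ (10 * (m + 1)) * (A + 1) ^ (10 * (m + 1)) := by gcongr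
        _ = _ := by ring
    calc _ ≤ _ := e1
      _ = _ := e2
      _ ≤ ((m : ℝ) + 1) ^ (10 * (m + 1)) * ((A + 1) * C1 * 18) ^ (10 * (m + 1)) := by gcongr
      _ = _ := by rw [← mul_pow]; ring
  calc x * S ≤ x * (Real.exp 1 * x * (m.factorial * C1 ^ (m + 1) * (K.factorial * 2 ^ K)) * J) := by
        gcongr
    _ = x ^ 2 * (m.factorial * C1 ^ (m + 1) * (K.factorial * 2 ^ K) * A) := by rw [hA]; ring
    _ ≤ x ^ 2 * ((A + 1) * C1 * 18 * (m + 1)) ^ (10 * (m + 1)) := by gcongr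

end Pool.Agent.PNE
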