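import Pool.Agent.PNE.Cut

/-!
# Upper bound for the L-functions near the line `Re s = 1`

`L_le`: `L_eq_cut` with `T = |t| + 3`, `t = Im s`, so `log T = tau s =: τ ≥ log 5 > 3/2`, `σ ≥ 1 - 1/τ ≥ 1/3`,
`T^{1-σ} ≤ e`, `‖n^{-s}‖ = n^{-σ} ≤ e/n` for `1 ≤ n ≤ T` (if `σ ≤ 1`; else `≤ 1/n`), the harmonic sum is
`≤ 1 + log T`, `|s - 1| ≥ |t| ≥ 2`, `‖s‖ ≤ 3 + |t| = T` (for `σ ≤ 3`),
`‖s Tail χ T s‖ ≤ T * 2 N T^{-σ}/σ ≤ 6 N e`, `‖Ech χ T * T^{-s}‖ ≤ 2 N`, `‖dlt χ‖ ≤ 1`.  All is `≤ C τ`.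
-/

namespace Pool.Agent.PNE

open Complex

private theorem up_norm_dlt_le {N : ℕ} [NeZero N] (χ : DirichletCharacter ℂ N) : ‖dlt χ‖ ≤ 1 := by
  unfold dlt
  have hN : (0 : ℝ) < N := by exact_mod_cast NeZero.pos N
  rw [norm_div, Complex.norm_natCast, div_le_one hN]
  calc ‖∑ a : ZMod N, χ a‖ ≤ ∑ a : ZMod N, ‖χ a‖ := norm_sum_le _ _
    _ ≤ ∑ _a : ZMod N, (1 : ℝ) := Finset.sum_le_sum fun a _ => DirichletCharacter.norm_le_one χ a
    _ = N := by simp [ZMod.card]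

private theorem up_harmonic (n : ℕ) : ∑ k ∈ Finset.Icc 1 n, ((k : ℝ))⁻¹ ≤ 1 + Real.log n := by
  have h := harmonic_le_one_add_log n
  rw [harmonic_eq_sum_Icc] at h
  push_cast at h
  exact h

theorem L_le (N : ℕ) [NeZero N] : ∃ C : ℝ, 0 < C ∧ ∀ (χ : DirichletCharacter ℂ N) (s : ℂ),
    2 ≤ |s.im| → 1 - 1 / tau s ≤ s.re → s.re ≤ 3 → ‖χ.LFunction s‖ ≤ C * tau s := by
  have hNpos : (0 : ℝ) < N := by exact_mod_cast NeZero.pos N
  refine ⟨2 * Real.exp 1 + Real.exp 1 + 2 * N + 6 * N * Real.exp 1, by positivity, ?_⟩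
  intro χ s him hre hre3
  set T : ℝ := |s.im| + 3 with hTdef
  set τ : ℝ := tau s with hτdef
  have hτlog : τ = Real.log T := rfl
  have hT5 : (5 : ℝ) ≤ T := by rw [hTdef]; linarith
  have hT1 : (1 : ℝ) ≤ T := by linarith
  have hT0 : (0 : ℝ) < T := by linarith
  have hτ : 3 / 2 < τ := by
    rw [hτlog, Real.lt_log_iff_exp_lt hT0]
    have h1 : Real.exp (3 / 2) ^ 2 = Real.exp 3 := by
      rw [← Real.exp_nat_mul]; norm_num
    have h2 : Real.exp 3 = Real.exp 1 ^ 3 := by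
      rw [← Real.exp_nat_mul]; norm_num
    have h3 : Real.exp 1 ^ 3 < 25 := by
      have he := Real.exp_one_lt_d9
      have he0 := Real.exp_pos 1
      calc Real.exp 1 ^ 3 < 2.7182818286 ^ 3 := by gcongr
        _ < 25 := by norm_num
    have h4 : Real.exp (3 / 2) < 5 := by
      by_contra hcon
      push Not at hcon
      have : (25 : ℝ) ≤ Real.exp (3 / 2) ^ 2 := by nlinarith
      linarith
    linarith
  have hτ0 : 0 < τ := by linarith
  have hτ1 : 1 ≤ τ := by linarith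
  have hσ : 1 / 3 ≤ s.re := by
    have h1 : 1 / τ ≤ 2 / 3 := by
      rw [div_le_div_iff₀ hτ0 (by norm_num)]; linarith
    linarith
  have hσ0 : 0 < s.re := by linarith
  have hs1 : s ≠ 1 := by
    intro h
    rw [h] at him
    simp at him
    linarith
  have he0 := Real.exp_pos 1
  -- `T ^ (1 - σ) ≤ e`
  have hpow : ∀ x : ℝ, 1 ≤ x → x ≤ T → x ^ (1 - s.re) ≤ Real.exp 1 := by
    intro x hx hxT
    have hx0 : 0 < x := by linarith
    rw [Real.rpow_def_of_pos hx0]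
    apply Real.exp_le_exp.mpr
    have hlx : 0 ≤ Real.log x := Real.log_nonneg hx
    have hlx2 : Real.log x ≤ τ := by rw [hτlog]; exact Real.log_le_log hx0 hxT
    have h1 : 1 - s.re ≤ 1 / τ := by linarith
    calc Real.log x * (1 - s.re) ≤ Real.log x * (1 / τ) := by gcongr
      _ ≤ τ * (1 / τ) := by gcongr
      _ = 1 := by field_simp
  have hTpow := hpow T hT1 le_rfl
  rw [L_eq_cut χ hT1 hσ0 hs1]
  -- the four terms
  have t1 : ‖∑ n ∈ Finset.Icc 1 ⌊T⌋₊, χ n * (n : ℂ) ^ (-s)‖ ≤ 2 * Real.exp 1 * τ := by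
    calc ‖∑ n ∈ Finset.Icc 1 ⌊T⌋₊, χ n * (n : ℂ) ^ (-s)‖
        ≤ ∑ n ∈ Finset.Icc 1 ⌊T⌋₊, ‖χ n * (n : ℂ) ^ (-s)‖ := norm_sum_le _ _
      _ ≤ ∑ n ∈ Finset.Icc 1 ⌊T⌋₊, Real.exp 1 * ((n : ℝ))⁻¹ := by
          apply Finset.sum_le_sum
          intro n hn
          rw [Finset.mem_Icc] at hn
          have hn1 : (1 : ℝ) ≤ n := by exact_mod_cast hn.1
          have hn0 : (0 : ℝ) < n := by linarith
          have hnT : (n : ℝ) ≤ T := (Nat.le_floor_iff hT0.le).mp hn.2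
          rw [norm_mul]
          have hχ : ‖χ n‖ ≤ 1 := DirichletCharacter.norm_le_one χ _
          have hnorm : ‖(n : ℂ) ^ (-s)‖ = (n : ℝ) ^ (-s.re) := by
            have := Complex.norm_cpow_eq_rpow_re_of_pos hn0 (-s)
            simpa using this
          rw [hnorm]
          have hsplit : (n : ℝ) ^ (-s.re) = (n : ℝ) ^ (1 - s.re) * ((n : ℝ))⁻¹ := by
            rw [← Real.rpow_neg_one, ← Real.rpow_add hn0]
            congr 1; ring
          rw [hsplit]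
          have h2 := hpow n hn1 hnT
          calc ‖χ n‖ * ((n : ℝ) ^ (1 - s.re) * ((n : ℝ))⁻¹)
              ≤ 1 * (Real.exp 1 * ((n : ℝ))⁻¹) := by gcongr
            _ = Real.exp 1 * ((n : ℝ))⁻¹ := one_mul _
      _ = Real.exp 1 * ∑ n ∈ Finset.Icc 1 ⌊T⌋₊, ((n : ℝ))⁻¹ := by rw [Finset.mul_sum]
      _ ≤ Real.exp 1 * (1 + Real.log ⌊T⌋₊) := by gcongr; exact up_harmonic _
      _ ≤ Real.exp 1 * (τ + τ) := by
          have hfl : (1 : ℝ) ≤ (⌊T⌋₊ : ℝ) := by exact_mod_cast (Nat.one_le_floor_iff T).mpr hT1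
          have : Real.log ⌊T⌋₊ ≤ τ := by
            rw [hτlog]; exact Real.log_le_log (by linarith) (Nat.floor_le hT0.le)
          gcongr
      _ = 2 * Real.exp 1 * τ := by ring
  have him0 : 2 ≤ ‖s - 1‖ := by
    have h1 : |(s - 1).im| ≤ ‖s - 1‖ := Complex.abs_im_le_norm _
    simp at h1
    linarith
  have t2 : ‖dlt χ * (T : ℂ) ^ (1 - s) / (s - 1)‖ ≤ Real.exp 1 * τ := by
    rw [norm_div, norm_mul]
    have hn : ‖(T : ℂ) ^ (1 - s)‖ = T ^ (1 - s.re) := by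
      have := Complex.norm_cpow_eq_rpow_re_of_pos hT0 (1 - s)
      simpa using this
    rw [hn]
    have hd := up_norm_dlt_le χ
    have h3 : 0 < ‖s - 1‖ := by linarith
    rw [div_le_iff₀ h3]
    have hTp0 : 0 ≤ T ^ (1 - s.re) := by positivity
    calc ‖dlt χ‖ * T ^ (1 - s.re) ≤ 1 * Real.exp 1 := by gcongr
      _ ≤ Real.exp 1 * τ * ‖s - 1‖ := by
        have : 1 * Real.exp 1 ≤ Real.exp 1 * (1 * 2) := by linarith
        refine this.trans ?_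
        rw [mul_assoc]
        gcongr
  have t3 : ‖Ech χ T * (T : ℂ) ^ (-s)‖ ≤ 2 * N * τ := by
    rw [norm_mul]
    have hn : ‖(T : ℂ) ^ (-s)‖ = T ^ (-s.re) := by
      have := Complex.norm_cpow_eq_rpow_re_of_pos hT0 (-s)
      simpa using this
    rw [hn]
    have hE := norm_Ech_le χ hT0.le
    have h1 : T ^ (-s.re) ≤ 1 := Real.rpow_le_one_of_one_le_of_nonpos hT1 (by linarith)
    calc ‖Ech χ T‖ * T ^ (-s.re) ≤ (2 * N) * 1 := by gcongr
      _ ≤ 2 * N * τ := by gcongr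
  have t4 : ‖s * Tail χ T s‖ ≤ 6 * N * Real.exp 1 * τ := by
    rw [norm_mul]
    have hTail := norm_Tail_le χ hT0 hσ0
    have hs : ‖s‖ ≤ T := by
      have h1 := Complex.norm_le_abs_re_add_abs_im s
      have h2 : |s.re| ≤ 3 := by rw [abs_of_pos hσ0]; exact hre3
      rw [hTdef]; linarith
    have hsplit : T * T ^ (-s.re) = T ^ (1 - s.re) := by
      rw [sub_eq_add_neg, Real.rpow_add hT0, Real.rpow_one]
    calc ‖s‖ * ‖Tail χ T s‖ ≤ T * (2 * N * T ^ (-s.re) / s.re) := by gcongr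
      _ = 2 * N * (T * T ^ (-s.re)) / s.re := by ring
      _ = 2 * N * T ^ (1 - s.re) / s.re := by rw [hsplit]
      _ ≤ 2 * N * Real.exp 1 / (1 / 3) := by gcongr
      _ = 6 * N * Real.exp 1 * 1 := by ring
      _ ≤ 6 * N * Real.exp 1 * τ := by gcongr
  calc ‖∑ n ∈ Finset.Icc 1 ⌊T⌋₊, χ n * (n : ℂ) ^ (-s) +
      dlt χ * (T : ℂ) ^ (1 - s) / (s - 1) - Ech χ T * (T : ℂ) ^ (-s) + s * Tail χ T s‖
      ≤ ‖∑ n ∈ Finset.Icc 1 ⌊T⌋₊, χ n * (n : ℂ) ^ (-s)‖ +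
        ‖dlt χ * (T : ℂ) ^ (1 - s) / (s - 1)‖ + ‖Ech χ T * (T : ℂ) ^ (-s)‖ + ‖s * Tail χ T s‖ := by
        refine (norm_add_le _ _).trans ?_
        gcongr
        refine (norm_sub_le _ _).trans ?_
        gcongr
        exact norm_add_le _ _
    _ ≤ 2 * Real.exp 1 * τ + Real.exp 1 * τ + 2 * N * τ + 6 * N * Real.exp 1 * τ := by gcongr
    _ = (2 * Real.exp 1 + Real.exp 1 + 2 * N + 6 * N * Real.exp 1) * τ := by ring

end Pool.Agent.PNE
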